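import Pool.Agent.Helper32_ABCT.Api2

/-!
# API part 3: values of direct sums and 2-sums (MP_a17fcb_ag)
-/

open MvPolynomial

namespace ABCT

open FlatCell

theorem natpoly_support_mul {σ : Type*} (f g : MvPolynomial σ ℕ) (m : σ →₀ ℕ) :
    m ∈ (f * g).support ↔ ∃ a ∈ f.support, ∃ b ∈ g.support, m = a + b := by
  classical
  rw [mem_support_iff, coeff_mul, Ne, Finset.sum_eq_zero_iff]
  push Not
  constructor
  · rintro ⟨x, hx, h⟩
    exact ⟨x.1, mem_support_iff.mpr (left_ne_zero_of_mul h), x.2,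
      mem_support_iff.mpr (right_ne_zero_of_mul h),
      (Finset.HasAntidiagonal.mem_antidiagonal.mp hx).symm⟩
  · rintro ⟨a, ha, b, hb, rfl⟩
    exact ⟨(a, b), Finset.HasAntidiagonal.mem_antidiagonal.mpr rfl,
      mul_ne_zero (mem_support_iff.mp ha) (mem_support_iff.mp hb)⟩

theorem natpoly_support_add {σ : Type*} (f g : MvPolynomial σ ℕ) (m : σ →₀ ℕ) :
    m ∈ (f + g).support ↔ m ∈ f.support ∨ m ∈ g.support := by
  rw [mem_support_iff, mem_support_iff, mem_support_iff, coeff_add]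
  omega

/-- injection of the variables of `T` into those of `dsum S T` -/
def vdR (S T : Net) : T.flat.V ↪ (Net.dsum S T).flat.V :=
  ⟨Sum.map id (fun h => (show (Net.dsum S T).flat.G from Sum.inr h)), by
    apply Function.Injective.sumMap Function.injective_id
    intro a b h; exact Sum.inr_injective h⟩

/-- injection of the variables of `T` into those of `tsum S T q` -/
def vtR (S T : Net) (q : ℕ) : T.flat.V ↪ (Net.tsum S T q).flat.V :=
  ⟨Sum.map id (fun h => (show (Net.tsum S T q).flat.G from Sum.inr h)), by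
    apply Function.Injective.sumMap Function.injective_id
    intro a b h; exact Sum.inr_injective h⟩

theorem ev_congr (S : FlatCell) {R : Type*} [CommSemiring R] (x y : S.V → R) (I : Finset ℕ)
    (h1 : ∀ i ∈ I, x (Sum.inl i) = y (Sum.inl i)) (h2 : ∀ h, x (Sum.inr h) = y (Sum.inr h)) :
    S.ev x I = S.ev y I := by
  rw [ev_eq, ev_eq]
  congr 1
  · exact Finset.prod_congr rfl h1
  · congr 1; funext h; exact h2 h

theorem ev_ne_mem {S : Net} (hS : S.Valid) {R : Type*} [CommSemiring R] (x : S.flat.V → R)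
    (I : Finset ℕ) (h : I ∉ S.M) : S.flat.ev x I = 0 := by
  rw [ev_eq]
  have : S.flat.Δ I = 0 := by
    by_contra h'
    exact h (((Net.wf' S hS).ne I).mp h')
  rw [this, eval₂_zero, mul_zero]

theorem dsum_ev {S T : Net} (hV : (Net.dsum S T).Valid) {R : Type*} [CommSemiring R]
    (y : (Net.dsum S T).flat.V → R) (J K : Finset ℕ) (hJ : J ∈ S.M) (hK : K ∈ T.M) :
    (Net.dsum S T).flat.ev y (J ∪ K) =
      S.flat.ev (fun v => y (vdL S T v)) J * T.flat.ev (fun v => y (vdR S T v)) K := by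
  obtain ⟨h1, h2, h3⟩ := hV
  have wS := Net.wf' S h1
  have wT := Net.wf' T h2
  have hd := h3
  rw [Finset.disjoint_left] at hd
  have e1 : (J ∪ K) ∩ S.E = J := by
    ext x
    simp only [Finset.mem_inter, Finset.mem_union]
    constructor
    · rintro ⟨h1 | h1, h2⟩
      · exact h1
      · exact absurd (wT.sub K hK h1) (hd h2)
    · intro h; exact ⟨Or.inl h, wS.sub J hJ h⟩
  have e2 : (J ∪ K) ∩ T.E = K := by
    ext x
    simp only [Finset.mem_inter, Finset.mem_union]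
    constructor
    · rintro ⟨h1 | h1, h2⟩
      · exact absurd h2 (hd (wS.sub J hJ h1))
      · exact h1
    · intro h; exact ⟨Or.inr h, wT.sub K hK h⟩
  have e3 : J ∪ K ⊆ S.E ∪ T.E := Finset.union_subset_union (wS.sub J hJ) (wT.sub K hK)
  have e4 : (Net.dsum S T).flat.Δ (J ∪ K) = rename Sum.inl (S.Δ J) * rename Sum.inr (T.Δ K) := by
    show Net.Δ (Net.dsum S T) (J ∪ K) = _
    rw [Net.Δ, if_pos e3, e1, e2]
  have e5 : Disjoint J K := by
    rw [Finset.disjoint_left]
    intro x hx hx'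
    exact hd (wS.sub J hJ hx) (wT.sub K hK hx')
  rw [ev_eq, ev_eq, ev_eq, e4, Finset.prod_union e5]
  rw [eval₂_mul, eval₂_rename, eval₂_rename]
  simp only [vdL, vdR, Function.Embedding.coeFn_mk, Sum.map_inl, id_eq, Sum.map_inr]
  rw [mul_mul_mul_comm]
  rfl

theorem tsum_ev1 {S T : Net} {q : ℕ} (hV : (Net.tsum S T q).Valid) {R : Type*} [CommSemiring R]
    (y : (Net.tsum S T q).flat.V → R) (J K : Finset ℕ) (hJ : J ∈ S.M) (hK : K ∈ T.M)
    (hqJ : q ∈ J) (hqK : q ∉ K) :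
    (Net.tsum S T q).flat.ev y ((J ∪ K).erase q) * y (Sum.inl q) =
      S.flat.ev (fun v => y (vtL S T q v)) J * T.flat.ev (fun v => y (vtR S T q v)) K := by
  obtain ⟨h1, h2, r1, r2, q1, q2, h3, h8⟩ := hV
  have wS := Net.wf' S h1
  have wT := Net.wf' T h2
  have hd := h3
  rw [Finset.disjoint_left] at hd
  obtain ⟨e1, e2⟩ := tsum_split (q := q) (wS.sub J hJ) (wT.sub K hK) h3
  have e3 : (J ∪ K).erase q ⊆ S.E.erase q ∪ T.E.erase q := by
    rw [← Finset.erase_union_distrib]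
    exact Finset.erase_subset_erase _ (Finset.union_subset_union (wS.sub J hJ) (wT.sub K hK))
  have e0 : S.Δ (J.erase q) = 0 := by
    by_contra h
    have := wS.card _ ((wS.ne _).mp h)
    rw [Finset.card_erase_of_mem hqJ, wS.card J hJ] at this
    omega
  have e4 : (Net.tsum S T q).flat.Δ ((J ∪ K).erase q) =
      rename Sum.inl (S.Δ J) * rename Sum.inr (T.Δ K) := by
    show Net.Δ (Net.tsum S T q) ((J ∪ K).erase q) = _
    rw [Net.Δ, if_pos e3, e1, e2, e0, map_zero, zero_mul, zero_add, Finset.insert_erase hqJ,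
      Finset.erase_eq_of_notMem hqK]
  have e5 : Disjoint (J.erase q) K := by
    rw [Finset.disjoint_left]
    intro x hx hx'
    rw [Finset.mem_erase] at hx
    exact hd (Finset.mem_erase.mpr ⟨hx.1, wS.sub J hJ hx.2⟩)
      (Finset.mem_erase.mpr ⟨hx.1, wT.sub K hK hx'⟩)
  have e6 : (J ∪ K).erase q = J.erase q ∪ K := by
    rw [Finset.erase_union_distrib, Finset.erase_eq_of_notMem hqK]
  have e7 : ∏ i ∈ J, y (Sum.inl i) = y (Sum.inl q) * ∏ i ∈ J.erase q, y (Sum.inl i) :=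
    (Finset.mul_prod_erase J (fun i => y (Sum.inl i)) hqJ).symm
  rw [ev_eq, ev_eq, ev_eq, e4, e6, Finset.prod_union e5]
  rw [eval₂_mul, eval₂_rename, eval₂_rename]
  simp only [vtL, vtR, Function.Embedding.coeFn_mk, Sum.map_inl, id_eq, Sum.map_inr]
  rw [e7]
  simp only [Function.comp_def]
  ring

/-- swapping -/
theorem tsum_ev2 {S T : Net} {q : ℕ} (hV : (Net.tsum S T q).Valid) {R : Type*} [CommSemiring R]
    (y : (Net.tsum S T q).flat.V → R) (J K : Finset ℕ) (hJ : J ∈ S.M) (hK : K ∈ T.M)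
    (hqJ : q ∉ J) (hqK : q ∈ K) :
    (Net.tsum S T q).flat.ev y ((J ∪ K).erase q) * y (Sum.inl q) =
      S.flat.ev (fun v => y (vtL S T q v)) J * T.flat.ev (fun v => y (vtR S T q v)) K := by
  obtain ⟨h1, h2, r1, r2, q1, q2, h3, h8⟩ := hV
  have wS := Net.wf' S h1
  have wT := Net.wf' T h2
  have hd := h3
  rw [Finset.disjoint_left] at hd
  obtain ⟨e1, e2⟩ := tsum_split (q := q) (wS.sub J hJ) (wT.sub K hK) h3
  have e3 : (J ∪ K).erase q ⊆ S.E.erase q ∪ T.E.erase q := by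
    rw [← Finset.erase_union_distrib]
    exact Finset.erase_subset_erase _ (Finset.union_subset_union (wS.sub J hJ) (wT.sub K hK))
  have e0 : T.Δ (K.erase q) = 0 := by
    by_contra h
    have := wT.card _ ((wT.ne _).mp h)
    rw [Finset.card_erase_of_mem hqK, wT.card K hK] at this
    omega
  have e4 : (Net.tsum S T q).flat.Δ ((J ∪ K).erase q) =
      rename Sum.inl (S.Δ J) * rename Sum.inr (T.Δ K) := by
    show Net.Δ (Net.tsum S T q) ((J ∪ K).erase q) = _
    rw [Net.Δ, if_pos e3, e1, e2, e0, map_zero, mul_zero, add_zero, Finset.insert_erase hqK,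
      Finset.erase_eq_of_notMem hqJ]
  have e5 : Disjoint J (K.erase q) := by
    rw [Finset.disjoint_left]
    intro x hx hx'
    rw [Finset.mem_erase] at hx'
    exact hd (Finset.mem_erase.mpr ⟨hx'.1, wS.sub J hJ hx⟩)
      (Finset.mem_erase.mpr ⟨hx'.1, wT.sub K hK hx'.2⟩)
  have e6 : (J ∪ K).erase q = J ∪ K.erase q := by
    rw [Finset.erase_union_distrib, Finset.erase_eq_of_notMem hqJ]
  have e7 : ∏ i ∈ K, y (Sum.inl i) = y (Sum.inl q) * ∏ i ∈ K.erase q, y (Sum.inl i) :=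
    (Finset.mul_prod_erase K (fun i => y (Sum.inl i)) hqK).symm
  rw [ev_eq, ev_eq, ev_eq, e4, e6, Finset.prod_union e5]
  rw [eval₂_mul, eval₂_rename, eval₂_rename]
  simp only [vtL, vtR, Function.Embedding.coeFn_mk, Sum.map_inl, id_eq, Sum.map_inr]
  rw [e7]
  simp only [Function.comp_def]
  ring

/-- exactly one of `J`, `K` contains `q` -/
def Xq (q : ℕ) (J K : Finset ℕ) : Prop := (q ∈ J ∧ q ∉ K) ∨ (q ∉ J ∧ q ∈ K)

theorem tsum_ev {S T : Net} {q : ℕ} (hV : (Net.tsum S T q).Valid) {R : Type*} [CommSemiring R]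
    (y : (Net.tsum S T q).flat.V → R) (J K : Finset ℕ) (hJ : J ∈ S.M) (hK : K ∈ T.M)
    (hq : Xq q J K) :
    (Net.tsum S T q).flat.ev y ((J ∪ K).erase q) * y (Sum.inl q) =
      S.flat.ev (fun v => y (vtL S T q v)) J * T.flat.ev (fun v => y (vtR S T q v)) K := by
  rcases hq with h | h
  · exact tsum_ev1 hV y J K hJ hK h.1 h.2
  · exact tsum_ev2 hV y J K hJ hK h.1 h.2

theorem tsum_M {S T : Net} {q : ℕ} (I : Finset ℕ) : I ∈ (Net.tsum S T q).M ↔
    ∃ J ∈ S.M, ∃ K ∈ T.M, Xq q J K ∧ I = (J ∪ K).erase q := by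
  rw [Net.M]
  simp only [Finset.mem_image, Finset.mem_filter, Finset.mem_product, Prod.exists]
  constructor
  · rintro ⟨J, K, ⟨⟨hJ, hK⟩, hq⟩, rfl⟩
    exact ⟨J, hJ, K, hK, hq, rfl⟩
  · rintro ⟨J, hJ, K, hK, hq, rfl⟩
    exact ⟨J, K, ⟨⟨hJ, hK⟩, hq⟩, rfl⟩

theorem dsum_M {S T : Net} (I : Finset ℕ) : I ∈ (Net.dsum S T).M ↔
    ∃ J ∈ S.M, ∃ K ∈ T.M, I = J ∪ K := by
  rw [Net.M]
  simp only [Finset.mem_image, Finset.mem_product, Prod.exists]
  constructor
  · rintro ⟨J, K, ⟨hJ, hK⟩, rfl⟩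
    exact ⟨J, hJ, K, hK, rfl⟩
  · rintro ⟨J, hJ, K, hK, rfl⟩
    exact ⟨J, K, ⟨hJ, hK⟩, rfl⟩

/-! ### coordinates in the fields -/

theorem liftF_P {S : FlatCell} {W : Type} (ι : S.V ↪ W) (I : Finset ℕ) :
    liftF ι (S.P I) = S.ev (fun v => xx (ι v)) I := by
  rw [FlatCell.P, map_ev]
  congr 1
  funext v
  exact liftF_x ι v

theorem tsum_P {S T : Net} {q : ℕ} (hV : (Net.tsum S T q).Valid) (J K : Finset ℕ) (hJ : J ∈ S.M)
    (hK : K ∈ T.M) (hq : Xq q J K) :
    (Net.tsum S T q).flat.P ((J ∪ K).erase q) * xx (Sum.inl q) =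
      liftF (vtL S T q) (S.flat.P J) * liftF (vtR S T q) (T.flat.P K) := by
  rw [liftF_P, liftF_P]
  exact tsum_ev hV _ J K hJ hK hq

theorem dsum_P {S T : Net} (hV : (Net.dsum S T).Valid) (J K : Finset ℕ) (hJ : J ∈ S.M)
    (hK : K ∈ T.M) :
    (Net.dsum S T).flat.P (J ∪ K) =
      liftF (vdL S T) (S.flat.P J) * liftF (vdR S T) (T.flat.P K) := by
  rw [liftF_P, liftF_P]
  exact dsum_ev hV _ J K hJ hK

theorem ev_X (U : FlatCell) (I : Finset ℕ) : U.ev (X : U.V → MvPolynomial U.V ℕ) I = U.pol I := by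
  rw [FlatCell.ev, Subsingleton.elim (Nat.castRingHom (MvPolynomial U.V ℕ)) C, eval₂_eta]

theorem ev_rename (U : FlatCell) {W : Type} (ι : U.V → W) (I : Finset ℕ) :
    U.ev (fun v => (X (ι v) : MvPolynomial W ℕ)) I = rename ι (U.pol I) := by
  have h := map_ev U (rename ι : MvPolynomial U.V ℕ →ₐ[ℕ] MvPolynomial W ℕ).toRingHom
    (X : U.V → MvPolynomial U.V ℕ) I
  rw [ev_X] at h
  refine Eq.trans ?_ h.symm
  congr 1
  funext v
  exact (rename_X ι v).symm

/-- exponents of `dsum` -/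
theorem dsum_pol {S T : Net} (hV : (Net.dsum S T).Valid) (J K : Finset ℕ) (hJ : J ∈ S.M)
    (hK : K ∈ T.M) : (Net.dsum S T).flat.pol (J ∪ K) =
      rename (vdL S T) (S.flat.pol J) * rename (vdR S T) (T.flat.pol K) := by
  have h := dsum_ev hV (X : _ → MvPolynomial (Net.dsum S T).flat.V ℕ) J K hJ hK
  rw [ev_X, ev_rename, ev_rename] at h
  exact h

/-- exponents of `tsum` -/
theorem tsum_pol {S T : Net} {q : ℕ} (hV : (Net.tsum S T q).Valid) (J K : Finset ℕ) (hJ : J ∈ S.M)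
    (hK : K ∈ T.M) (hq : Xq q J K) :
    (Net.tsum S T q).flat.pol ((J ∪ K).erase q) * X (Sum.inl q) =
      rename (vtL S T q) (S.flat.pol J) * rename (vtR S T q) (T.flat.pol K) := by
  have h := tsum_ev hV (X : _ → MvPolynomial (Net.tsum S T q).flat.V ℕ) J K hJ hK hq
  rw [ev_X, ev_rename, ev_rename] at h
  exact h

theorem dsum_exp {S T : Net} (hV : (Net.dsum S T).Valid) (J K : Finset ℕ) (hJ : J ∈ S.M)
    (hK : K ∈ T.M) (μ : (Net.dsum S T).flat.V →₀ ℕ) :
    μ ∈ ((Net.dsum S T).flat.pol (J ∪ K)).support ↔ ∃ a ∈ (S.flat.pol J).support,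
      ∃ b ∈ (T.flat.pol K).support, μ = a.mapDomain (vdL S T) + b.mapDomain (vdR S T) := by
  classical
  rw [dsum_pol hV J K hJ hK, natpoly_support_mul]
  constructor
  · rintro ⟨a, ha, b, hb, rfl⟩
    rw [support_rename_of_injective (vdL S T).injective, Finset.mem_image] at ha
    rw [support_rename_of_injective (vdR S T).injective, Finset.mem_image] at hb
    obtain ⟨a', ha', rfl⟩ := ha
    obtain ⟨b', hb', rfl⟩ := hb
    exact ⟨a', ha', b', hb', rfl⟩
  · rintro ⟨a, ha, b, hb, rfl⟩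
    refine ⟨_, ?_, _, ?_, rfl⟩
    · rw [support_rename_of_injective (vdL S T).injective]
      exact Finset.mem_image_of_mem _ ha
    · rw [support_rename_of_injective (vdR S T).injective]
      exact Finset.mem_image_of_mem _ hb

theorem tsum_exp {S T : Net} {q : ℕ} (hV : (Net.tsum S T q).Valid) (J K : Finset ℕ) (hJ : J ∈ S.M)
    (hK : K ∈ T.M) (hq : Xq q J K) (μ : (Net.tsum S T q).flat.V →₀ ℕ) :
    μ ∈ ((Net.tsum S T q).flat.pol ((J ∪ K).erase q)).support ↔ ∃ a ∈ (S.flat.pol J).support,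
      ∃ b ∈ (T.flat.pol K).support,
      μ + Finsupp.single (Sum.inl q) 1 = a.mapDomain (vtL S T q) + b.mapDomain (vtR S T q) := by
  classical
  have h := natpoly_support_mul ((Net.tsum S T q).flat.pol ((J ∪ K).erase q)) (X (Sum.inl q))
    (μ + Finsupp.single (Sum.inl q) 1)
  rw [support_X] at h
  have h' : (μ + Finsupp.single (Sum.inl q) 1) ∈
      ((Net.tsum S T q).flat.pol ((J ∪ K).erase q) * X (Sum.inl q)).support ↔
      μ ∈ ((Net.tsum S T q).flat.pol ((J ∪ K).erase q)).support := by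
    rw [h]
    constructor
    · rintro ⟨a, ha, b, hb, e⟩
      rw [Finset.mem_singleton] at hb
      subst hb
      rwa [add_right_cancel e]
    · intro ha
      exact ⟨μ, ha, _, Finset.mem_singleton_self _, rfl⟩
  rw [← h', tsum_pol hV J K hJ hK hq, natpoly_support_mul]
  constructor
  · rintro ⟨a, ha, b, hb, e⟩
    rw [support_rename_of_injective (vtL S T q).injective, Finset.mem_image] at ha
    rw [support_rename_of_injective (vtR S T q).injective, Finset.mem_image] at hb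
    obtain ⟨a', ha', rfl⟩ := ha
    obtain ⟨b', hb', rfl⟩ := hb
    exact ⟨a', ha', b', hb', e⟩
  · rintro ⟨a, ha, b, hb, e⟩
    refine ⟨_, ?_, _, ?_, e⟩
    · rw [support_rename_of_injective (vtL S T q).injective]
      exact Finset.mem_image_of_mem _ ha
    · rw [support_rename_of_injective (vtR S T q).injective]
      exact Finset.mem_image_of_mem _ hb

end ABCT
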