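import Pool.Agent.Helper32_ABCT.Stmts

/-!
# NWF: well-formedness of nets (MP_a17fcb_ag)
-/

open MvPolynomial

namespace ABCT

open FlatCell

theorem natpoly_ne_zero_iff {σ : Type*} (f : MvPolynomial σ ℕ) :
    f ≠ 0 ↔ 0 < eval (fun _ => 1) f := by
  constructor
  · intro h
    obtain ⟨m, hm⟩ := MvPolynomial.ne_zero_iff.mp h
    rw [MvPolynomial.eval_eq]
    apply Finset.sum_pos'
    · intro i _; exact Nat.zero_le _
    · refine ⟨m, mem_support_iff.mpr hm, ?_⟩
      simp only [one_pow, Finset.prod_const_one, mul_one]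
      exact Nat.pos_of_ne_zero hm
  · rintro h rfl
    simp at h

theorem natpoly_add_ne_zero_iff {σ : Type*} (f g : MvPolynomial σ ℕ) :
    f + g ≠ 0 ↔ f ≠ 0 ∨ g ≠ 0 := by
  rw [natpoly_ne_zero_iff, natpoly_ne_zero_iff, natpoly_ne_zero_iff, map_add]
  omega

theorem natpoly_mul_ne_zero_iff {σ : Type*} (f g : MvPolynomial σ ℕ) :
    f * g ≠ 0 ↔ f ≠ 0 ∧ g ≠ 0 := by
  rw [natpoly_ne_zero_iff, natpoly_ne_zero_iff, natpoly_ne_zero_iff, map_mul]
  exact ⟨fun h => ⟨Nat.pos_of_mul_pos_right h, Nat.pos_of_mul_pos_left h⟩ ,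
    fun h => Nat.mul_pos h.1 h.2⟩

theorem natpoly_prod_ne_zero {σ ι : Type*} (s : Finset ι) (f : ι → MvPolynomial σ ℕ)
    (h : ∀ i ∈ s, f i ≠ 0) : ∏ i ∈ s, f i ≠ 0 := by
  rw [natpoly_ne_zero_iff, map_prod]
  exact Finset.prod_pos fun i hi => (natpoly_ne_zero_iff _).mp (h i hi)

theorem natpoly_rename_ne_zero {σ τ : Type*} (g : σ → τ) (f : MvPolynomial σ ℕ) :
    rename g f ≠ 0 ↔ f ≠ 0 := by
  rw [natpoly_ne_zero_iff, natpoly_ne_zero_iff, eval_rename]
  rfl

theorem D_ne_zero (n a b : ℕ) (h : a < b) (ha : a < n) : Net.D n a b ≠ 0 := by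
  rw [natpoly_ne_zero_iff, Net.D, map_sum]
  apply Finset.sum_pos'
  · intro i _; exact Nat.zero_le _
  · exact ⟨⟨a, ha⟩, by simp [h], by simp⟩

theorem gen_Delta_ne_zero (l : List ℕ) (r : ℕ) (I : Finset ℕ) :
    Net.Δ (Net.gen l r) I ≠ 0 ↔ I ∈ (Net.gen l r).M := by
  rw [Net.Δ]
  split_ifs with h
  · simp only [h, iff_true]
    apply natpoly_prod_ne_zero
    intro p hp
    rw [Net.prs, Finset.mem_filter, Finset.mem_product, Finset.mem_range, Finset.mem_range] at hp
    exact D_ne_zero _ _ _ hp.2.1 (by omega)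
  · simp [h]

namespace Net

theorem Valid.tsum_symm {S T : Net} {q : ℕ} (h : (Net.tsum S T q).Valid) :
    (Net.tsum T S q).Valid := by
  obtain ⟨h1, h2, h3, h4, h5, h6, h7, h8⟩ := h
  refine ⟨h2, h1, h4, h3, h6, h5, h7.symm, ?_⟩
  rcases h8 with h | h | h
  · exact Or.inl ⟨h.2, h.1⟩
  · exact Or.inr (Or.inr ⟨h.2, h.1⟩)
  · exact Or.inr (Or.inl ⟨h.2, h.1⟩)

theorem Valid.dsum_symm {S T : Net} (h : (Net.dsum S T).Valid) : (Net.dsum T S).Valid :=
  ⟨h.2.1, h.1, h.2.2.symm⟩

/-- the essential content of well-formedness -/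
structure Wf' (S : Net) : Prop where
  ne : ∀ I, S.Δ I ≠ 0 ↔ I ∈ S.M
  nonempty : S.M.Nonempty
  sub : ∀ I ∈ S.M, I ⊆ S.E
  card : ∀ I ∈ S.M, I.card = S.rk

end Net

/-- splitting `I` -/
theorem tsum_split {A B J K : Finset ℕ} {q : ℕ} (hJ : J ⊆ A) (hK : K ⊆ B)
    (hd : Disjoint (A.erase q) (B.erase q)) :
    ((J ∪ K).erase q) ∩ A.erase q = J.erase q ∧ ((J ∪ K).erase q) ∩ B.erase q = K.erase q := by
  rw [Finset.disjoint_left] at hd
  constructor
  · ext x
    simp only [Finset.mem_inter, Finset.mem_erase, Finset.mem_union]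
    constructor
    · rintro ⟨⟨h1, h2⟩, h3, h4⟩
      rcases h2 with h | h
      · exact ⟨h1, h⟩
      · exact absurd (Finset.mem_erase.mpr ⟨h1, hK h⟩) (hd (Finset.mem_erase.mpr ⟨h1, h4⟩))
    · rintro ⟨h1, h2⟩
      exact ⟨⟨h1, Or.inl h2⟩, h1, hJ h2⟩
  · ext x
    simp only [Finset.mem_inter, Finset.mem_erase, Finset.mem_union]
    constructor
    · rintro ⟨⟨h1, h2⟩, h3, h4⟩
      rcases h2 with h | h
      · exact absurd (Finset.mem_erase.mpr ⟨h1, h4⟩) (hd (Finset.mem_erase.mpr ⟨h1, hJ h⟩))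
      · exact ⟨h1, h⟩
    · rintro ⟨h1, h2⟩
      exact ⟨⟨h1, Or.inr h2⟩, h1, hK h2⟩

theorem insert_inter_erase {I : Finset ℕ} {q : ℕ} (h : q ∈ I) : insert q (I.erase q) = I :=
  Finset.insert_erase h

theorem tsum_mem_iff (S T : Net) (q : ℕ) (hS : ∀ I ∈ S.M, I ⊆ S.E) (hT : ∀ I ∈ T.M, I ⊆ T.E)
    (hd : Disjoint (S.E.erase q) (T.E.erase q)) (I : Finset ℕ) :
    I ∈ (Net.tsum S T q).M ↔ I ⊆ S.E.erase q ∪ T.E.erase q ∧
      ((I ∩ S.E.erase q ∈ S.M ∧ insert q (I ∩ T.E.erase q) ∈ T.M) ∨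
       (insert q (I ∩ S.E.erase q) ∈ S.M ∧ I ∩ T.E.erase q ∈ T.M)) := by
  rw [Net.M]
  simp only [Finset.mem_image, Finset.mem_filter, Finset.mem_product, Prod.exists]
  constructor
  · rintro ⟨J, K, ⟨⟨hJ, hK⟩, hq⟩, rfl⟩
    obtain ⟨e1, e2⟩ := tsum_split (hS J hJ) (hT K hK) hd
    refine ⟨?_, ?_⟩
    · intro x hx
      rw [Finset.mem_erase, Finset.mem_union] at hx
      rw [Finset.mem_union, Finset.mem_erase, Finset.mem_erase]
      rcases hx.2 with h | h
      · exact Or.inl ⟨hx.1, hS J hJ h⟩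
      · exact Or.inr ⟨hx.1, hT K hK h⟩
    · rw [e1, e2]
      rcases hq with ⟨h1, h2⟩ | ⟨h1, h2⟩
      · right
        rw [Finset.insert_erase h1, Finset.erase_eq_of_notMem h2]
        exact ⟨hJ, hK⟩
      · left
        rw [Finset.insert_erase h2, Finset.erase_eq_of_notMem h1]
        exact ⟨hJ, hK⟩
  · rintro ⟨hI, h | h⟩
    · refine ⟨_, _, ⟨h, Or.inr ⟨by simp, by simp⟩⟩, ?_⟩
      ext x
      simp only [Finset.mem_erase, Finset.mem_union, Finset.mem_inter, Finset.mem_insert]
      constructor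
      · rintro ⟨h1, (h2 | h2)⟩
        · exact h2.1
        · rcases h2 with h2 | h2
          · exact absurd h2 h1
          · exact h2.1
      · intro hx
        have := hI hx
        rw [Finset.mem_union, Finset.mem_erase, Finset.mem_erase] at this
        rcases this with h3 | h3
        · exact ⟨h3.1, Or.inl ⟨hx, h3⟩⟩
        · exact ⟨h3.1, Or.inr (Or.inr ⟨hx, h3⟩)⟩
    · refine ⟨_, _, ⟨h, Or.inl ⟨by simp, by simp⟩⟩, ?_⟩
      ext x
      simp only [Finset.mem_erase, Finset.mem_union, Finset.mem_inter, Finset.mem_insert]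
      constructor
      · rintro ⟨h1, (h2 | h2)⟩
        · rcases h2 with h2 | h2
          · exact absurd h2 h1
          · exact h2.1
        · exact h2.1
      · intro hx
        have := hI hx
        rw [Finset.mem_union, Finset.mem_erase, Finset.mem_erase] at this
        rcases this with h3 | h3
        · exact ⟨h3.1, Or.inl (Or.inr ⟨hx, h3⟩)⟩
        · exact ⟨h3.1, Or.inr ⟨hx, h3⟩⟩

theorem dsum_mem_iff (S T : Net) (hS : ∀ I ∈ S.M, I ⊆ S.E) (hT : ∀ I ∈ T.M, I ⊆ T.E)
    (hd : Disjoint S.E T.E) (I : Finset ℕ) :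
    I ∈ (Net.dsum S T).M ↔ I ⊆ S.E ∪ T.E ∧ I ∩ S.E ∈ S.M ∧ I ∩ T.E ∈ T.M := by
  rw [Finset.disjoint_left] at hd
  rw [Net.M]
  simp only [Finset.mem_image, Finset.mem_product, Prod.exists]
  constructor
  · rintro ⟨J, K, ⟨hJ, hK⟩, rfl⟩
    have e1 : (J ∪ K) ∩ S.E = J := by
      ext x
      simp only [Finset.mem_inter, Finset.mem_union]
      constructor
      · rintro ⟨h1 | h1, h2⟩
        · exact h1
        · exact absurd (hT K hK h1) (hd h2)
      · intro h; exact ⟨Or.inl h, hS J hJ h⟩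
    have e2 : (J ∪ K) ∩ T.E = K := by
      ext x
      simp only [Finset.mem_inter, Finset.mem_union]
      constructor
      · rintro ⟨h1 | h1, h2⟩
        · exact absurd h2 (hd (hS J hJ h1))
        · exact h1
      · intro h; exact ⟨Or.inr h, hT K hK h⟩
    rw [e1, e2]
    exact ⟨Finset.union_subset_union (hS J hJ) (hT K hK), hJ, hK⟩
  · rintro ⟨hI, h1, h2⟩
    refine ⟨_, _, ⟨h1, h2⟩, ?_⟩
    rw [← Finset.inter_union_distrib_left]
    exact Finset.inter_eq_left.mpr hI

/-- nets: main induction -/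
theorem Net.wf' : ∀ S : Net, S.Valid → S.Wf'
  | black l, h => by
      have h : l.Nonempty := h
      refine ⟨?_, ?_, ?_, ?_⟩
      · intro I
        rw [Net.Δ]
        split_ifs with h' <;> simp [h']
      · exact h.image _
      · intro I hI
        rw [Net.M, Finset.mem_image] at hI
        obtain ⟨x, hx, rfl⟩ := hI
        rw [Net.E]
        simpa using hx
      · intro I hI
        rw [Net.M, Finset.mem_image] at hI
        obtain ⟨x, hx, rfl⟩ := hI
        simp [Net.rk]
  | white l, h => by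
      have h : l.Nonempty := h
      refine ⟨?_, ?_, ?_, ?_⟩
      · intro I
        rw [Net.Δ]
        split_ifs with h' <;> simp [h']
      · exact h.image _
      · intro I hI
        rw [Net.M, Finset.mem_image] at hI
        obtain ⟨x, hx, rfl⟩ := hI
        exact Finset.erase_subset _ _
      · intro I hI
        rw [Net.M, Finset.mem_image] at hI
        obtain ⟨x, hx, rfl⟩ := hI
        simp [Net.rk, Finset.card_erase_of_mem hx]
  | gen l r, h => by
      obtain ⟨h1, h2, h3⟩ := h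
      refine ⟨gen_Delta_ne_zero l r, ?_, ?_, ?_⟩
      · rw [Net.M]
        apply Finset.powersetCard_nonempty.mpr
        rw [List.toFinset_card_of_nodup h1]; omega
      · intro I hI
        exact (Finset.mem_powersetCard.mp hI).1
      · intro I hI
        exact (Finset.mem_powersetCard.mp hI).2
  | dsum S T, h => by
      obtain ⟨h1, h2, h3⟩ := h
      have wS := Net.wf' S h1
      have wT := Net.wf' T h2
      have hm := dsum_mem_iff S T wS.sub wT.sub h3
      refine ⟨?_, ?_, ?_, ?_⟩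
      · intro I
        rw [hm, Net.Δ]
        split_ifs with h'
        · rw [natpoly_mul_ne_zero_iff, natpoly_rename_ne_zero, natpoly_rename_ne_zero, wS.ne,
            wT.ne]
          simp [h']
        · simp [h']
      · rw [Net.M]
        exact (wS.nonempty.product wT.nonempty).image _
      · intro I hI
        exact ((hm I).mp hI).1
      · intro I hI
        obtain ⟨a, b, c⟩ := (hm I).mp hI
        have e : I = (I ∩ S.E) ∪ (I ∩ T.E) := by
          rw [← Finset.inter_union_distrib_left]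
          exact (Finset.inter_eq_left.mpr a).symm
        rw [e, Finset.card_union_of_disjoint, wS.card _ b, wT.card _ c]
        · rfl
        · exact Finset.disjoint_of_subset_left Finset.inter_subset_right
            (Finset.disjoint_of_subset_right Finset.inter_subset_right h3)
  | tsum S T q, h => by
      obtain ⟨h1, h2, h3, h4, h5, h6, h7, h8⟩ := h
      have wS := Net.wf' S h1
      have wT := Net.wf' T h2
      have hm := tsum_mem_iff S T q wS.sub wT.sub h7
      refine ⟨?_, ?_, ?_, ?_⟩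
      · intro I
        rw [hm, Net.Δ]
        split_ifs with h'
        · rw [natpoly_add_ne_zero_iff, natpoly_mul_ne_zero_iff, natpoly_mul_ne_zero_iff]
          simp only [natpoly_rename_ne_zero, wS.ne, wT.ne, h', true_and]
        · simp [h']
      · rw [Net.M]
        apply Finset.Nonempty.image
        rcases h8 with ⟨⟨⟨I, hI, hqI⟩, -⟩, ⟨-, ⟨J, hJ, hqJ⟩⟩⟩ | ⟨hl, hc⟩ | ⟨hc, hl⟩
        · exact ⟨(I, J), by simp [hI, hJ, hqI, hqJ]⟩
        · obtain ⟨I, hI⟩ := wS.nonempty
          obtain ⟨J, hJ⟩ := wT.nonempty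
          exact ⟨(I, J), by simp [hI, hJ, hl I hI, hc J hJ]⟩
        · obtain ⟨I, hI⟩ := wS.nonempty
          obtain ⟨J, hJ⟩ := wT.nonempty
          exact ⟨(I, J), by simp [hI, hJ, hc I hI, hl J hJ]⟩
      · intro I hI
        exact ((hm I).mp hI).1
      · intro I hI
        obtain ⟨a, b⟩ := (hm I).mp hI
        have e : I = (I ∩ S.E.erase q) ∪ (I ∩ T.E.erase q) := by
          rw [← Finset.inter_union_distrib_left]
          exact (Finset.inter_eq_left.mpr a).symm
        have hd : Disjoint (I ∩ S.E.erase q) (I ∩ T.E.erase q) :=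
          Finset.disjoint_of_subset_left Finset.inter_subset_right
            (Finset.disjoint_of_subset_right Finset.inter_subset_right h7)
        rw [e, Finset.card_union_of_disjoint hd, Net.rk]
        have n1 : q ∉ I ∩ T.E.erase q := by simp
        have n2 : q ∉ I ∩ S.E.erase q := by simp
        rcases b with ⟨b1, b2⟩ | ⟨b1, b2⟩
        · have c1 := wS.card _ b1
          have c2 := wT.card _ b2
          rw [Finset.card_insert_of_notMem n1] at c2
          omega
        · have c1 := wS.card _ b1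
          have c2 := wT.card _ b2
          rw [Finset.card_insert_of_notMem n2] at c1
          omega

/-- NWF -/
theorem wfStmt : WfStmt := by
  intro S h
  have w := Net.wf' S h
  refine ⟨⟨w.ne, w.nonempty, ?_⟩, fun I hI => ⟨w.sub I hI, w.card I hI⟩⟩
  intro I hI J hJ
  rw [w.card I hI, w.card J hJ]

end ABCT
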