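import Pool.Agent.Helper32_ABCT.Api

/-!
# API for flat cells, part 2: evaluations, gap fields, RatFunc (MP_a17fcb_ag)
-/

open MvPolynomial

namespace ABCT

open FlatCell

/-! ### evaluations -/

section ev

variable (S : FlatCell) {R : Type*} [CommSemiring R]

theorem ev_eq (x : S.V → R) (I : Finset ℕ) : S.ev x I =
    (∏ i ∈ I, x (Sum.inl i)) *
      eval₂ (Nat.castRingHom R) (fun h => x (Sum.inr h)) (S.Δ I) := by
  rw [FlatCell.ev, FlatCell.pol, eval₂_mul, eval₂_rename]
  congr 1
  rw [← coe_eval₂Hom, map_prod]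
  exact Finset.prod_congr rfl fun i _ => by simp

theorem map_ev {R' : Type*} [CommSemiring R'] (σ : R →+* R') (x : S.V → R) (I : Finset ℕ) :
    σ (S.ev x I) = S.ev (fun v => σ (x v)) I := by
  rw [FlatCell.ev, FlatCell.ev, hom_eval₂]
  congr 1
  exact Subsingleton.elim _ _

theorem P_eq (I : Finset ℕ) : S.P I = (∏ i ∈ I, xx (Sum.inl i)) *
    eval₂ (Nat.castRingHom S.F) (fun h => xx (Sum.inr h)) (S.Δ I) := ev_eq S _ I

theorem P_pos (I : Finset ℕ) (h : S.Δ I ≠ 0) : PosF (S.P I) := by
  rw [P_eq]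
  exact (PosF.prod _ _ fun i _ => PosF.x _).mul (PosF.eval₂ _ (fun h => PosF.x _) _ h)

theorem P_ne_zero (I : Finset ℕ) (h : S.Δ I ≠ 0) : S.P I ≠ 0 := (P_pos S I h).ne_zero

theorem P_eq_zero (I : Finset ℕ) (h : S.Δ I = 0) : S.P I = 0 := by
  rw [P_eq, h, eval₂_zero, mul_zero]

end ev

/-! ### gap fields -/

section gap

variable (S : FlatCell)

theorem gap_x (h : S.G) : (xx (Sum.inr h) : S.F) ∈ S.gapField :=
  IntermediateField.subset_adjoin _ _ ⟨h, rfl⟩

theorem natCast_mem_if {K L : Type*} [Field K] [Field L] [Algebra K L] (E : IntermediateField K L)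
    (n : ℕ) : (n : L) ∈ E := by
  simp

theorem if_eval₂ {K L U : Type*} [Field K] [Field L] [Algebra K L] (E : IntermediateField K L)
    (y : U → L) (hy : ∀ u, y u ∈ E) (N : MvPolynomial U ℕ) :
    eval₂ (Nat.castRingHom L) y N ∈ E := by
  rw [eval₂_eq]
  refine sum_mem fun m _ => mul_mem ?_ (prod_mem fun i _ => pow_mem (hy i) _)
  simp

theorem gap_eval₂ {U : Type*} (y : U → S.F) (hy : ∀ u, y u ∈ S.gapField) (N : MvPolynomial U ℕ) :
    eval₂ (Nat.castRingHom S.F) y N ∈ S.gapField := if_eval₂ _ y hy N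

/-- an element of the gap field is fixed by the ring homomorphisms fixing `ℂ` and the gaps -/
theorem gap_fix {K : Type*} [Field K] (σ τ : S.F →+* K)
    (h1 : ∀ a : ℂ, σ (algebraMap ℂ S.F a) = τ (algebraMap ℂ S.F a))
    (h2 : ∀ h : S.G, σ (xx (Sum.inr h)) = τ (xx (Sum.inr h))) (f : S.F) (hf : f ∈ S.gapField) :
    σ f = τ f := by
  let E : IntermediateField ℂ S.F :=
    { carrier := {f | σ f = τ f}
      mul_mem' := fun {a b} ha hb => by
        show σ (a * b) = τ (a * b); rw [map_mul, map_mul]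
        exact congrArg₂ _ ha hb
      add_mem' := fun {a b} ha hb => by
        show σ (a + b) = τ (a + b); rw [map_add, map_add]
        exact congrArg₂ _ ha hb
      algebraMap_mem' := h1
      inv_mem' := fun a ha => by
        show σ a⁻¹ = τ a⁻¹; rw [map_inv₀, map_inv₀]
        exact congrArg _ ha }
  have : S.gapField ≤ E := by
    apply IntermediateField.adjoin_le_iff.mpr
    rintro _ ⟨h, rfl⟩
    exact h2 h
  exact this hf

theorem liftF_gap {S S' : FlatCell} (ι : S.V ↪ S'.V) (hι : ∀ h : S.G, ∃ h' : S'.G,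
    ι (Sum.inr h) = Sum.inr h') (f : S.F) (hf : f ∈ S.gapField) : liftF ι f ∈ S'.gapField := by
  let E : IntermediateField ℂ S.F :=
    { carrier := {f | liftF ι f ∈ S'.gapField}
      mul_mem' := fun {a b} ha hb => by
        show liftF ι (a * b) ∈ S'.gapField; rw [map_mul]; exact mul_mem ha hb
      add_mem' := fun {a b} ha hb => by
        show liftF ι (a + b) ∈ S'.gapField; rw [map_add]; exact add_mem ha hb
      algebraMap_mem' := fun a => by
        show liftF ι (algebraMap ℂ _ a) ∈ S'.gapField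
        rw [liftF_C]; exact IntermediateField.algebraMap_mem _ _
      inv_mem' := fun a ha => by
        show liftF ι a⁻¹ ∈ S'.gapField; rw [map_inv₀]; exact inv_mem ha }
  have : S.gapField ≤ E := by
    apply IntermediateField.adjoin_le_iff.mpr
    rintro _ ⟨h, rfl⟩
    obtain ⟨h', e⟩ := hι h
    show liftF ι (xx (Sum.inr h)) ∈ S'.gapField
    rw [liftF_x, e]
    exact gap_x S' h'
  exact this hf

/-- label scaling fixes the gap field -/
theorem scal_gap (t : S.V → ℂ) (ht : ∀ v, t v ≠ 0) (h1 : ∀ h : S.G, t (Sum.inr h) = 1) (f : S.F)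
    (hf : f ∈ S.gapField) : scal t ht f = f := by
  refine gap_fix S (scal t ht) (RingHom.id _) (fun a => by simp) (fun h => ?_) f hf
  rw [scal_x, h1, map_one, one_mul]; rfl

end gap

/-! ### monomials -/

section mono

variable (S : FlatCell)

theorem xx_ne_zero {V : Type} (v : V) : (xx v : Fr V) ≠ 0 := (PosF.x v).ne_zero

/-- Laurent monomial in a field -/
noncomputable def lmono {V K : Type*} [Field K] (y : V → K) (m : V →₀ ℤ) : K :=
  m.prod fun v n => y v ^ n

theorem mono_eq (m : S.V →₀ ℤ) : S.mono m = lmono xx m := rfl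

theorem wmono_eq {S S' : FlatCell} (φ : FacetData S S') (m : S.V →₀ ℤ) :
    φ.wmono m = lmono φ.w m := rfl

variable {V K : Type*} [Field K] (y : V → K)

theorem lmono_zero : lmono y 0 = 1 := by simp [lmono]

theorem lmono_add (hy : ∀ v, y v ≠ 0) (m n : V →₀ ℤ) :
    lmono y (m + n) = lmono y m * lmono y n := by
  classical
  rw [lmono, Finsupp.prod_add_index]
  · rfl
  · intro v _; simp
  · intro v _ a b; exact zpow_add₀ (hy v) a b

theorem lmono_neg (m : V →₀ ℤ) : lmono y (-m) = (lmono y m)⁻¹ := by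
  rw [lmono, lmono, Finsupp.prod_neg_index (by simp), Finsupp.prod, Finsupp.prod,
    ← Finset.prod_inv_distrib]
  exact Finset.prod_congr rfl fun v _ => zpow_neg _ _

theorem lmono_sub (hy : ∀ v, y v ≠ 0) (m n : V →₀ ℤ) :
    lmono y (m - n) = lmono y m / lmono y n := by
  rw [sub_eq_add_neg, lmono_add y hy, lmono_neg, div_eq_mul_inv]

theorem lmono_single (v : V) (n : ℤ) : lmono y (Finsupp.single v n) = y v ^ n := by
  rw [lmono, Finsupp.prod_single_index (by simp)]

theorem lmono_zexp (μ : V →₀ ℕ) : lmono y (zexp μ) = μ.prod fun v n => y v ^ n := by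
  rw [lmono, zexp, Finsupp.prod_mapRange_index (by simp)]
  exact Finsupp.prod_congr fun v _ => by simp

theorem lmono_ne_zero (hy : ∀ v, y v ≠ 0) (m : V →₀ ℤ) : lmono y m ≠ 0 :=
  Finset.prod_ne_zero_iff.mpr fun v _ => zpow_ne_zero _ (hy v)

theorem lmono_map {L : Type*} [Field L] (σ : K →+* L) (m : V →₀ ℤ) :
    σ (lmono y m) = lmono (fun v => σ (y v)) m := by
  rw [lmono, lmono, Finsupp.prod, map_prod]
  exact Finset.prod_congr rfl fun v _ => map_zpow₀ _ _ _

theorem lmono_mul (z : V → K) (m : V →₀ ℤ) :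
    lmono (fun v => y v * z v) m = lmono y m * lmono z m := by
  rw [lmono, lmono, lmono, Finsupp.prod, Finsupp.prod, Finsupp.prod, ← Finset.prod_mul_distrib]
  exact Finset.prod_congr rfl fun v _ => mul_zpow _ _ _

theorem lmono_eq_prod (m : V →₀ ℤ) (s : Finset V) (hs : m.support ⊆ s) :
    lmono y m = ∏ v ∈ s, y v ^ m v := by
  rw [lmono, Finsupp.prod]
  apply Finset.prod_subset hs
  intro v _ hv
  rw [Finsupp.notMem_support_iff.mp hv, zpow_zero]

end mono

/-! ### rational functions in `s` -/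

section rat

variable {V W : Type}

/-- ring homomorphism on coefficients -/
noncomputable def mapR {K L : Type*} [Field K] [Field L] (σ : K →+* L) : RatFunc K →+* RatFunc L :=
  RatFunc.mapRingHom (Polynomial.mapRingHom σ) (by
    intro p hp
    rw [Submonoid.mem_comap, mem_nonZeroDivisors_iff_ne_zero]
    have := nonZeroDivisors.ne_zero hp
    intro h
    exact this (Polynomial.map_injective σ σ.injective (h.trans (Polynomial.map_zero σ).symm)))

@[simp] theorem mapR_algebraMap {K L : Type*} [Field K] [Field L] (σ : K →+* L)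
    (f : Polynomial K) : mapR σ (algebraMap (Polynomial K) (RatFunc K) f) =
      algebraMap (Polynomial L) (RatFunc L) (f.map σ) := by
  rw [mapR, RatFunc.coe_mapRingHom_eq_coe_map]
  have := RatFunc.map_apply_div (Polynomial.mapRingHom σ) (by
    intro p hp
    rw [Submonoid.mem_comap, mem_nonZeroDivisors_iff_ne_zero]
    have := nonZeroDivisors.ne_zero hp
    intro h
    exact this (Polynomial.map_injective σ σ.injective (h.trans (Polynomial.map_zero σ).symm))) f 1
  simpa using this

@[simp] theorem mapR_C {K L : Type*} [Field K] [Field L] (σ : K →+* L) (a : K) :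
    mapR σ (RatFunc.C a) = RatFunc.C (σ a) := by
  rw [← RatFunc.algebraMap_C, mapR_algebraMap, Polynomial.map_C, RatFunc.algebraMap_C]

@[simp] theorem mapR_s {K L : Type*} [Field K] [Field L] (σ : K →+* L) :
    mapR σ (sVar K) = sVar L := by
  rw [sVar, ← RatFunc.algebraMap_X, mapR_algebraMap, Polynomial.map_X, RatFunc.algebraMap_X]

/-- nonzero polynomials with coefficients zero or subtraction-free -/
def PosP (A : Polynomial (Fr V)) : Prop := A ≠ 0 ∧ ∀ i, A.coeff i = 0 ∨ PosF (A.coeff i)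

theorem PosP.add {A B : Polynomial (Fr V)} (hA : PosP A) (hB : PosP B) : PosP (A + B) := by
  refine ⟨?_, ?_⟩
  · obtain ⟨i, hi⟩ : ∃ i, A.coeff i ≠ 0 := by
      by_contra h
      push Not at h
      exact hA.1 (Polynomial.ext fun i => by simpa using h i)
    intro h
    have h1 : (A + B).coeff i = 0 := by rw [h]; simp
    rw [Polynomial.coeff_add] at h1
    have hp := (hA.2 i).resolve_left hi
    rcases hB.2 i with h2 | h2
    · rw [h2, add_zero] at h1; exact hi h1
    · exact (hp.add h2).ne_zero h1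
  · intro i
    rw [Polynomial.coeff_add]
    rcases hA.2 i with h1 | h1
    · rw [h1, zero_add]; exact hB.2 i
    · rcases hB.2 i with h2 | h2
      · rw [h2, add_zero]; exact Or.inr h1
      · exact Or.inr (h1.add h2)

theorem sum_zero_or_pos {ι : Type*} (s : Finset ι) (f : ι → Fr V)
    (h : ∀ i ∈ s, f i = 0 ∨ PosF (f i)) : ∑ i ∈ s, f i = 0 ∨ PosF (∑ i ∈ s, f i) := by
  classical
  induction s using Finset.induction_on with
  | empty => left; simp
  | insert a s ha ih =>
    rw [Finset.sum_insert ha]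
    have h1 := h a (Finset.mem_insert_self _ _)
    have h2 := ih fun i hi => h i (Finset.mem_insert_of_mem hi)
    rcases h1 with h1 | h1
    · rw [h1, zero_add]; exact h2
    · rcases h2 with h2 | h2
      · rw [h2, add_zero]; exact Or.inr h1
      · exact Or.inr (h1.add h2)

theorem PosP.mul {A B : Polynomial (Fr V)} (hA : PosP A) (hB : PosP B) : PosP (A * B) := by
  refine ⟨mul_ne_zero hA.1 hB.1, fun i => ?_⟩
  rw [Polynomial.coeff_mul]
  apply sum_zero_or_pos
  intro p _
  rcases hA.2 p.1 with h1 | h1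
  · left; rw [h1, zero_mul]
  · rcases hB.2 p.2 with h2 | h2
    · left; rw [h2, mul_zero]
    · exact Or.inr (h1.mul h2)

theorem PosP.C {a : Fr V} (ha : PosF a) : PosP (Polynomial.C a) := by
  refine ⟨by simpa using ha.ne_zero, fun i => ?_⟩
  rw [Polynomial.coeff_C]
  split_ifs
  · exact Or.inr ha
  · exact Or.inl rfl

theorem PosP.X : PosP (Polynomial.X : Polynomial (Fr V)) := by
  refine ⟨Polynomial.X_ne_zero, fun i => ?_⟩
  rw [Polynomial.coeff_X]
  split_ifs
  · exact Or.inr PosF.one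
  · exact Or.inl rfl

/-- subtraction-free elements of the field of rational functions in `s` -/
def PosR (f : RatFunc (Fr V)) : Prop :=
  ∃ A B : Polynomial (Fr V), PosP A ∧ PosP B ∧
    f = algebraMap (Polynomial (Fr V)) (RatFunc (Fr V)) A /
      algebraMap (Polynomial (Fr V)) (RatFunc (Fr V)) B

theorem PosR.ne_zero {f : RatFunc (Fr V)} (h : PosR f) : f ≠ 0 := by
  obtain ⟨A, B, hA, hB, rfl⟩ := h
  exact div_ne_zero (RatFunc.algebraMap_ne_zero hA.1) (RatFunc.algebraMap_ne_zero hB.1)

theorem PosR.C {a : Fr V} (ha : PosF a) : PosR (RatFunc.C a) :=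
  ⟨Polynomial.C a, Polynomial.C 1, PosP.C ha, PosP.C PosF.one, by
    rw [RatFunc.algebraMap_C, RatFunc.algebraMap_C, map_one, div_one]⟩

theorem PosR.one : PosR (1 : RatFunc (Fr V)) := by
  simpa using PosR.C (V := V) PosF.one

theorem PosR.s : PosR (sVar (Fr V)) :=
  ⟨Polynomial.X, Polynomial.C 1, PosP.X, PosP.C PosF.one, by
    rw [RatFunc.algebraMap_C, map_one, div_one, RatFunc.algebraMap_X]⟩

theorem PosR.mul {f g : RatFunc (Fr V)} (hf : PosR f) (hg : PosR g) : PosR (f * g) := by
  obtain ⟨A, B, hA, hB, rfl⟩ := hf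
  obtain ⟨A', B', hA', hB', rfl⟩ := hg
  exact ⟨A * A', B * B', hA.mul hA', hB.mul hB', by rw [map_mul, map_mul, div_mul_div_comm]⟩

theorem PosR.inv {f : RatFunc (Fr V)} (hf : PosR f) : PosR f⁻¹ := by
  obtain ⟨A, B, hA, hB, rfl⟩ := hf
  exact ⟨B, A, hB, hA, inv_div _ _⟩

theorem PosR.div {f g : RatFunc (Fr V)} (hf : PosR f) (hg : PosR g) : PosR (f / g) := by
  rw [div_eq_mul_inv]; exact hf.mul hg.inv

theorem PosR.add {f g : RatFunc (Fr V)} (hf : PosR f) (hg : PosR g) : PosR (f + g) := by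
  obtain ⟨A, B, hA, hB, rfl⟩ := hf
  obtain ⟨A', B', hA', hB', rfl⟩ := hg
  refine ⟨A * B' + B * A', B * B', (hA.mul hB').add (hB.mul hA'), hB.mul hB', ?_⟩
  rw [map_add, map_mul, map_mul, map_mul, div_add_div _ _ (RatFunc.algebraMap_ne_zero hB.1)
    (RatFunc.algebraMap_ne_zero hB'.1)]

theorem PosR.pow {f : RatFunc (Fr V)} (hf : PosR f) (n : ℕ) : PosR (f ^ n) := by
  induction n with
  | zero => simpa using PosR.one
  | succ n ih => rw [pow_succ]; exact ih.mul hf

theorem PosR.zpow {f : RatFunc (Fr V)} (hf : PosR f) (n : ℤ) : PosR (f ^ n) := by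
  cases n with
  | ofNat n => simpa using hf.pow n
  | negSucc n => rw [zpow_negSucc]; exact (hf.pow _).inv

theorem PosR.prod {ι : Type*} (s : Finset ι) (f : ι → RatFunc (Fr V))
    (h : ∀ i ∈ s, PosR (f i)) : PosR (∏ i ∈ s, f i) := by
  classical
  induction s using Finset.induction_on with
  | empty => simpa using PosR.one
  | insert a s ha ih =>
    rw [Finset.prod_insert ha]
    exact (h a (Finset.mem_insert_self _ _)).mul
      (ih fun i hi => h i (Finset.mem_insert_of_mem hi))

theorem PosR.sum {ι : Type*} (s : Finset ι) (hs : s.Nonempty) (f : ι → RatFunc (Fr V))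
    (h : ∀ i ∈ s, PosR (f i)) : PosR (∑ i ∈ s, f i) := by
  classical
  induction hs using Finset.Nonempty.cons_induction with
  | singleton a => simpa using h a (by simp)
  | cons a s ha hs ih =>
    rw [Finset.sum_cons]
    exact (h a (by simp)).add (ih fun i hi => h i (by simp [hi]))

theorem PosR.natCast {n : ℕ} (hn : n ≠ 0) : PosR (n : RatFunc (Fr V)) := by
  simpa using PosR.C (V := V) (PosF.natCast hn)

theorem PosR.eval₂ {U : Type*} (y : U → RatFunc (Fr V)) (hy : ∀ u, PosR (y u))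
    (N : MvPolynomial U ℕ) (hN : N ≠ 0) :
    PosR (MvPolynomial.eval₂ (Nat.castRingHom (RatFunc (Fr V))) y N) := by
  rw [eval₂_eq]
  apply PosR.sum
  · exact support_nonempty.mpr hN
  · intro m hm
    refine PosR.mul (PosR.natCast (mem_support_iff.mp hm)) (PosR.prod _ _ fun i _ => ?_)
    exact (hy i).pow _

theorem s_ne_zero {K : Type*} [Field K] : sVar K ≠ 0 := RatFunc.X_ne_zero

end rat

/-! ### facet data -/

section phi

variable {S S' : FlatCell} (φ : FacetData S S')

theorem phi_P_eq (I : Finset ℕ) : φ.P I = (∏ i ∈ I, φ.psi (Sum.inl i)) *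
    eval₂ (Nat.castRingHom (RatFunc S'.F)) (fun h => φ.psi (Sum.inr h)) (S.Δ I) := ev_eq S _ I

theorem psi_pos (h : ∀ v, S'.Pos (φ.w v)) (v : S.V) : PosR (φ.psi v) :=
  (PosR.s.zpow _).mul (PosR.C (h v))

theorem phi_P_pos (h : ∀ v, S'.Pos (φ.w v)) (I : Finset ℕ) (hI : S.Δ I ≠ 0) : PosR (φ.P I) := by
  rw [phi_P_eq]
  exact (PosR.prod _ _ fun i _ => psi_pos φ h _).mul (PosR.eval₂ _ (fun h' => psi_pos φ h _) _ hI)

theorem phi_P_ne_zero (h : ∀ v, S'.Pos (φ.w v)) (I : Finset ℕ) (hI : S.Δ I ≠ 0) : φ.P I ≠ 0 :=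
  (phi_P_pos φ h I hI).ne_zero

theorem phi_P_eq_zero (I : Finset ℕ) (h : S.Δ I = 0) : φ.P I = 0 := by
  rw [phi_P_eq, h, eval₂_zero, mul_zero]

/-- label scaling by `2` of the label `q` -/
noncomputable def two (S : FlatCell) (q : ℕ) : S.V → ℂ := fun v => match v with
  | Sum.inl i => if i = q then 2 else 1
  | Sum.inr _ => 1

theorem two_ne (S : FlatCell) (q : ℕ) (v : S.V) : two S q v ≠ 0 := by
  rcases v with i | h
  · simp only [two]; split_ifs <;> norm_num
  · simp [two]

theorem scal_two_w (q : ℕ) (h1 : ∀ i : ℕ, φ.w (Sum.inl i) / S'.x (Sum.inl i) ∈ S'.gapField)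
    (i : ℕ) : scal (two S' q) (two_ne S' q) (φ.w (Sum.inl i)) =
      (if i = q then 2 else 1) * φ.w (Sum.inl i) := by
  have h2 := scal_gap S' (two S' q) (two_ne S' q) (fun h => by simp [two]) _ (h1 i)
  rw [map_div₀, flat_x, scal_x] at h2
  have h3 : (xx (Sum.inl i) : S'.F) ≠ 0 := xx_ne_zero _
  have h4 : algebraMap ℂ S'.F (two S' q (Sum.inl i)) ≠ 0 := by
    rw [Ne, map_eq_zero]; exact two_ne _ _ _
  rw [div_eq_div_iff (mul_ne_zero h4 h3) h3] at h2
  have h5 : scal (two S' q) (two_ne S' q) (φ.w (Sum.inl i)) =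
      algebraMap ℂ S'.F (two S' q (Sum.inl i)) * φ.w (Sum.inl i) := by
    apply mul_right_cancel₀ h3
    rw [h2]; ring
  rw [h5]
  congr 1
  by_cases h : i = q
  · simp only [two, h, if_true]; exact map_ofNat _ 2
  · simp [two, h]

theorem scal_two_gap (q : ℕ) (f : S'.F) (hf : f ∈ S'.gapField) :
    scal (two S' q) (two_ne S' q) f = f :=
  scal_gap S' (two S' q) (two_ne S' q) (fun h => by simp [two]) _ hf

theorem two_pow_mem {K : Type*} [Field K] (I : Finset ℕ) (q : ℕ) :
    ∏ i ∈ I, (if i = q then (2:K) else 1) = if q ∈ I then 2 else 1 := by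
  rw [Finset.prod_ite_eq']

/-- label scaling of `φ.P` -/
theorem scal_two_P (q : ℕ) (h1 : ∀ i : ℕ, φ.w (Sum.inl i) / S'.x (Sum.inl i) ∈ S'.gapField)
    (h2 : ∀ h : S.G, φ.w (Sum.inr h) ∈ S'.gapField) (I : Finset ℕ) :
    mapR (scal (two S' q) (two_ne S' q)) (φ.P I) = (if q ∈ I then 2 else 1) * φ.P I := by
  classical
  rw [phi_P_eq, map_mul, map_prod, hom_eval₂, ← mul_assoc]
  congr 1
  · rw [← two_pow_mem, ← Finset.prod_mul_distrib]
    apply Finset.prod_congr rfl
    intro i _
    rw [FacetData.psi, map_mul, map_zpow₀, mapR_s, mapR_C, scal_two_w φ q h1, map_mul]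
    split_ifs
    · rw [map_ofNat]; ring
    · rw [map_one]; ring
  · congr 1
    · exact Subsingleton.elim _ _
    · funext h
      rw [FacetData.psi, map_mul, map_zpow₀, mapR_s, mapR_C, scal_two_gap q _ (h2 h)]

/-- label scaling of `S.P` -/
theorem scal_two_flatP (S : FlatCell) (q : ℕ) (I : Finset ℕ) :
    scal (two S q) (two_ne S q) (S.P I) = (if q ∈ I then 2 else 1) * S.P I := by
  classical
  rw [P_eq, map_mul, map_prod, hom_eval₂, ← mul_assoc]
  congr 1
  · rw [← two_pow_mem, ← Finset.prod_mul_distrib]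
    apply Finset.prod_congr rfl
    intro i _
    rw [scal_x]
    congr 1
    by_cases h : i = q
    · simp only [two, h, if_true]; exact map_ofNat _ 2
    · simp [two, h]
  · congr 1
    · exact Subsingleton.elim _ _
    · funext h
      show scal _ _ (xx (Sum.inr h)) = xx (Sum.inr h)
      rw [scal_x]
      simp [two]

end phi

end ABCT
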