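import Pool.Agent.Helper32_ABCT.Api3

/-!
# API part 4: values of the facet data of sums (MP_a17fcb_ag)
-/

open MvPolynomial

namespace ABCT

open FlatCell

/-- homogeneity of `ev` in the label variables -/
theorem ev_scale (S : FlatCell) {R : Type*} [CommSemiring R] (y z : S.V → R) (a : R)
    (I : Finset ℕ) (h1 : ∀ i ∈ I, z (Sum.inl i) = a * y (Sum.inl i))
    (h2 : ∀ h, z (Sum.inr h) = y (Sum.inr h)) : S.ev z I = a ^ I.card * S.ev y I := by
  rw [ev_eq, ev_eq, Finset.prod_congr rfl h1, Finset.prod_mul_distrib, Finset.prod_const,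
    mul_assoc]
  congr 2
  congr 1
  funext h
  exact h2 h

theorem mapR_P {S S' : FlatCell} (φ : FacetData S S') {K : Type*} [Field K] (σ : S'.F →+* K)
    (I : Finset ℕ) : mapR σ (φ.P I) =
      S.ev (fun v => sVar K ^ φ.lam v * RatFunc.C (σ (φ.w v))) I := by
  rw [FacetData.P, map_ev]
  congr 1
  funext v
  rw [FacetData.psi, map_mul, map_zpow₀, mapR_s, mapR_C]

theorem mapC_P (S : FlatCell) {K : Type*} [Field K] (σ : S.F →+* K) (I : Finset ℕ) :
    RatFunc.C (σ (S.P I)) = S.ev (fun v => RatFunc.C (σ (xx v))) I := by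
  rw [FlatCell.P, map_ev, map_ev]
  rfl

section tsumL

variable {S S' : Net} (T : Net) (q : ℕ) (φ : FacetData S.flat S'.flat)

theorem tsumLFD_psi_inl_T (i : ℕ) (h0 : i ∈ T.E.erase q ∨ i = q) :
    (tsumLFD T q φ).psi (Sum.inl i) =
      (sVar _ ^ φ.lam (Sum.inl q) * RatFunc.C (liftF (vtL S' T q)
        (φ.w (Sum.inl q) / S'.flat.x (Sum.inl q)))) * RatFunc.C (xx (Sum.inl i)) := by
  rcases h0 with h0 | rfl
  · simp only [FacetData.psi, tsumLFD, if_pos h0]
    rw [map_mul, mul_assoc, mul_comm (RatFunc.C (FlatCell.x _ (Sum.inl i)))]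
    rfl
  · have h1 : i ∉ T.E.erase i := by simp
    simp only [FacetData.psi, tsumLFD, if_neg h1]
    rw [mul_assoc, ← map_mul]
    congr 2
    rw [map_div₀, flat_x, liftF_x]
    have : (vtL S' T i) (Sum.inl i) = Sum.inl i := rfl
    rw [this, div_mul_cancel₀ _ (xx_ne_zero _)]

theorem tsumLFD_P (hV : (Net.tsum S T q).Valid) (hw : φ.w (Sum.inl q) ≠ 0) (J K : Finset ℕ) (hJ : J ∈ S.M)
    (hK : K ∈ T.M) (hq : Xq q J K) :
    (tsumLFD T q φ).P ((J ∪ K).erase q) * RatFunc.C (xx (Sum.inl q)) =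
      mapR (liftF (vtL S' T q)) (φ.P J) *
      (sVar _ ^ φ.lam (Sum.inl q) * RatFunc.C (liftF (vtL S' T q)
        (φ.w (Sum.inl q) / S'.flat.x (Sum.inl q)))) ^ (T.rk - 1) *
      RatFunc.C (liftF (vtR S' T q) (T.flat.P K)) := by
  have hV' := hV
  obtain ⟨h1, h2, r1, r2, q1, q2, h3, h8⟩ := hV
  have wS := Net.wf' S h1
  have wT := Net.wf' T h2
  have hd := h3
  rw [Finset.disjoint_left] at hd
  have key := tsum_ev hV' (tsumLFD T q φ).psi J K hJ hK hq
  change (tsumLFD T q φ).P ((J ∪ K).erase q) * _ = _ at key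
  have e1 : S.flat.ev (fun v => (tsumLFD T q φ).psi (vtL S T q v)) J =
      mapR (liftF (vtL S' T q)) (φ.P J) := by
    rw [mapR_P]
    apply ev_congr
    · intro i hi
      have h0 : i ∉ T.E.erase q := by
        intro h
        exact hd (Finset.mem_erase.mpr ⟨(Finset.mem_erase.mp h).1, wS.sub J hJ hi⟩) h
      show (tsumLFD T q φ).psi (Sum.inl i) = _
      simp only [FacetData.psi, tsumLFD, if_neg h0]
    · intro h
      rfl
  have e2 : T.flat.ev (fun v => (tsumLFD T q φ).psi (vtR S T q v)) K =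
      (sVar _ ^ φ.lam (Sum.inl q) * RatFunc.C (liftF (vtL S' T q)
        (φ.w (Sum.inl q) / S'.flat.x (Sum.inl q)))) ^ T.rk *
      RatFunc.C (liftF (vtR S' T q) (T.flat.P K)) := by
    rw [mapC_P, ← wT.card K hK]
    apply ev_scale
    · intro i hi
      show (tsumLFD T q φ).psi (Sum.inl i) = _
      rw [tsumLFD_psi_inl_T T q φ i, liftF_x]
      · rfl
      · by_cases h : i = q
        · exact Or.inr h
        · exact Or.inl (Finset.mem_erase.mpr ⟨h, wT.sub K hK hi⟩)
    · intro h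
      show (tsumLFD T q φ).psi (Sum.inr (Sum.inr h)) = _
      simp only [FacetData.psi, tsumLFD, zpow_zero, one_mul, liftF_x]
      rfl
  rw [e1, e2] at key
  have e3 : (tsumLFD T q φ).psi (Sum.inl q) = (sVar _ ^ φ.lam (Sum.inl q) *
      RatFunc.C (liftF (vtL S' T q) (φ.w (Sum.inl q) / S'.flat.x (Sum.inl q)))) *
      RatFunc.C (xx (Sum.inl q)) := tsumLFD_psi_inl_T T q φ q (Or.inr rfl)
  rw [e3] at key
  have e4 : sVar _ ^ φ.lam (Sum.inl q) * RatFunc.C (liftF (vtL S' T q)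
      (φ.w (Sum.inl q) / S'.flat.x (Sum.inl q))) ≠ 0 := by
    apply mul_ne_zero (zpow_ne_zero _ s_ne_zero)
    rw [Ne, map_eq_zero, map_eq_zero]
    exact div_ne_zero hw (xx_ne_zero _)
  obtain ⟨n, hn⟩ : ∃ n, T.rk = n + 1 := ⟨T.rk - 1, by omega⟩
  rw [hn] at key ⊢
  rw [Nat.add_sub_cancel, ← mul_right_inj' e4]
  rw [pow_succ] at key
  linear_combination key

end tsumL

section tsumB

variable {S S' : Net} (T T' : Net) (q : ℕ) (e : T'.G ≃ T.G) (φ : FacetData S.flat S'.flat)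

theorem tsumBFD_psi_inl_T (i : ℕ) (h0 : i ∈ T.E.erase q ∨ i = q) :
    (tsumBFD T T' q e φ).psi (Sum.inl i) =
      (sVar _ ^ φ.lam (Sum.inl q) * RatFunc.C (liftF (vtL S' T' q)
        (φ.w (Sum.inl q) / S'.flat.x (Sum.inl q)))) * RatFunc.C (xx (Sum.inl i)) := by
  rcases h0 with h0 | rfl
  · simp only [FacetData.psi, tsumBFD, if_pos h0]
    rw [map_mul, mul_assoc, mul_comm (RatFunc.C (FlatCell.x _ (Sum.inl i)))]
    rfl
  · have h1 : i ∉ T.E.erase i := by simp
    simp only [FacetData.psi, tsumBFD, if_neg h1]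
    rw [mul_assoc, ← map_mul]
    congr 2
    rw [map_div₀, flat_x, liftF_x]
    have : (vtL S' T' i) (Sum.inl i) = Sum.inl i := rfl
    rw [this, div_mul_cancel₀ _ (xx_ne_zero _)]

/-- values of `tsumBFD`; the value of `T.P K` in the variables of `tsum S' T' q` is obtained through
the identification `e` of the gaps. -/
theorem tsumBFD_P (hV : (Net.tsum S T q).Valid) (hw : φ.w (Sum.inl q) ≠ 0) (J K : Finset ℕ)
    (hJ : J ∈ S.M) (hK : K ∈ T.M) (hq : Xq q J K) :
    (tsumBFD T T' q e φ).P ((J ∪ K).erase q) * RatFunc.C (xx (Sum.inl q)) =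
      mapR (liftF (vtL S' T' q)) (φ.P J) *
      (sVar _ ^ φ.lam (Sum.inl q) * RatFunc.C (liftF (vtL S' T' q)
        (φ.w (Sum.inl q) / S'.flat.x (Sum.inl q)))) ^ (T.rk - 1) *
      RatFunc.C (T.flat.ev (fun v => xx (vtR S' T' q (Sum.map id e.symm v))) K) := by
  have hV' := hV
  obtain ⟨h1, h2, r1, r2, q1, q2, h3, h8⟩ := hV
  have wS := Net.wf' S h1
  have wT := Net.wf' T h2
  have hd := h3
  rw [Finset.disjoint_left] at hd
  have key := tsum_ev hV' (tsumBFD T T' q e φ).psi J K hJ hK hq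
  change (tsumBFD T T' q e φ).P ((J ∪ K).erase q) * _ = _ at key
  have e1 : S.flat.ev (fun v => (tsumBFD T T' q e φ).psi (vtL S T q v)) J =
      mapR (liftF (vtL S' T' q)) (φ.P J) := by
    rw [mapR_P]
    apply ev_congr
    · intro i hi
      have h0 : i ∉ T.E.erase q := by
        intro h
        exact hd (Finset.mem_erase.mpr ⟨(Finset.mem_erase.mp h).1, wS.sub J hJ hi⟩) h
      show (tsumBFD T T' q e φ).psi (Sum.inl i) = _
      simp only [FacetData.psi, tsumBFD, if_neg h0]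
    · intro h
      rfl
  have e2 : T.flat.ev (fun v => (tsumBFD T T' q e φ).psi (vtR S T q v)) K =
      (sVar _ ^ φ.lam (Sum.inl q) * RatFunc.C (liftF (vtL S' T' q)
        (φ.w (Sum.inl q) / S'.flat.x (Sum.inl q)))) ^ T.rk *
      RatFunc.C (T.flat.ev (fun v => xx (vtR S' T' q (Sum.map id e.symm v))) K) := by
    rw [map_ev, ← wT.card K hK]
    apply ev_scale
    · intro i hi
      show (tsumBFD T T' q e φ).psi (Sum.inl i) = _
      rw [tsumBFD_psi_inl_T T T' q e φ i]
      · rfl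
      · by_cases h : i = q
        · exact Or.inr h
        · exact Or.inl (Finset.mem_erase.mpr ⟨h, wT.sub K hK hi⟩)
    · intro h
      show (tsumBFD T T' q e φ).psi (Sum.inr (Sum.inr h)) = _
      simp only [FacetData.psi, tsumBFD, zpow_zero, one_mul]
      rfl
  rw [e1, e2] at key
  have e3 : (tsumBFD T T' q e φ).psi (Sum.inl q) = (sVar _ ^ φ.lam (Sum.inl q) *
      RatFunc.C (liftF (vtL S' T' q) (φ.w (Sum.inl q) / S'.flat.x (Sum.inl q)))) *
      RatFunc.C (xx (Sum.inl q)) := tsumBFD_psi_inl_T T T' q e φ q (Or.inr rfl)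
  rw [e3] at key
  have e4 : sVar _ ^ φ.lam (Sum.inl q) * RatFunc.C (liftF (vtL S' T' q)
      (φ.w (Sum.inl q) / S'.flat.x (Sum.inl q))) ≠ 0 := by
    apply mul_ne_zero (zpow_ne_zero _ s_ne_zero)
    rw [Ne, map_eq_zero, map_eq_zero]
    exact div_ne_zero hw (xx_ne_zero _)
  obtain ⟨n, hn⟩ : ∃ n, T.rk = n + 1 := ⟨T.rk - 1, by omega⟩
  rw [hn] at key ⊢
  rw [Nat.add_sub_cancel, ← mul_right_inj' e4]
  rw [pow_succ] at key
  linear_combination key

end tsumB

section dsumL

variable {S S' : Net} (T : Net) (φ : FacetData S.flat S'.flat)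

theorem dsumLFD_P (hV : (Net.dsum S T).Valid) (J K : Finset ℕ)
    (hJ : J ∈ S.M) (hK : K ∈ T.M) :
    (dsumLFD T φ).P (J ∪ K) = mapR (liftF (vdL S' T)) (φ.P J) *
      RatFunc.C (liftF (vdR S' T) (T.flat.P K)) := by
  have hV' := hV
  obtain ⟨h1, h2, h3⟩ := hV
  have wS := Net.wf' S h1
  have wT := Net.wf' T h2
  have hd := h3
  rw [Finset.disjoint_left] at hd
  have key := dsum_ev hV' (dsumLFD T φ).psi J K hJ hK
  have e1 : S.flat.ev (fun v => (dsumLFD T φ).psi (vdL S T v)) J =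
      mapR (liftF (vdL S' T)) (φ.P J) := by
    rw [mapR_P]
    apply ev_congr
    · intro i hi
      have h0 : i ∉ T.E := hd (wS.sub J hJ hi)
      show (dsumLFD T φ).psi (Sum.inl i) = _
      simp only [FacetData.psi, dsumLFD, if_neg h0]
    · intro h
      rfl
  have e2 : T.flat.ev (fun v => (dsumLFD T φ).psi (vdR S T v)) K =
      RatFunc.C (liftF (vdR S' T) (T.flat.P K)) := by
    rw [mapC_P]
    apply ev_congr
    · intro i hi
      have h0 : i ∈ T.E := wT.sub K hK hi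
      show (dsumLFD T φ).psi (Sum.inl i) = _
      simp only [FacetData.psi, dsumLFD, if_pos h0, zpow_zero, one_mul, liftF_x]
      rfl
    · intro h
      show (dsumLFD T φ).psi (Sum.inr (Sum.inr h)) = _
      simp only [FacetData.psi, dsumLFD, zpow_zero, one_mul, liftF_x]
      rfl
  rw [e1, e2] at key
  exact key

end dsumL

end ABCT
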