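import Pool.Agent.Helper32_ABCT.Twist
import Pool.Agent.Helper32_ABCT.Api4

/-!
# More statements of part II (MP_a17fcb_ag): lattices, matrices
-/

open MvPolynomial

namespace ABCT

open FlatCell

/-- LSUM: elements of the chart lattice have label sum zero (finite sum over the support) and
support in the labels -/
def LsumStmt : Prop :=
  ∀ S : Net, S.Valid → ∀ m ∈ S.flat.Lam,
    (∀ i : ℕ, i ∉ S.E → m (Sum.inl i) = 0) ∧ ∑ i ∈ S.E, m (Sum.inl i) = 0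

/-- LBW -/
def LbwStmt : Prop :=
  ∀ l : Finset ℕ, l.Nonempty →
    (∀ m : (Net.black l).flat.V →₀ ℤ, m ∈ (Net.black l).flat.Lam ↔
      (∀ i : ℕ, i ∉ l → m (Sum.inl i) = 0) ∧ ∑ i ∈ l, m (Sum.inl i) = 0) ∧
    (∀ m : (Net.white l).flat.V →₀ ℤ, m ∈ (Net.white l).flat.Lam ↔
      (∀ i : ℕ, i ∉ l → m (Sum.inl i) = 0) ∧ ∑ i ∈ l, m (Sum.inl i) = 0)

/-- LGEN: `ρ` is the root (last label) -/
def LgenStmt : Prop :=
  ∀ (l : List ℕ) (ρ r : ℕ), (Net.gen (l ++ [ρ]) r).Valid →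
    ∀ m : (Net.gen (l ++ [ρ]) r).flat.V →₀ ℤ, m ∈ (Net.gen (l ++ [ρ]) r).flat.Lam ↔
      (∀ i : ℕ, i ∉ l ++ [ρ] → m (Sum.inl i) = 0) ∧
      ∑ i ∈ (l ++ [ρ]).toFinset, m (Sum.inl i) = 0 ∧
      (∑ h : Fin ((l ++ [ρ]).length - 2), m (Sum.inr h)) + (r - 1 : ℤ) * m (Sum.inl ρ) = 0

/-- LDS -/
def LdsStmt : Prop :=
  ∀ S T : Net, (Net.dsum S T).Valid → ∀ m : (Net.dsum S T).flat.V →₀ ℤ,
    m ∈ (Net.dsum S T).flat.Lam ↔ ∃ a ∈ S.flat.Lam, ∃ b ∈ T.flat.Lam,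
      m = a.mapDomain (vdL S T) + b.mapDomain (vdR S T)

/-- LTS -/
def LtsStmt : Prop :=
  ∀ (S T : Net) (q : ℕ), (Net.tsum S T q).Valid → ∀ m : (Net.tsum S T q).flat.V →₀ ℤ,
    m ∈ (Net.tsum S T q).flat.Lam ↔ ∃ a ∈ S.flat.Lam, ∃ b ∈ T.flat.Lam,
      a (Sum.inl q) + b (Sum.inl q) = 0 ∧ m = a.mapDomain (vtL S T q) + b.mapDomain (vtR S T q)

/-- VMAT: nonzero real points of the closure are vectors of maximal minors; columns in the order of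
the list -/
def MatStmt : Prop :=
  ∀ (l : List ℕ) (r : ℕ), l.Nodup → ∀ z ∈ XV l r, z ≠ 0 →
    ∃ (γ : ℝ) (M : ℕ → Fin r → ℝ), ∀ p : Fin r → ℕ, StrictMono p → (∀ i, p i < l.length) →
      z (Finset.univ.image fun i => l.getD (p i) 0) =
        γ * (Matrix.of fun i j : Fin r => M (l.getD (p j) 0) i).det

end ABCT
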