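import Pool.Agent.Helper32_ABCT.Stmts

/-!
# Twists and the uniqueness statement (E) (MP_a17fcb_ag)
-/

open MvPolynomial

namespace ABCT

open FlatCell

/-- the order at `s = 0` is at least `n` -/
def OrdGe {K : Type*} [Field K] (f : RatFunc K) (n : ℤ) : Prop :=
  ∃ A B : Polynomial K, B.coeff 0 ≠ 0 ∧
    f = sVar K ^ n * (algebraMap (Polynomial K) (RatFunc K) A /
      algebraMap (Polynomial K) (RatFunc K) B)

/-- A twist of `S`: a cell `T` with the same coordinates up to signs, after an invertible linear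
substitution of the gap variables: `L h` is the gap `h` of `T` in terms of the gaps of `S`,
`L' h` the gap `h` of `S` in terms of the gaps of `T`. -/
structure Twist (S T : FlatCell) where
  ε : Finset ℕ → ℤ
  L : T.G → MvPolynomial S.G ℤ
  L' : S.G → MvPolynomial T.G ℤ

/-- validity of a twist -/
structure Twist.Ok {S T : FlatCell} (τ : Twist S T) : Prop where
  meq : T.M = S.M
  sgn : ∀ I, τ.ε I = 1 ∨ τ.ε I = -1
  lin : ∀ h, (τ.L h).IsHomogeneous 1
  lin' : ∀ h, (τ.L' h).IsHomogeneous 1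
  inv : ∀ h, aeval τ.L (τ.L' h) = X h
  inv' : ∀ h, aeval τ.L' (τ.L h) = X h
  eq : ∀ I, aeval τ.L (MvPolynomial.map (Nat.castRingHom ℤ) (T.Δ I)) =
    C (τ.ε I) * MvPolynomial.map (Nat.castRingHom ℤ) (S.Δ I)
  fin : Finite S.G
  fin' : Finite T.G
  blk : ∃ (b : S.G → ℕ) (b' : T.G → ℕ),
    (∀ h k, b h = b k → Finsupp.single (Sum.inr h) 1 - Finsupp.single (Sum.inr k) 1 ∈ S.Lam) ∧
    (∀ h k, b' h = b' k → Finsupp.single (Sum.inr h) 1 - Finsupp.single (Sum.inr k) 1 ∈ T.Lam) ∧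
    (∀ k, ∀ h ∈ (τ.L k).vars, b h = b' k) ∧ (∀ h, ∀ k ∈ (τ.L' h).vars, b' k = b h)

/-- the value under `ψ` of the gap `h` of `S`, for facet data of the twist `T` -/
noncomputable def Twist.gap {S T T' : FlatCell} (τ : Twist S T) (φ : FacetData T T') (h : S.G) :
    RatFunc T'.F :=
  aeval (fun k : T.G => φ.psi (Sum.inr k)) (τ.L' h)

/-- the function `f g` at a facet `T'` of the twist `T`: `f = N(ε P) / ∏ P ^ n` and
`g = ∏ (gaps of T) / ∏ (gaps of S)`. -/
noncomputable def Twist.fg {S T T' : FlatCell} (τ : Twist S T) (φ : FacetData T T') (n : ℕ)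
    (N : MvPolynomial (Finset ℕ) ℂ) : RatFunc T'.F :=
  aeval (fun I => ((τ.ε I : ℤ) : RatFunc T'.F) * φ.P I) N / (∏ I ∈ S.M, φ.P I ^ n) *
    ((∏ᶠ k : T.G, φ.psi (Sum.inr k)) / (∏ᶠ h : S.G, τ.gap φ h))

/-- (E): uniqueness of the canonical form -/
def Net.HasE (S : Net) : Prop :=
  ∀ (n : ℕ) (N : MvPolynomial (Finset ℕ) ℂ), N.IsHomogeneous (n * S.M.card) →
    (∀ (T : Net) (τ : Twist S.flat T.flat), T.Valid → τ.Ok → ∀ T' : Net, Net.Facet T T' →
      ∀ φ : FacetData T.flat T'.flat, φ.Ok → OrdGe (τ.fg φ n N) 1) →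
    aeval S.flat.P N = 0

/-- EALL -/
def EallStmt : Prop := ∀ S : Net, S.Valid → 1 ≤ S.rk → 2 ≤ S.M.card → S.HasE

/-- (not true for all nets; kept only for compatibility) -/
def FlatCell.HasT (S : FlatCell) : Prop :=
  Finite S.G ∧ ∀ h : S.G, ∃ n : ℤ, n ≠ 0 ∧ ∃ m ∈ S.Lam, m (Sum.inr h) = n ∧
    ∀ k : S.G, k ≠ h → m (Sum.inr k) = 0

end ABCT
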