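import Pool.Agent.Helper32_ABCT.AllII
import Pool.Agent.Helper3_ABCT.Ader
import Pool.Agent.Helper85_ABCT.Advr
import Pool.Agent.Helper18_ABCT.Aloc
import Pool.Agent.Helper85_ABCT.Areg
import Pool.Agent.Helper18_ABCT.Ares
import Pool.Agent.Helper3_ABCT.Aresu
import Pool.Agent.Helper81_ABCT.Cfld
import Pool.Agent.Helper18_ABCT.Cfrm
import Pool.Agent.Helper26_ABCT.Cpos
import Pool.Agent.Helper38_ABCT.Dim
import Pool.Agent.Helper18_ABCT.Fder
import Pool.Agent.Helper18_ABCT.Fone
import Pool.Agent.Helper51_ABCT.Frmg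
import Pool.Agent.Helper38_ABCT.Ftwi
import Pool.Agent.Helper53_ABCT.Funi
import Pool.Agent.Helper51_ABCT.Jacf
import Pool.Agent.Helper3_ABCT.Nada
import Pool.Agent.Helper85_ABCT.Ndl
import Pool.Agent.Helper18_ABCT.Nfrm
import Pool.Agent.Helper26_ABCT.Nlim
import Pool.Agent.Helper26_ABCT.Nval
import Pool.Agent.Helper54_ABCT.Oind
import Pool.Agent.Helper54_ABCT.Oloc
import Pool.Agent.Helper14_ABCT.Orient
import Pool.Agent.Helper82_ABCT.Pole
import Pool.Agent.Helper14_ABCT.Rbd
import Pool.Agent.Helper14_ABCT.Rint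
import Pool.Agent.Helper85_ABCT.Rsem
import Pool.Agent.Helper44_ABCT.Sgen
import Pool.Agent.Helper85_ABCT.Spec
import Pool.Agent.Helper44_ABCT.Sreal
import Pool.Agent.Helper82_ABCT.Tcen
import Pool.Agent.Helper31_ABCT.KCLO
import Pool.Agent.Helper53_ABCT.Kdim
import Pool.Agent.Helper60_ABCT.KGen
import Pool.Agent.Helper81_ABCT.Klat
import Pool.Agent.Helper60_ABCT.KLau
import Pool.Agent.Helper1_ABCT.Kmon
import Pool.Agent.Helper81_ABCT.Knrm
import Pool.Agent.Helper3_ABCT.Kpos
import Pool.Agent.Helper18_ABCT.Kprp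
import Pool.Agent.Helper91_ABCT.Kpsi
import Pool.Agent.Helper84_ABCT.Kreg
import Pool.Agent.Helper9_ABCT.Kres
import Pool.Agent.Helper3_ABCT.Uder
import Pool.Agent.Helper58_ABCT.Udiv
import Pool.Agent.Helper14_ABCT.Ufor
import Pool.Agent.Helper33_ABCT.Uhvr
import Pool.Agent.Helper84_ABCT.Ujac
import Pool.Agent.Helper66_ABCT.Ulin
import Pool.Agent.Helper82_ABCT.Uord
import Pool.Agent.Helper58_ABCT.Ureg
import Pool.Agent.Helper31_ABCT.UTRA
import Pool.Agent.Helper70_ABCT.Utrd
import Pool.Agent.Helper53_ABCT.Utwi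
import Pool.Agent.Helper9_ABCT.Wdim
import Pool.Agent.Helper1_ABCT.Wsem
import Pool.Agent.Helper64_ABCT.Wvar
import Pool.Agent.Helper66_ABCT.Wver
import Pool.Agent.Helper93_ABCT.Main
import Pool.Agent.Helper93_ABCT.Fam
import Pool.Agent.Helper93_ABCT.Uall

/-!
# Parts I, K, U, W of the ABCT project (MP_a17fcb_ag)
-/

namespace PosGeom.AllI

open PosGeom ABCT

theorem spec : SpecStmt := H85.spec
theorem sgen : SgenStmt := H44.sgen spec
theorem sreal : SrealStmt := H44.sreal spec
theorem cfld : CfldStmt := H81.cfld sgen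
theorem cpos : CposStmt := H26.cpos cfld
theorem frmg : FrmgStmt := H51.frmg spec
theorem cfrm : CfrmStmt := PosGeom.H18.cfrm spec sgen sreal cfld frmg
theorem nlim : NlimStmt := H26.nlim cpos
theorem nval : NvalStmt := H26.nval cfld sgen sreal cpos cfrm
theorem nada : NadaStmt := H3.nada sgen cfld
theorem fder : FderStmt := PosGeom.H18.fder
theorem fone : FoneStmt := PosGeom.H18.fone
theorem ader : AderStmt := H3.ader spec sgen
theorem advr : AdvrStmt := H85.advr
theorem aloc : AlocStmt := PosGeom.H18.aloc fone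
theorem areg : AregStmt := H85.areg ader fder fone
theorem ares : AresStmt := PosGeom.H18.ares spec sgen advr
theorem aresu : AresuStmt := H3.aresu fder fone spec sgen advr ader
theorem jacf : JacfStmt := H51.jacf spec sreal fone
theorem nfrm : NfrmStmt := PosGeom.H18.nfrm spec sgen sreal cfld frmg nada nval
theorem ndl : NdlStmt := H85.ndl PosGeom.H53.funi H38.ftwi
theorem osgn : OsgnStmt := H14.osgn cfld sreal cfrm
theorem ostd : OstdStmt := H14.ostd spec cfld sreal jacf cfrm fder fone
theorem oloc : OlocStmt := H54.oloc spec sgen sreal cfld cfrm nval nada fder fone ader jacf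
theorem oind : OindStmt := H54.oind sreal nval nada ndl cfrm nfrm nlim osgn oloc
theorem pole : PoleStmt := H82.pole PosGeom.H53.funi
theorem rint : RintStmt := H14.rint cpos nlim
theorem dim : DimStmt := H38.dim spec sgen
theorem rbd : RbdStmt := H14.rbd rint cpos cfld dim
theorem rsem : RsemStmt := H85.rsem
theorem tcen : TcenStmt := H82.tcen spec sgen cfld

theorem main : MainStmt :=
  H93.main sreal spec sgen cfld rint rbd cfrm fder fone advr nada ndl ostd osgn oind ares aresu
    areg pole tcen dim rsem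

theorem klau : KlauStmt := ABCT.H60.klau
theorem kmon : KmonStmt := H1.kmon
theorem kclo : KcloStmt := H31.kclo klau
theorem kgen : KgenStmt := ABCT.H60.kgen kmon
theorem kpos : KposStmt := H3.kpos
theorem klat : KlatStmt := H81.klat
theorem kprp : KprpStmt := PosGeom.H18.kprp kmon
theorem kpsi : KpsiStmt := H91.kpsi kmon klau kpos klat
theorem kreg : KregStmt := H84.kreg kprp
theorem kfac : KfacStmt := H93.kfac kpsi H9.kres kreg kprp
theorem kfam : KfamStmt :=
  H93.kfam H81.knrm kprp kclo ABCT.H53.kdim kfac AllII.wf AllII.gall AllII.facet AllII.call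
    AllII.ball

theorem uder : UderStmt := H3.uder
theorem udiv : UdivStmt := H58.udiv Helper70ABCT.utrd H33.uhvr cfld sgen
theorem ureg : UregStmt := H58.ureg udiv aloc fder cfld sgen
theorem utra : UtraStmt := H31.utra sgen spec
theorem utwi : UtwiStmt := ABCT.H53.utwi kgen
theorem ujac : UjacStmt :=
  H84.ujac kprp kgen klau sgen cfld fder fone utwi uder PosGeom.H66.ulin
theorem uord : UordStmt := H82.uord sgen kgen kprp utwi
theorem uall : UallStmt :=
  H93.uall ureg utra utwi ujac uord H14.ufor H81.knrm kprp kgen ABCT.H53.kdim kfac nada advr areg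
    ndl cfld sgen spec AllII.wf AllII.gall AllII.facet AllII.eallS

theorem wdim : WdimStmt := H9.wdim AllII.lgen
theorem wsem : WsemStmt := H1.wsem
theorem wvar : WvarStmt :=
  H64.wvar PosGeom.H66.wver kgen kclo AllII.zvtx AllII.nS AllII.closedS AllII.wf AllII.ggen

end PosGeom.AllI
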