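import Pool.Agent.Helper32_ABCT.EStmts

/-!
# CTXD, NFIN, TOR, EALL (MP_a17fcb_ag)
-/

open MvPolynomial

namespace ABCT

theorem ctxD : CtxDStmt := by
  intro S
  induction S with
  | black l => exact Or.inl trivial
  | white l => exact Or.inl trivial
  | gen l r => exact Or.inr ⟨Ctx.hole, l, r, rfl⟩
  | dsum S T hS hT =>
    rcases hS with hS | ⟨C, l, r, rfl⟩
    · rcases hT with hT | ⟨C, l, r, rfl⟩
      · exact Or.inl ⟨hS, hT⟩
      · exact Or.inr ⟨Ctx.dsumR S C, l, r, rfl⟩
    · exact Or.inr ⟨Ctx.dsumL C T, l, r, rfl⟩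
  | tsum S T q hS hT =>
    rcases hS with hS | ⟨C, l, r, rfl⟩
    · rcases hT with hT | ⟨C, l, r, rfl⟩
      · exact Or.inl ⟨hS, hT⟩
      · exact Or.inr ⟨Ctx.tsumR S C q, l, r, rfl⟩
    · exact Or.inr ⟨Ctx.tsumL C T q, l, r, rfl⟩

theorem nfin : NfinStmt := by
  intro S
  induction S with
  | black l => exact (inferInstance : Finite Empty)
  | white l => exact (inferInstance : Finite Empty)
  | gen l r => exact (inferInstance : Finite (Fin (l.length - 2)))
  | dsum S T hS hT => exact (@Finite.instSum S.G T.G hS hT)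
  | tsum S T q hS hT => exact (@Finite.instSum S.G T.G hS hT)

theorem tor : TorStmt := by
  constructor
  · intro S
    induction S with
    | black l =>
      intro _ _ I hI
      rw [Net.Δ, if_pos hI]
    | white l =>
      intro _ _ I hI
      rw [Net.Δ, if_pos hI]
    | gen l r => intro _ h; exact h.elim
    | dsum S T hS hT =>
      intro hV hTor I hI
      obtain ⟨h1, h2, h3⟩ := hV
      have wS := Net.wf' S h1
      have wT := Net.wf' T h2
      obtain ⟨a, b, c⟩ := (dsum_mem_iff S T wS.sub wT.sub h3 I).mp hI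
      rw [Net.Δ, if_pos a, hS h1 hTor.1 _ b, hT h2 hTor.2 _ c, map_one, map_one, mul_one]
    | tsum S T q hS hT =>
      intro hV hTor I hI
      obtain ⟨h1, h2, h3, h4, h5, h6, h7, h8⟩ := hV
      have wS := Net.wf' S h1
      have wT := Net.wf' T h2
      obtain ⟨a, b⟩ := (tsum_mem_iff S T q wS.sub wT.sub h7 I).mp hI
      rw [Net.Δ, if_pos a]
      rcases b with ⟨b1, b2⟩ | ⟨b1, b2⟩
      · have e : S.Δ (insert q (I ∩ S.E.erase q)) = 0 := by
          by_contra h
          have h' := wS.card _ ((wS.ne _).mp h)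
          rw [Finset.card_insert_of_notMem (by simp), wS.card _ b1] at h'
          omega
        rw [hS h1 hTor.1 _ b1, hT h2 hTor.2 _ b2, e, map_one, map_one, map_zero, zero_mul,
          add_zero, mul_one]
      · have e : S.Δ (I ∩ S.E.erase q) = 0 := by
          by_contra h
          have h' := wS.card _ ((wS.ne _).mp h)
          have h'' := wS.card _ b1
          rw [Finset.card_insert_of_notMem (by simp)] at h''
          omega
        rw [hS h1 hTor.1 _ b1, hT h2 hTor.2 _ b2, e, map_one, map_one, map_zero, zero_mul,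
          zero_add, mul_one]
  · intro S S' hS hF
    induction hF with
    | black l x hx hl => exact ⟨trivial, trivial⟩
    | white l x hx hl => exact ⟨trivial, trivial⟩
    | gen => exact hS.elim
    | dsumL S T S' h ih => exact ⟨ih hS.1, hS.2⟩
    | dsumR S T T' h ih => exact ⟨hS.1, ih hS.2⟩
    | tsumL S T S' q hq h ih => exact ⟨ih hS.1, hS.2⟩
    | tsumR S T T' q hq h ih => exact ⟨hS.1, ih hS.2⟩
    | tsumB S T S' T' q hS' hT' hq h h' ih ih' => exact ⟨ih hS.1, ih' hS.2⟩

theorem eall (h1 : EtorStmt) (h2 : EgenStmt) : EallStmt := by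
  intro S hV hk hM
  rcases ctxD S with h | ⟨C, l, r, rfl⟩
  · exact h1 S hV h hk hM
  · exact h2 C l r hV

end ABCT
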