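import Pool.Agent.Helper32_ABCT.EStmts

/-!
# CTXJ: coordinates of a net in context (MP_a17fcb_ag, part E)

The proof is by helper65; this version also gives the surjectivity clause.
-/

open MvPolynomial

namespace ABCT.H32J

open FlatCell ABCT

/-- first part of a basis of `tsum` -/
def pS (A : Finset ℕ) (M : Finset (Finset ℕ)) (q : ℕ) (I : Finset ℕ) : Finset ℕ :=
  if I ∩ A ∈ M then I ∩ A else insert q (I ∩ A)

/-- second part of a basis of `tsum` -/
def pT (A B : Finset ℕ) (M : Finset (Finset ℕ)) (q : ℕ) (I : Finset ℕ) : Finset ℕ :=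
  if I ∩ A ∈ M then insert q (I ∩ B) else I ∩ B

theorem tsum_parts {S T : Net} {q : ℕ} (hV : (Net.tsum S T q).Valid) {I : Finset ℕ}
    (hI : I ∈ (Net.tsum S T q).M) :
    pS (S.E.erase q) S.M q I ∈ S.M ∧ pT (S.E.erase q) (T.E.erase q) S.M q I ∈ T.M ∧
    (Net.tsum S T q).Δ I = rename Sum.inl (S.Δ (pS (S.E.erase q) S.M q I)) *
      rename Sum.inr (T.Δ (pT (S.E.erase q) (T.E.erase q) S.M q I)) ∧
    I ∩ S.E.erase q = (pS (S.E.erase q) S.M q I).erase q ∧
    I ∩ T.E.erase q = (pT (S.E.erase q) (T.E.erase q) S.M q I).erase q ∧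
    Xq q (pS (S.E.erase q) S.M q I) (pT (S.E.erase q) (T.E.erase q) S.M q I) ∧
    q ∉ I := by
  obtain ⟨J, hJ, K, hK, hq, rfl⟩ := (tsum_M I).mp hI
  obtain ⟨h1, h2, r1, r2, q1, q2, h3, h8⟩ := hV
  have wS := Net.wf' S h1
  have wT := Net.wf' T h2
  obtain ⟨e1, e2⟩ := tsum_split (q := q) (wS.sub J hJ) (wT.sub K hK) h3
  have e3 : (J ∪ K).erase q ⊆ S.E.erase q ∪ T.E.erase q := by
    rw [← Finset.erase_union_distrib]
    exact Finset.erase_subset_erase _ (Finset.union_subset_union (wS.sub J hJ) (wT.sub K hK))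
  rcases hq with ⟨hqJ, hqK⟩ | ⟨hqJ, hqK⟩
  · have n1 : J.erase q ∉ S.M := by
      intro h
      have := wS.card _ h
      rw [Finset.card_erase_of_mem hqJ, wS.card J hJ] at this
      omega
    have e0 : S.Δ (J.erase q) = 0 := by
      by_contra h
      exact n1 ((wS.ne _).mp h)
    have p1 : pS (S.E.erase q) S.M q ((J ∪ K).erase q) = J := by
      rw [pS, e1, if_neg n1, Finset.insert_erase hqJ]
    have p2 : pT (S.E.erase q) (T.E.erase q) S.M q ((J ∪ K).erase q) = K := by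
      rw [pT, e1, if_neg n1, e2, Finset.erase_eq_of_notMem hqK]
    rw [p1, p2]
    refine ⟨hJ, hK, ?_, e1, e2, Or.inl ⟨hqJ, hqK⟩, by simp⟩
    rw [Net.Δ, if_pos e3, e1, e2, e0, map_zero, zero_mul, zero_add, Finset.insert_erase hqJ,
      Finset.erase_eq_of_notMem hqK]
  · have n1 : K.erase q ∉ T.M := by
      intro h
      have := wT.card _ h
      rw [Finset.card_erase_of_mem hqK, wT.card K hK] at this
      omega
    have e0 : T.Δ (K.erase q) = 0 := by
      by_contra h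
      exact n1 ((wT.ne _).mp h)
    have n2 : J.erase q ∈ S.M := by
      rw [Finset.erase_eq_of_notMem hqJ]
      exact hJ
    have p1 : pS (S.E.erase q) S.M q ((J ∪ K).erase q) = J := by
      rw [pS, e1, if_pos n2, Finset.erase_eq_of_notMem hqJ]
    have p2 : pT (S.E.erase q) (T.E.erase q) S.M q ((J ∪ K).erase q) = K := by
      rw [pT, e1, if_pos n2, e2, Finset.insert_erase hqK]
    rw [p1, p2]
    refine ⟨hJ, hK, ?_, e1, e2, Or.inr ⟨hqJ, hqK⟩, by simp⟩
    rw [Net.Δ, if_pos e3, e1, e2, e0, map_zero, mul_zero, add_zero, Finset.insert_erase hqK,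
      Finset.erase_eq_of_notMem hqJ]

theorem dsum_parts {S T : Net} (hV : (Net.dsum S T).Valid) {I : Finset ℕ}
    (hI : I ∈ (Net.dsum S T).M) :
    I ∩ S.E ∈ S.M ∧ I ∩ T.E ∈ T.M ∧
    (Net.dsum S T).Δ I = rename Sum.inl (S.Δ (I ∩ S.E)) * rename Sum.inr (T.Δ (I ∩ T.E)) := by
  obtain ⟨h1, h2, h3⟩ := hV
  have wS := Net.wf' S h1
  have wT := Net.wf' T h2
  obtain ⟨a, b, c⟩ := (dsum_mem_iff S T wS.sub wT.sub h3 I).mp hI
  exact ⟨b, c, by rw [Net.Δ, if_pos a]⟩

/-- rank is determined by the bases -/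
theorem rk_eq {N N' : Net} (h : N.Valid) (h' : N'.Valid) (hM : N.M = N'.M) : N.rk = N'.rk := by
  have w := Net.wf' N h
  have w' := Net.wf' N' h'
  obtain ⟨I, hI⟩ := w.nonempty
  rw [← w.card I hI, ← w'.card I (hM ▸ hI)]

/-- blocks are in the label set -/
theorem blk_sub : ∀ (C : Ctx) (N : Net) (x : ℕ), x ∈ N.E → C.blk x ⊆ (C.app N).E
  | .hole, N, x, hx => by
      show ({x} : Finset ℕ) ⊆ N.E
      simpa using hx
  | .dsumL C T, N, x, hx => (blk_sub C N x hx).trans Finset.subset_union_left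
  | .dsumR T C, N, x, hx => (blk_sub C N x hx).trans Finset.subset_union_right
  | .tsumL C T q, N, x, hx => by
      have h := blk_sub C N x hx
      show (if q ∈ C.blk x then (C.blk x).erase q ∪ T.E.erase q else C.blk x) ⊆
        (C.app N).E.erase q ∪ T.E.erase q
      split_ifs with hq
      · exact Finset.union_subset_union (Finset.erase_subset_erase _ h) (Finset.Subset.refl _)
      · intro y hy
        refine Finset.mem_union_left _ (Finset.mem_erase.mpr ⟨?_, h hy⟩)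
        rintro rfl
        exact hq hy
  | .tsumR T C q, N, x, hx => by
      have h := blk_sub C N x hx
      show (if q ∈ C.blk x then (C.blk x).erase q ∪ T.E.erase q else C.blk x) ⊆
        T.E.erase q ∪ (C.app N).E.erase q
      split_ifs with hq
      · rw [Finset.union_comm]
        exact Finset.union_subset_union (Finset.Subset.refl _) (Finset.erase_subset_erase _ h)
      · intro y hy
        refine Finset.mem_union_right _ (Finset.mem_erase.mpr ⟨?_, h hy⟩)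
        rintro rfl
        exact hq hy

/-- count in the block, `q` not in the block -/
theorem count1 {I A B J : Finset ℕ} {q : ℕ} (h : I ∩ A.erase q = J.erase q) (hB : B ⊆ A)
    (hq : q ∉ B) : (I ∩ B).card = (J ∩ B).card := by
  congr 1
  ext y
  simp only [Finset.mem_inter]
  constructor
  · rintro ⟨h1, h2⟩
    have hne : y ≠ q := by
      rintro rfl
      exact hq h2
    have : y ∈ I ∩ A.erase q := Finset.mem_inter.mpr ⟨h1, Finset.mem_erase.mpr ⟨hne, hB h2⟩⟩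
    rw [h] at this
    exact ⟨(Finset.mem_erase.mp this).2, h2⟩
  · rintro ⟨h1, h2⟩
    have hne : y ≠ q := by
      rintro rfl
      exact hq h2
    have : y ∈ J.erase q := Finset.mem_erase.mpr ⟨hne, h1⟩
    rw [← h] at this
    exact ⟨(Finset.mem_inter.mp this).1, h2⟩

/-- count in the block, `q` in the block -/
theorem count2 {I A B D J K : Finset ℕ} {q : ℕ} (h : I ∩ A.erase q = J.erase q)
    (h' : I ∩ D.erase q = K.erase q) (hd : Disjoint (A.erase q) (D.erase q)) (hB : B ⊆ A)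
    (hq : q ∈ B) (hx : Xq q J K) :
    (I ∩ (B.erase q ∪ D.erase q)).card + 1 = (J ∩ B).card + K.card := by
  have hdis : Disjoint (I ∩ B.erase q) (I ∩ D.erase q) :=
    Finset.disjoint_of_subset_left (Finset.inter_subset_right.trans
      (Finset.erase_subset_erase _ hB)) (Finset.disjoint_of_subset_right
        Finset.inter_subset_right hd)
  rw [Finset.inter_union_distrib_left, Finset.card_union_of_disjoint hdis, h']
  have e1 : I ∩ B.erase q = (J ∩ B).erase q := by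
    ext y
    simp only [Finset.mem_inter, Finset.mem_erase]
    constructor
    · rintro ⟨h1, h2, h3⟩
      have : y ∈ I ∩ A.erase q := Finset.mem_inter.mpr ⟨h1, Finset.mem_erase.mpr ⟨h2, hB h3⟩⟩
      rw [h] at this
      exact ⟨h2, (Finset.mem_erase.mp this).2, h3⟩
    · rintro ⟨h1, h2, h3⟩
      have : y ∈ J.erase q := Finset.mem_erase.mpr ⟨h1, h2⟩
      rw [← h] at this
      exact ⟨(Finset.mem_inter.mp this).1, h1, h3⟩
  rw [e1]
  rcases hx with ⟨h1, h2⟩ | ⟨h1, h2⟩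
  · have h3 : q ∈ J ∩ B := Finset.mem_inter.mpr ⟨h1, hq⟩
    rw [Finset.card_erase_of_mem h3, Finset.erase_eq_of_notMem h2]
    have : 0 < (J ∩ B).card := Finset.card_pos.mpr ⟨q, h3⟩
    omega
  · have h3 : q ∉ J ∩ B := fun h => h1 (Finset.mem_inter.mp h).1
    rw [Finset.card_erase_of_mem h2, Finset.erase_eq_of_notMem h3]
    have : 0 < K.card := Finset.card_pos.mpr ⟨q, h2⟩
    omega

/-- the parts of a basis given by a pair -/
theorem tsum_back {S T : Net} {q : ℕ} (hV : (Net.tsum S T q).Valid) {J K : Finset ℕ}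
    (hJ : J ∈ S.M) (hK : K ∈ T.M) (hq : Xq q J K) :
    (J ∪ K).erase q ∈ (Net.tsum S T q).M ∧
    pS (S.E.erase q) S.M q ((J ∪ K).erase q) = J ∧
    pT (S.E.erase q) (T.E.erase q) S.M q ((J ∪ K).erase q) = K := by
  refine ⟨(tsum_M _).mpr ⟨J, hJ, K, hK, hq, rfl⟩, ?_⟩
  obtain ⟨h1, h2, r1, r2, q1, q2, h3, h8⟩ := hV
  have wS := Net.wf' S h1
  have wT := Net.wf' T h2
  obtain ⟨e1, e2⟩ := tsum_split (q := q) (wS.sub J hJ) (wT.sub K hK) h3
  rcases hq with ⟨hqJ, hqK⟩ | ⟨hqJ, hqK⟩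
  · have n1 : J.erase q ∉ S.M := by
      intro h
      have := wS.card _ h
      rw [Finset.card_erase_of_mem hqJ, wS.card J hJ] at this
      omega
    have p1 : pS (S.E.erase q) S.M q ((J ∪ K).erase q) = J := by
      rw [pS, e1, if_neg n1, Finset.insert_erase hqJ]
    have p2 : pT (S.E.erase q) (T.E.erase q) S.M q ((J ∪ K).erase q) = K := by
      rw [pT, e1, if_neg n1, e2, Finset.erase_eq_of_notMem hqK]
    exact ⟨p1, p2⟩
  · have n2 : J.erase q ∈ S.M := by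
      rw [Finset.erase_eq_of_notMem hqJ]
      exact hJ
    have p1 : pS (S.E.erase q) S.M q ((J ∪ K).erase q) = J := by
      rw [pS, e1, if_pos n2, Finset.erase_eq_of_notMem hqJ]
    have p2 : pT (S.E.erase q) (T.E.erase q) S.M q ((J ∪ K).erase q) = K := by
      rw [pT, e1, if_pos n2, e2, Finset.insert_erase hqK]
    exact ⟨p1, p2⟩

/-- every basis of the first part has a partner -/
theorem partnerL {S T : Net} {q : ℕ} (hV : (Net.tsum S T q).Valid) {J : Finset ℕ}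
    (hJ : J ∈ S.M) : ∃ K ∈ T.M, Xq q J K := by
  obtain ⟨h1, h2, r1, r2, q1, q2, h3, h8⟩ := hV
  obtain ⟨K₀, hK₀⟩ := (Net.wf' T h2).nonempty
  rcases h8 with ⟨-, ⟨K1, hK1, m1⟩, ⟨K2, hK2, m2⟩⟩ | ⟨h, h'⟩ | ⟨h, h'⟩
  · by_cases hq : q ∈ J
    · exact ⟨K2, hK2, Or.inl ⟨hq, m2⟩⟩
    · exact ⟨K1, hK1, Or.inr ⟨hq, m1⟩⟩
  · exact ⟨K₀, hK₀, Or.inr ⟨h J hJ, h' K₀ hK₀⟩⟩
  · exact ⟨K₀, hK₀, Or.inl ⟨h J hJ, h' K₀ hK₀⟩⟩

/-- every basis of the second part has a partner -/
theorem partnerR {S T : Net} {q : ℕ} (hV : (Net.tsum S T q).Valid) {K : Finset ℕ}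
    (hK : K ∈ T.M) : ∃ J ∈ S.M, Xq q J K := by
  obtain ⟨h1, h2, r1, r2, q1, q2, h3, h8⟩ := hV
  obtain ⟨J₀, hJ₀⟩ := (Net.wf' S h1).nonempty
  rcases h8 with ⟨⟨⟨J1, hJ1, m1⟩, ⟨J2, hJ2, m2⟩⟩, -⟩ | ⟨h, h'⟩ | ⟨h, h'⟩
  · by_cases hq : q ∈ K
    · exact ⟨J2, hJ2, Or.inr ⟨m2, hq⟩⟩
    · exact ⟨J1, hJ1, Or.inl ⟨m1, hq⟩⟩
  · exact ⟨J₀, hJ₀, Or.inr ⟨h J₀ hJ₀, h' K hK⟩⟩
  · exact ⟨J₀, hJ₀, Or.inl ⟨h J₀ hJ₀, h' K hK⟩⟩

/-- the parts of a basis of `dsum` given by a pair -/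
theorem dsum_back {S T : Net} (hV : (Net.dsum S T).Valid) {J K : Finset ℕ}
    (hJ : J ∈ S.M) (hK : K ∈ T.M) :
    J ∪ K ∈ (Net.dsum S T).M ∧ (J ∪ K) ∩ S.E = J ∧ (J ∪ K) ∩ T.E = K := by
  obtain ⟨h1, h2, h3⟩ := hV
  have wS := Net.wf' S h1
  have wT := Net.wf' T h2
  have e1 : (J ∪ K) ∩ S.E = J := by
    rw [Finset.union_inter_distrib_right, Finset.inter_eq_left.mpr (wS.sub J hJ),
      Finset.disjoint_iff_inter_eq_empty.mp
        (Finset.disjoint_of_subset_left (wT.sub K hK) h3.symm), Finset.union_empty]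
  have e2 : (J ∪ K) ∩ T.E = K := by
    rw [Finset.union_inter_distrib_right, Finset.inter_eq_left.mpr (wT.sub K hK),
      Finset.disjoint_iff_inter_eq_empty.mp
        (Finset.disjoint_of_subset_left (wS.sub J hJ) h3), Finset.empty_union]
  refine ⟨(dsum_mem_iff S T wS.sub wT.sub h3 _).mpr ⟨Finset.union_subset_union (wS.sub J hJ)
    (wT.sub K hK), ?_, ?_⟩, e1, e2⟩
  · rw [e1]; exact hJ
  · rw [e2]; exact hK

/-- CTXJ -/
theorem ctxJ (hM : CtxMStmt) : CtxJStmt := by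
  intro C
  induction C with
  | hole =>
    intro E₀ M₀
    refine ⟨fun I => I, fun _ => 1, fun _ => 0, ?_⟩
    intro N hE hNM hV
    refine ⟨?_, fun J₀ hJ₀ => ⟨J₀, by rw [← hNM] at hJ₀; exact hJ₀, rfl⟩⟩
    intro I hI
    refine ⟨hI, one_ne_zero, ?_, ?_⟩
    · rw [map_one, mul_one]
      exact (rename_id_apply (N.Δ I)).symm
    · intro x hx
      show (I ∩ {x}).card = _
      by_cases h : x ∈ I
      · rw [Finset.inter_singleton_of_mem h, if_pos h]
        simp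
      · rw [Finset.inter_singleton_of_notMem h, if_neg h]
        simp
  | dsumL C T ih =>
    intro E₀ M₀
    obtain ⟨J₀, Rp₀, k₀, h₀⟩ := ih E₀ M₀
    by_cases hex : ∃ N₀ : Net, N₀.E = E₀ ∧ N₀.M = M₀ ∧ ((Ctx.dsumL C T).app N₀).Valid
    · obtain ⟨N₀, hE₀, hM₀, hV₀⟩ := hex
      refine ⟨fun I => J₀ (I ∩ (C.app N₀).E), fun I => rename Sum.inl (Rp₀ (I ∩ (C.app N₀).E)) *
        rename Sum.inr (T.Δ (I ∩ T.E)), k₀, ?_⟩
      intro N hE hNM hV
      have hVa : (Net.dsum (C.app N) T).Valid := hV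
      have hV₀a : (Net.dsum (C.app N₀) T).Valid := hV₀
      have vN' := (hM C N N rfl rfl).2.2.2.2 hVa.1
      have vN₀' := (hM C N₀ N₀ rfl rfl).2.2.2.2 hV₀a.1
      have hrk' : N₀.rk = N.rk := rk_eq vN₀' vN' (hM₀.trans hNM.symm)
      have hcm' := hM C N₀ N (hE₀.trans hE.symm) hrk'
      have hEE' : (C.app N₀).E = (C.app N).E := hcm'.1
      have hMM' : (C.app N₀).M = (C.app N).M := hcm'.2.2.1 (hM₀.trans hNM.symm)
      refine ⟨?_, fun J₁ hJ₁ => ?_⟩
      swap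
      · obtain ⟨I₁, hI₁, hJI⟩ := (h₀ N hE hNM hVa.1).2 J₁ hJ₁
        obtain ⟨K, hK⟩ := (Net.wf' T hVa.2.1).nonempty
        obtain ⟨m, b1, b2⟩ := dsum_back hVa hI₁ hK
        refine ⟨I₁ ∪ K, m, ?_⟩
        show J₀ ((I₁ ∪ K) ∩ (C.app N₀).E) = J₁
        rw [hEE', b1, hJI]
      intro I hI
      have hV' : (Net.dsum (C.app N) T).Valid := hV
      have hV₀' : (Net.dsum (C.app N₀) T).Valid := hV₀
      have hI' : I ∈ (Net.dsum (C.app N) T).M := hI
      have vN := (hM C N N rfl rfl).2.2.2.2 hV'.1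
      have vN₀ := (hM C N₀ N₀ rfl rfl).2.2.2.2 hV₀'.1
      have hrk : N₀.rk = N.rk := rk_eq vN₀ vN (hM₀.trans hNM.symm)
      have hEE : (C.app N₀).E = (C.app N).E := (hM C N₀ N (hE₀.trans hE.symm) hrk).1
      rw [hEE]
      obtain ⟨a, b, c⟩ := dsum_parts hV' hI'
      obtain ⟨j1, j2, j3, j4⟩ := (h₀ N hE hNM hV'.1).1 _ a
      have wT := Net.wf' T hV'.2.1
      refine ⟨j1, ?_, ?_, ?_⟩
      · rw [natpoly_mul_ne_zero_iff, natpoly_rename_ne_zero, natpoly_rename_ne_zero]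
        exact ⟨j2, (wT.ne _).mpr b⟩
      · refine Eq.trans c ?_
        rw [j3]
        simp only [map_mul, rename_rename]
        rw [← mul_assoc]
        rfl
      · intro x hx
        rw [← j4 x hx]
        show (I ∩ C.blk x).card = _
        rw [Finset.inter_assoc, Finset.inter_eq_right.mpr (blk_sub C N x hx)]
    · refine ⟨fun _ => ∅, fun _ => 0, fun _ => 0, ?_⟩
      intro N hE hNM hV
      exact absurd ⟨N, hE, hNM, hV⟩ hex
  | dsumR T C ih =>
    intro E₀ M₀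
    obtain ⟨J₀, Rp₀, k₀, h₀⟩ := ih E₀ M₀
    by_cases hex : ∃ N₀ : Net, N₀.E = E₀ ∧ N₀.M = M₀ ∧ ((Ctx.dsumR T C).app N₀).Valid
    · obtain ⟨N₀, hE₀, hM₀, hV₀⟩ := hex
      refine ⟨fun I => J₀ (I ∩ (C.app N₀).E), fun I => rename Sum.inl (T.Δ (I ∩ T.E)) *
        rename Sum.inr (Rp₀ (I ∩ (C.app N₀).E)), k₀, ?_⟩
      intro N hE hNM hV
      have hVa : (Net.dsum T (C.app N)).Valid := hV
      have hV₀a : (Net.dsum T (C.app N₀)).Valid := hV₀
      have vN' := (hM C N N rfl rfl).2.2.2.2 hVa.2.1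
      have vN₀' := (hM C N₀ N₀ rfl rfl).2.2.2.2 hV₀a.2.1
      have hrk' : N₀.rk = N.rk := rk_eq vN₀' vN' (hM₀.trans hNM.symm)
      have hcm' := hM C N₀ N (hE₀.trans hE.symm) hrk'
      have hEE' : (C.app N₀).E = (C.app N).E := hcm'.1
      have hMM' : (C.app N₀).M = (C.app N).M := hcm'.2.2.1 (hM₀.trans hNM.symm)
      refine ⟨?_, fun J₁ hJ₁ => ?_⟩
      swap
      · obtain ⟨I₁, hI₁, hJI⟩ := (h₀ N hE hNM hVa.2.1).2 J₁ hJ₁
        obtain ⟨K, hK⟩ := (Net.wf' T hVa.1).nonempty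
        obtain ⟨m, b1, b2⟩ := dsum_back hVa hK hI₁
        refine ⟨K ∪ I₁, m, ?_⟩
        show J₀ ((K ∪ I₁) ∩ (C.app N₀).E) = J₁
        rw [hEE', b2, hJI]
      intro I hI
      have hV' : (Net.dsum T (C.app N)).Valid := hV
      have hV₀' : (Net.dsum T (C.app N₀)).Valid := hV₀
      have hI' : I ∈ (Net.dsum T (C.app N)).M := hI
      have vN := (hM C N N rfl rfl).2.2.2.2 hV'.2.1
      have vN₀ := (hM C N₀ N₀ rfl rfl).2.2.2.2 hV₀'.2.1
      have hrk : N₀.rk = N.rk := rk_eq vN₀ vN (hM₀.trans hNM.symm)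
      have hEE : (C.app N₀).E = (C.app N).E := (hM C N₀ N (hE₀.trans hE.symm) hrk).1
      rw [hEE]
      obtain ⟨a, b, c⟩ := dsum_parts hV' hI'
      obtain ⟨j1, j2, j3, j4⟩ := (h₀ N hE hNM hV'.2.1).1 _ b
      have wT := Net.wf' T hV'.1
      refine ⟨j1, ?_, ?_, ?_⟩
      · rw [natpoly_mul_ne_zero_iff, natpoly_rename_ne_zero, natpoly_rename_ne_zero]
        exact ⟨(wT.ne _).mpr a, j2⟩
      · refine Eq.trans c ?_
        rw [j3]
        simp only [map_mul, rename_rename]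
        rw [mul_left_comm]
        rfl
      · intro x hx
        rw [← j4 x hx]
        show (I ∩ C.blk x).card = _
        rw [Finset.inter_assoc, Finset.inter_eq_right.mpr (blk_sub C N x hx)]
    · refine ⟨fun _ => ∅, fun _ => 0, fun _ => 0, ?_⟩
      intro N hE hNM hV
      exact absurd ⟨N, hE, hNM, hV⟩ hex
  | tsumL C T q ih =>
    intro E₀ M₀
    obtain ⟨J₀, Rp₀, k₀, h₀⟩ := ih E₀ M₀
    by_cases hex : ∃ N₀ : Net, N₀.E = E₀ ∧ N₀.M = M₀ ∧ ((Ctx.tsumL C T q).app N₀).Valid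
    · obtain ⟨N₀, hE₀, hM₀, hV₀⟩ := hex
      refine ⟨fun I => J₀ (pS ((C.app N₀).E.erase q) (C.app N₀).M q I), fun I =>
        rename Sum.inl (Rp₀ (pS ((C.app N₀).E.erase q) (C.app N₀).M q I)) *
        rename Sum.inr (T.Δ (pT ((C.app N₀).E.erase q) (T.E.erase q) (C.app N₀).M q I)),
        fun x => k₀ x + if q ∈ C.blk x then T.rk - 1 else 0, ?_⟩
      intro N hE hNM hV
      have hVa : (Net.tsum (C.app N) T q).Valid := hV
      have hV₀a : (Net.tsum (C.app N₀) T q).Valid := hV₀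
      have vN' := (hM C N N rfl rfl).2.2.2.2 hVa.1
      have vN₀' := (hM C N₀ N₀ rfl rfl).2.2.2.2 hV₀a.1
      have hrk' : N₀.rk = N.rk := rk_eq vN₀' vN' (hM₀.trans hNM.symm)
      have hcm' := hM C N₀ N (hE₀.trans hE.symm) hrk'
      have hEE' : (C.app N₀).E = (C.app N).E := hcm'.1
      have hMM' : (C.app N₀).M = (C.app N).M := hcm'.2.2.1 (hM₀.trans hNM.symm)
      refine ⟨?_, fun J₁ hJ₁ => ?_⟩
      swap
      · obtain ⟨I₁, hI₁, hJI⟩ := (h₀ N hE hNM hVa.1).2 J₁ hJ₁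
        obtain ⟨K, hK, hX⟩ := partnerL hVa hI₁
        obtain ⟨m, b1, b2⟩ := tsum_back hVa hI₁ hK hX
        refine ⟨(I₁ ∪ K).erase q, m, ?_⟩
        show J₀ (pS ((C.app N₀).E.erase q) (C.app N₀).M q ((I₁ ∪ K).erase q)) = J₁
        rw [hEE', hMM', b1, hJI]
      intro I hI
      have hV' : (Net.tsum (C.app N) T q).Valid := hV
      have hV₀' : (Net.tsum (C.app N₀) T q).Valid := hV₀
      have hI' : I ∈ (Net.tsum (C.app N) T q).M := hI
      have vN := (hM C N N rfl rfl).2.2.2.2 hV'.1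
      have vN₀ := (hM C N₀ N₀ rfl rfl).2.2.2.2 hV₀'.1
      have hrk : N₀.rk = N.rk := rk_eq vN₀ vN (hM₀.trans hNM.symm)
      have hcm := hM C N₀ N (hE₀.trans hE.symm) hrk
      have hEE : (C.app N₀).E = (C.app N).E := hcm.1
      have hMM : (C.app N₀).M = (C.app N).M := hcm.2.2.1 (hM₀.trans hNM.symm)
      rw [hEE, hMM]
      obtain ⟨a, b, c, d, e, f, -⟩ := tsum_parts hV' hI'
      obtain ⟨j1, j2, j3, j4⟩ := (h₀ N hE hNM hV'.1).1 _ a
      have wT := Net.wf' T hV'.2.1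
      refine ⟨j1, ?_, ?_, ?_⟩
      · rw [natpoly_mul_ne_zero_iff, natpoly_rename_ne_zero, natpoly_rename_ne_zero]
        exact ⟨j2, (wT.ne _).mpr b⟩
      · refine Eq.trans c ?_
        rw [j3]
        simp only [map_mul, rename_rename]
        rw [← mul_assoc]
        rfl
      · intro x hx
        have j5 := j4 x hx
        show (I ∩ (if q ∈ C.blk x then (C.blk x).erase q ∪ T.E.erase q else C.blk x)).card = _
        by_cases hq : q ∈ C.blk x
        · have h1 := count2 d e hV'.2.2.2.2.2.2.1 (blk_sub C N x hx) hq f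
          have h2 := hV'.2.2.2.1
          rw [j5, wT.card _ b] at h1
          rw [if_pos hq]
          simp only [if_pos hq]
          omega
        · rw [if_neg hq]
          simp only [if_neg hq, add_zero]
          rw [← j5]
          exact count1 d (blk_sub C N x hx) hq
    · refine ⟨fun _ => ∅, fun _ => 0, fun _ => 0, ?_⟩
      intro N hE hNM hV
      exact absurd ⟨N, hE, hNM, hV⟩ hex
  | tsumR T C q ih =>
    intro E₀ M₀
    obtain ⟨J₀, Rp₀, k₀, h₀⟩ := ih E₀ M₀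
    by_cases hex : ∃ N₀ : Net, N₀.E = E₀ ∧ N₀.M = M₀ ∧ ((Ctx.tsumR T C q).app N₀).Valid
    · obtain ⟨N₀, hE₀, hM₀, hV₀⟩ := hex
      refine ⟨fun I => J₀ (pT (T.E.erase q) ((C.app N₀).E.erase q) T.M q I), fun I =>
        rename Sum.inl (T.Δ (pS (T.E.erase q) T.M q I)) *
        rename Sum.inr (Rp₀ (pT (T.E.erase q) ((C.app N₀).E.erase q) T.M q I)),
        fun x => k₀ x + if q ∈ C.blk x then T.rk - 1 else 0, ?_⟩
      intro N hE hNM hV
      have hVa : (Net.tsum T (C.app N) q).Valid := hV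
      have hV₀a : (Net.tsum T (C.app N₀) q).Valid := hV₀
      have vN' := (hM C N N rfl rfl).2.2.2.2 hVa.2.1
      have vN₀' := (hM C N₀ N₀ rfl rfl).2.2.2.2 hV₀a.2.1
      have hrk' : N₀.rk = N.rk := rk_eq vN₀' vN' (hM₀.trans hNM.symm)
      have hcm' := hM C N₀ N (hE₀.trans hE.symm) hrk'
      have hEE' : (C.app N₀).E = (C.app N).E := hcm'.1
      have hMM' : (C.app N₀).M = (C.app N).M := hcm'.2.2.1 (hM₀.trans hNM.symm)
      refine ⟨?_, fun J₁ hJ₁ => ?_⟩
      swap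
      · obtain ⟨I₁, hI₁, hJI⟩ := (h₀ N hE hNM hVa.2.1).2 J₁ hJ₁
        obtain ⟨K, hK, hX⟩ := partnerR hVa hI₁
        obtain ⟨m, b1, b2⟩ := tsum_back hVa hK hI₁ hX
        refine ⟨(K ∪ I₁).erase q, m, ?_⟩
        show J₀ (pT (T.E.erase q) ((C.app N₀).E.erase q) T.M q ((K ∪ I₁).erase q)) = J₁
        rw [hEE', b2, hJI]
      intro I hI
      have hV' : (Net.tsum T (C.app N) q).Valid := hV
      have hV₀' : (Net.tsum T (C.app N₀) q).Valid := hV₀
      have hI' : I ∈ (Net.tsum T (C.app N) q).M := hI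
      have vN := (hM C N N rfl rfl).2.2.2.2 hV'.2.1
      have vN₀ := (hM C N₀ N₀ rfl rfl).2.2.2.2 hV₀'.2.1
      have hrk : N₀.rk = N.rk := rk_eq vN₀ vN (hM₀.trans hNM.symm)
      have hcm := hM C N₀ N (hE₀.trans hE.symm) hrk
      have hEE : (C.app N₀).E = (C.app N).E := hcm.1
      rw [hEE]
      obtain ⟨a, b, c, d, e, f, -⟩ := tsum_parts hV' hI'
      obtain ⟨j1, j2, j3, j4⟩ := (h₀ N hE hNM hV'.2.1).1 _ b
      have wT := Net.wf' T hV'.1
      have f' := f.symm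
      refine ⟨j1, ?_, ?_, ?_⟩
      · rw [natpoly_mul_ne_zero_iff, natpoly_rename_ne_zero, natpoly_rename_ne_zero]
        exact ⟨(wT.ne _).mpr a, j2⟩
      · refine Eq.trans c ?_
        rw [j3]
        simp only [map_mul, rename_rename]
        rw [mul_left_comm]
        rfl
      · intro x hx
        have j5 := j4 x hx
        show (I ∩ (if q ∈ C.blk x then (C.blk x).erase q ∪ T.E.erase q else C.blk x)).card = _
        by_cases hq : q ∈ C.blk x
        · have f2 : Xq q (pT (T.E.erase q) ((C.app N).E.erase q) T.M q I)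
              (pS (T.E.erase q) T.M q I) := by
            rcases f with ⟨g1, g2⟩ | ⟨g1, g2⟩
            · exact Or.inr ⟨g2, g1⟩
            · exact Or.inl ⟨g2, g1⟩
          have h1 := count2 e d hV'.2.2.2.2.2.2.1.symm (blk_sub C N x hx) hq f2
          have h2 := hV'.2.2.1
          rw [j5, wT.card _ a] at h1
          rw [if_pos hq]
          simp only [if_pos hq]
          omega
        · rw [if_neg hq]
          simp only [if_neg hq, add_zero]
          rw [← j5]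
          exact count1 e (blk_sub C N x hx) hq
    · refine ⟨fun _ => ∅, fun _ => 0, fun _ => 0, ?_⟩
      intro N hE hNM hV
      exact absurd ⟨N, hE, hNM, hV⟩ hex

end ABCT.H32J
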