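import Pool.Agent.Helper32_ABCT.Base

/-!
# Vandermonde vectors, real closures: definitions (MP_a17fcb_ag)
-/

open MvPolynomial

namespace ABCT

/-- all pairs of positions `a < b` of the list whose labels lie in `I`. -/
def prsAll (l : List ℕ) (I : Finset ℕ) : Finset (ℕ × ℕ) :=
  ((Finset.range l.length) ×ˢ (Finset.range l.length)).filter
    fun p => p.1 < p.2 ∧ l.getD p.1 0 ∈ I ∧ l.getD p.2 0 ∈ I

/-- the Vandermonde vector `κ ∏ c_i ∏ (t_j - t_i)`. -/
def Q {R : Type*} [CommRing R] (l : List ℕ) (r : ℕ) (κ : R) (c t : ℕ → R) (I : Finset ℕ) : R :=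
  if I ∈ l.toFinset.powersetCard r then
    κ * (∏ i ∈ I, c i) * ∏ p ∈ prsAll l I, (t (l.getD p.2 0) - t (l.getD p.1 0)) else 0

/-- positive Vandermonde vectors -/
def ZV (l : List ℕ) (r : ℕ) : Set (Finset ℕ → ℝ) :=
  {z | ∃ (κ : ℝ) (c t : ℕ → ℝ), 0 < κ ∧ (∀ i, 0 < c i) ∧ l.Pairwise (fun a b => t a < t b) ∧
    z = Q l r κ c t}

/-- real points of the Zariski closure of the complex Vandermonde vectors -/
def XV (l : List ℕ) (r : ℕ) : Set (Finset ℕ → ℝ) :=
  {z | ∀ f : MvPolynomial (Finset ℕ) ℂ,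
    (∀ (κ : ℂ) (c t : ℕ → ℂ), aeval (Q l r κ c t) f = 0) → aeval (fun I => ((z I : ℝ) : ℂ)) f = 0}

/-- deletion of a label -/
def del {R : Type*} [Zero R] (i : ℕ) (z : Finset ℕ → R) : Finset ℕ → R :=
  fun I => if i ∈ I then 0 else z I

/-- contraction of a label -/
def con {R : Type*} [Zero R] (i : ℕ) (z : Finset ℕ → R) : Finset ℕ → R :=
  fun I => if i ∈ I then 0 else z (insert i I)

/-- adding a coloop -/
def addco {R : Type*} [Zero R] (i : ℕ) (z : Finset ℕ → R) : Finset ℕ → R :=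
  fun I => if i ∈ I then z (I.erase i) else 0

/-- 2-sum of vectors; `A` is the label set of the first vector without `q`. -/
def comb {R : Type*} [CommSemiring R] (A : Finset ℕ) (q : ℕ) (y z : Finset ℕ → R) : Finset ℕ → R :=
  fun I => if q ∈ I then 0 else
    y (I ∩ A) * z (insert q (I \ A)) + y (insert q (I ∩ A)) * z (I \ A)

/-- direct sum of vectors; `A` is the label set of the first vector. -/
def prodv {R : Type*} [CommSemiring R] (A : Finset ℕ) (y z : Finset ℕ → R) : Finset ℕ → R :=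
  fun I => y (I ∩ A) * z (I \ A)

/-- nonnegative vectors -/
def Nonneg (z : Finset ℕ → ℝ) : Prop := ∀ I, 0 ≤ z I

/-- `i` is alive in the vector `z` -/
def AliveV {R : Type*} [Zero R] (z : Finset ℕ → R) (i : ℕ) : Prop :=
  (∃ I, z I ≠ 0 ∧ i ∈ I) ∧ (∃ I, z I ≠ 0 ∧ i ∉ I)

/-- purity (B) -/
def Net.HasB (S : Net) : Prop :=
  ∀ z ∈ closure S.flat.Z, z ≠ 0 → z ∉ S.flat.Z → ∃ S', Net.Facet S S' ∧ z ∈ closure S'.flat.Z

/-- condition (D) -/
def Net.HasD (S : Net) : Prop :=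
  ∀ S', Net.Facet S S' → ∀ z ∈ closure S.flat.Z, z ≠ 0 → (∀ I, z I ≠ 0 → I ∈ S'.M) →
    z ∈ closure S'.flat.Z

end ABCT
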