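import Pool.Agent.Helper32_ABCT.Ctx

/-!
# Statements of part E: uniqueness (MP_a17fcb_ag), see PLAN_ABCT_E.md
-/

open MvPolynomial

namespace ABCT

open FlatCell

/-! ## Contexts -/

/-- CTXM -/
def CtxMStmt : Prop :=
  ∀ (C : Ctx) (N N' : Net), N.E = N'.E → N.rk = N'.rk →
    (C.app N).E = (C.app N').E ∧ (C.app N).rk = (C.app N').rk ∧
    (N.M = N'.M → (C.app N).M = (C.app N').M) ∧
    (N.M = N'.M → N'.Valid → (C.app N).Valid → (C.app N').Valid) ∧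
    ((C.app N).Valid → N.Valid)

/-- CTXB: blocks -/
def CtxBStmt : Prop :=
  ∀ (C : Ctx) (N : Net), (C.app N).Valid → (∀ x ∈ N.E, C.blk x ⊆ (C.app N).E) ∧
    ∀ x ∈ N.E, ∀ y ∈ N.E, x ≠ y → Disjoint (C.blk x) (C.blk y)

/-- nets without generic vertices -/
def Net.Toric : Net → Prop
  | Net.black _ => True
  | Net.white _ => True
  | Net.gen _ _ => False
  | Net.dsum S T => S.Toric ∧ T.Toric
  | Net.tsum S T _ => S.Toric ∧ T.Toric

/-- CTXD: a net is toric or has a generic vertex -/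
def CtxDStmt : Prop :=
  ∀ S : Net, S.Toric ∨ ∃ (C : Ctx) (l : List ℕ) (r : ℕ), S = C.app (Net.gen l r)

/-- CTXF: facets in contexts; facets of `gen` kill no label -/
def CtxFStmt : Prop :=
  (∀ (C : Ctx) (N N' : Net), (C.app N).Valid → Net.Facet N N' → (∀ x, N.Alive x → N'.Alive x) →
    Net.Facet (C.app N) (C.app N') ∧ ∀ x, (C.app N).Alive x → (C.app N').Alive x) ∧
  (∀ (l : List ℕ) (r : ℕ) (N' : Net), (Net.gen l r).Valid → Net.Facet (Net.gen l r) N' →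
    ∀ x, (Net.gen l r).Alive x → N'.Alive x)

/-- CTXOK: facet data in contexts (from CdsumL, CtsumL, Ciso, Cswap, Gall, Facet) -/
def CtxOkStmt : Prop :=
  ∀ (C : Ctx) (N N' : Net) (φ : FacetData N.flat N'.flat), (C.app N).Valid → Net.Facet N N' →
    (∀ x, N.Alive x → N'.Alive x) → φ.Ok → (C.fd φ).Ok

/-- CTXV: values of facet data in contexts -/
def CtxVStmt : Prop :=
  ∀ (C : Ctx) (N N' : Net) (φ : FacetData N.flat N'.flat), (C.app N).Valid →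
    (∀ x ∈ N.E, ∀ i ∈ C.blk x, (C.fd φ).lam (Sum.inl i) = φ.lam (Sum.inl x) ∧
      (C.fd φ).w (Sum.inl i) =
        xx (Sum.inl i) * liftF (C.vi N') (φ.w (Sum.inl x) / xx (Sum.inl x))) ∧
    (∀ i ∈ (C.app N).E, (∀ x ∈ N.E, i ∉ C.blk x) → (C.fd φ).lam (Sum.inl i) = 0 ∧
      (C.fd φ).w (Sum.inl i) = xx (Sum.inl i)) ∧
    (∀ h : N.G, (C.fd φ).lam (Sum.inr (C.gi N h)) = φ.lam (Sum.inr h) ∧
      (C.fd φ).w (Sum.inr (C.gi N h)) = liftF (C.vi N') (φ.w (Sum.inr h))) ∧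
    (∀ h : C.R, (C.fd φ).lam (Sum.inr (C.go N h)) = 0 ∧
      (C.fd φ).w (Sum.inr (C.go N h)) = xx (Sum.inr (C.go N' h)))

/-- the decomposition of the coordinates of `C.app N`: `J I` is the basis of `N`, `Rp I` the factor
from the context, `k x + [x ∈ J I]` the number of labels of `I` in the block of `x`. -/
def CtxJ (C : Ctx) (N : Net) (J : Finset ℕ → Finset ℕ) (Rp : Finset ℕ → MvPolynomial C.R ℕ)
    (k : ℕ → ℕ) : Prop :=
  ∀ I ∈ (C.app N).M, J I ∈ N.M ∧ Rp I ≠ 0 ∧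
    (C.app N).Δ I = rename (C.gi N) (N.Δ (J I)) * rename (C.go N) (Rp I) ∧
    ∀ x ∈ N.E, (I ∩ C.blk x).card = k x + (if x ∈ J I then 1 else 0)

/-- VLAM: quotients of gaps of the same generic vertex are in the chart lattice -/
def VlamStmt : Prop :=
  ∀ (C : Ctx) (l : List ℕ) (r : ℕ), (C.app (Net.gen l r)).Valid →
    ∀ h k : (Net.gen l r).G,
      (Finsupp.single (Sum.inr (C.gi (Net.gen l r) h)) 1 -
        Finsupp.single (Sum.inr (C.gi (Net.gen l r) k)) 1 :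
        (C.app (Net.gen l r)).flat.V →₀ ℤ) ∈ (C.app (Net.gen l r)).flat.Lam

/-- NFIN: the gap types are finite -/
def NfinStmt : Prop := ∀ S : Net, Finite S.G

/-- CTXJ -/
def CtxJStmt : Prop :=
  ∀ (C : Ctx) (E₀ : Finset ℕ) (M₀ : Finset (Finset ℕ)), ∃ J Rp k, ∀ N : Net, N.E = E₀ →
    N.M = M₀ → (C.app N).Valid → CtxJ C N J Rp k ∧ ∀ J₀ ∈ M₀, ∃ I ∈ (C.app N).M, J I = J₀

/-! ## Twists -/

/-- the value `t_x` of a nonroot label, as a sum of gaps of the list `l` -/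
noncomputable def tv (l : List ℕ) (x : ℕ) : MvPolynomial (Fin (l.length - 2)) ℤ :=
  ∑ h ∈ Finset.univ.filter (fun h : Fin (l.length - 2) => h.1 < l.idxOf x), X h

/-- the gaps of `C.app (gen l' r)` in terms of the gaps of `C.app (gen l r)` -/
noncomputable def twL (C : Ctx) (l l' : List ℕ) (r : ℕ) (g : (C.app (Net.gen l' r)).G) :
    MvPolynomial (C.app (Net.gen l r)).G ℤ :=
  match C.ge (Net.gen l' r) g with
  | Sum.inl k => rename (C.gi (Net.gen l r))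
      (tv l (l'.getD ((show Fin (l'.length - 2) from k).1 + 1) 0) -
        tv l (l'.getD (show Fin (l'.length - 2) from k).1 0))
  | Sum.inr h => X (C.go (Net.gen l r) h)

/-- the twist of `C.app (gen l r)` by a reordering `l'` of the list -/
noncomputable def twist (C : Ctx) (l l' : List ℕ) (r : ℕ) (ε : Finset ℕ → ℤ) :
    Twist (C.app (Net.gen l r)).flat (C.app (Net.gen l' r)).flat where
  ε := ε
  L := twL C l l' r
  L' := twL C l' l r

/-- TWC: reorderings of the nonroot labels give twists -/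
def TwcStmt : Prop :=
  ∀ (C : Ctx) (l l' : List ℕ) (ρ r : ℕ), (C.app (Net.gen (l ++ [ρ]) r)).Valid → l.Perm l' →
    (C.app (Net.gen (l' ++ [ρ]) r)).Valid ∧
    ∃ ε, (twist C (l ++ [ρ]) (l' ++ [ρ]) r ε).Ok

/-! ## Orders -/

/-- ORD: rules for orders at `s = 0` -/
def OrdStmt : Prop :=
  (∀ (K : Type) [Field K] (f g : RatFunc K) (n : ℤ), OrdGe f n → OrdGe g n → OrdGe (f + g) n) ∧
  (∀ (K : Type) [Field K] (f g : RatFunc K) (m n : ℤ), OrdGe f m → OrdGe g n →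
    OrdGe (f * g) (m + n)) ∧
  (∀ (K : Type) [Field K] (f : RatFunc K) (m n : ℤ), m ≤ n → OrdGe f n → OrdGe f m) ∧
  (∀ (K : Type) [Field K] (a : K), OrdGe (RatFunc.C a) 0) ∧
  (∀ (K : Type) [Field K] (m : ℤ), OrdGe (sVar K ^ m) m) ∧
  (∀ (K : Type) [Field K] (f : RatFunc K), (∀ n, OrdGe f n) → f = 0) ∧
  (∀ (K : Type) [Field K] (A : Polynomial K) (n : ℤ), A.coeff 0 ≠ 0 →
    (OrdGe (algebraMap (Polynomial K) (RatFunc K) A) n ↔ n ≤ 0) ∧
    ∀ f, OrdGe (f / algebraMap (Polynomial K) (RatFunc K) A) n ↔ OrdGe f n) ∧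
  (∀ (K L : Type) [Field K] [Field L] (σ : K →+* L) (f : RatFunc K) (n : ℤ),
    OrdGe f n → OrdGe (mapR σ f) n)

/-- ORDW: separation of label monomials -/
def OrdwStmt : Prop :=
  ∀ (S : FlatCell) (V : Finset (ℕ →₀ ℤ)) (g : (ℕ →₀ ℤ) → RatFunc S.F) (n : ℤ),
    (∀ v ∈ V, ∀ (t : S.V → ℂ) (ht : ∀ u, t u ≠ 0), (∀ h, t (Sum.inr h) = 1) →
      mapR (scal t ht) (g v) = g v) →
    OrdGe (∑ v ∈ V, RatFunc.C (v.prod fun i a => (xx (Sum.inl i) : S.F) ^ a) * g v) n →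
    ∀ v ∈ V, OrdGe (g v) n

/-- the coefficient of the label monomial `c ^ v` in `N(p)` -/
noncomputable def cf (S : FlatCell) (N : MvPolynomial (Finset ℕ) ℂ) (v : ℕ →₀ ℕ) :
    MvPolynomial S.G ℂ :=
  coeff v (sumAlgEquiv ℂ ℕ S.G
    (aeval (fun I => MvPolynomial.map (Nat.castRingHom ℂ) (S.pol I)) N))

/-- the finite set of the label monomials of `N(p)` -/
noncomputable def cfs (S : FlatCell) (N : MvPolynomial (Finset ℕ) ℂ) : Finset (ℕ →₀ ℕ) :=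
  (sumAlgEquiv ℂ ℕ S.G
    (aeval (fun I => MvPolynomial.map (Nat.castRingHom ℂ) (S.pol I)) N)).support

/-- EEXP: expansion of `N(p)` by label monomials -/
def EexpStmt : Prop :=
  (∀ (S : FlatCell) (K : Type) [Field K] [Algebra ℂ K] (y : S.V → K)
    (N : MvPolynomial (Finset ℕ) ℂ), aeval (fun I => S.ev y I) N =
      ∑ v ∈ cfs S N, (v.prod fun i a => y (Sum.inl i) ^ a) *
        aeval (fun h => y (Sum.inr h)) (cf S N v)) ∧
  (∀ (S : FlatCell) (N : MvPolynomial (Finset ℕ) ℂ), aeval S.P N = 0 ↔ ∀ v, cf S N v = 0) ∧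
  (∀ (S : FlatCell) (N : MvPolynomial (Finset ℕ) ℂ) (a : ℕ → ℕ) (b : S.G → ℕ) (κ D : ℕ),
    (∀ I, ∀ μ ∈ (S.pol I).support, (μ.sum fun v n => (Sum.elim a b v) * n) = κ) →
    N.IsHomogeneous D → ∀ v, ∀ β ∈ (cf S N v).support,
      (v.sum fun i n => a i * n) + (β.sum fun h n => b h * n) = κ * D) ∧
  (∀ (S : FlatCell) (N : MvPolynomial (Finset ℕ) ℂ) (U : Finset ℕ),
    (∀ I, S.Δ I ≠ 0 → I ⊆ U) → ∀ v, cf S N v ≠ 0 → v.support ⊆ U)

/-- the exponent `v_i - n * #{I ∋ i}` of the label `i` -/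
noncomputable def ww (S : FlatCell) (n : ℕ) (v : ℕ →₀ ℕ) (i : ℕ) : ℤ :=
  v i - n * (S.M.filter fun I => i ∈ I).card

/-- ESTAR: the condition of (E) for each label monomial -/
def EstarStmt : Prop :=
  ∀ (S T T' : FlatCell) (τ : Twist S T) (φ : FacetData T T') (n : ℕ)
    (N : MvPolynomial (Finset ℕ) ℂ) (U : Finset ℕ), S.Wf → T.Wf → Finite S.G → Finite T.G →
    (∀ I ∈ S.M, I ⊆ U) → τ.Ok → φ.Ok → OrdGe (τ.fg φ n N) 1 → ∀ v, cf S N v ≠ 0 →
    OrdGe (aeval (fun h => τ.gap φ h) (cf S N v) /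
        (∏ I ∈ S.M, (eval₂ (Nat.castRingHom _) (fun h => τ.gap φ h) (S.Δ I)) ^ n) *
        ((∏ᶠ k : T.G, φ.psi (Sum.inr k)) / (∏ᶠ h : S.G, τ.gap φ h)))
      (1 - ∑ i ∈ U, φ.lam (Sum.inl i) * ww S n v i)

/-! ## Generic vertices -/

/-- the hypothesis of (E) -/
def HypE (S : Net) (n : ℕ) (N : MvPolynomial (Finset ℕ) ℂ) : Prop :=
  ∀ (T : Net) (τ : Twist S.flat T.flat), T.Valid → τ.Ok → ∀ T' : Net, Net.Facet T T' →
    ∀ φ : FacetData T.flat T'.flat, φ.Ok → OrdGe (τ.fg φ n N) 1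

/-- polynomials in the gaps of `C.app (gen l r)` as polynomials in the `t_a`, `a` a nonroot
position, with coefficients in the field of the outer gaps -/
noncomputable def Ht (C : Ctx) (l : List ℕ) (r : ℕ) (H : MvPolynomial (C.app (Net.gen l r)).G ℂ) :
    MvPolynomial ℕ (Fr C.R) :=
  aeval (fun g => match C.ge (Net.gen l r) g with
    | Sum.inl k => (X ((show Fin (l.length - 2) from k).1 + 1) -
        X (show Fin (l.length - 2) from k).1 : MvPolynomial ℕ (Fr C.R))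
    | Sum.inr h => MvPolynomial.C (xx h)) H

/-- number of occurrences of the pair `a, b` of positions in the denominator -/
def kk (C : Ctx) (l : List ℕ) (r n : ℕ) (J : Finset ℕ → Finset ℕ) (a b : ℕ) : ℕ :=
  n * ((C.app (Net.gen l r)).M.filter fun I => l.getD a 0 ∈ J I ∧ l.getD b 0 ∈ J I).card

/-- exponent of the item at position `a` -/
noncomputable def WW (C : Ctx) (l : List ℕ) (r n : ℕ) (v : ℕ →₀ ℕ) (a : ℕ) : ℤ :=
  ∑ i ∈ C.blk (l.getD a 0), ww (C.app (Net.gen l r)).flat n v i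

/-- the type of facets used: `δ = 0` or `δ = 1` -/
def Dlt (l : List ℕ) (r δ : ℕ) : Prop :=
  (δ = 0 ∧ (r + 3 ≤ l.length ∨ l.length = 4)) ∨ (δ = 1 ∧ r + 2 = l.length ∧ 5 ≤ l.length)

/-- bound for the degree in `t_a`, without the term of the denominator -/
noncomputable def Xb (C : Ctx) (l : List ℕ) (r n δ : ℕ) (v : ℕ →₀ ℕ) (a : ℕ) : ℤ :=
  (if δ = 0 then (r - 1 : ℤ) * WW C l r n v a
   else (∑ b ∈ Finset.range (l.length - 1), WW C l r n v b) + (r - 2 : ℤ) * WW C l r n v a)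

/-- ELINK: polynomials in the gaps of `C.app (gen l r)`, written in the gaps of the reordered list
`l'`. `H'` is the result, with coefficients in the field of the outer gaps: (1) the polynomial `Ht` is
obtained from `H'` by substituting the differences of the `t`; (2) the value of `H` at the values
`τ.gap` of the gaps of `S` is the value of `H'` at the values of the gaps of `T`; (3) if `H` is
homogeneous in the inner gaps so is `H'`. -/
def ElinkStmt : Prop :=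
  ∀ (C : Ctx) (l l' : List ℕ) (ρ r : ℕ) (ε : Finset ℕ → ℤ)
    (H : MvPolynomial (C.app (Net.gen (l ++ [ρ]) r)).G ℂ),
    (C.app (Net.gen (l ++ [ρ]) r)).Valid → l.Perm l' →
    ∃ H' : MvPolynomial ℕ (Fr C.R),
      Ht C (l ++ [ρ]) r H = aeval (fun k : ℕ => (X (l.idxOf (l'.getD (k + 1) 0)) -
        X (l.idxOf (l'.getD k 0)) : MvPolynomial ℕ (Fr C.R))) H' ∧
      (∀ j, l.length ≤ j + 1 → degreeOf j H' = 0) ∧
      (∀ (N' : Net) (φ : FacetData (Net.gen (l' ++ [ρ]) r).flat N'.flat),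
        aeval (fun h => (twist C (l ++ [ρ]) (l' ++ [ρ]) r ε).gap (C.fd φ) h) H =
          eval₂ (RatFunc.C.comp (liftF (C.vo N'))) (fun k : ℕ =>
            if hk : k < (l' ++ [ρ]).length - 2 then
              (C.fd φ).psi (Sum.inr (C.gi (Net.gen (l' ++ [ρ]) r) (⟨k, hk⟩ :
                Fin ((l' ++ [ρ]).length - 2)))) else 0) H') ∧
      ∀ d, (Ht C (l ++ [ρ]) r H).IsHomogeneous d → H'.IsHomogeneous d

/-- EVNZ: nonzero homogeneous polynomials do not vanish at the gap values of a vertex -/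
def EvnzStmt : Prop :=
  ∀ (C : Ctx) (N' : Net) (k : ℕ) (g : ℕ → MvPolynomial N'.G ℕ) (d : ℕ)
    (P : MvPolynomial ℕ (Fr C.R)),
    ((∃ e : Fin k ↪ N'.G, ∀ h : Fin k, g h = X (e h)) ∨ (k = 1 ∧ g 0 = 1)) →
    P.IsHomogeneous d → P ≠ 0 → (∀ j, k ≤ j → degreeOf j P = 0) →
    eval₂ (liftF (C.vo N')) (fun j => eval₂ (Nat.castRingHom (C.app N').flat.F)
      (fun h => xx (Sum.inr (C.gi N' h))) (g j)) P ≠ 0

/-- EPAIR: divisibility by powers of the differences -/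
def EpairStmt : Prop :=
  ∀ (C : Ctx) (l : List ℕ) (r n δ : ℕ) (N : MvPolynomial (Finset ℕ) ℂ) (v : ℕ →₀ ℕ) J Rp k,
    (C.app (Net.gen l r)).Valid → CtxJ C (Net.gen l r) J Rp k →
    N.IsHomogeneous (n * (C.app (Net.gen l r)).M.card) → HypE (C.app (Net.gen l r)) n N →
    cf (C.app (Net.gen l r)).flat N v ≠ 0 → Dlt l r δ → ∀ a b, a < b → b + 1 < l.length →
    (X b - X a : MvPolynomial ℕ (Fr C.R)) ^
      (kk C l r n J a b + δ * (WW C l r n v a + WW C l r n v b)).toNat ∣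
      Ht C l r (cf (C.app (Net.gen l r)).flat N v)

/-- EDEG: degree bounds -/
def EdegStmt : Prop :=
  ∀ (C : Ctx) (l : List ℕ) (r n δ : ℕ) (N : MvPolynomial (Finset ℕ) ℂ) (v : ℕ →₀ ℕ) J Rp k,
    (C.app (Net.gen l r)).Valid → CtxJ C (Net.gen l r) J Rp k →
    N.IsHomogeneous (n * (C.app (Net.gen l r)).M.card) → HypE (C.app (Net.gen l r)) n N →
    cf (C.app (Net.gen l r)).flat N v ≠ 0 → Dlt l r δ → ∀ a, a + 1 < l.length →
    (degreeOf a (Ht C l r (cf (C.app (Net.gen l r)).flat N v)) : ℤ) ≤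
      (∑ b ∈ (Finset.range (l.length - 1)).erase a, (kk C l r n J a b : ℤ)) +
        Xb C l r n δ v a - (if a = 0 then 1 else 0)

/-- EHOM: homogeneity -/
def EhomStmt : Prop :=
  ∀ (C : Ctx) (l : List ℕ) (r n : ℕ) (N : MvPolynomial (Finset ℕ) ℂ) (v : ℕ →₀ ℕ) J Rp k,
    (C.app (Net.gen l r)).Valid → CtxJ C (Net.gen l r) J Rp k →
    N.IsHomogeneous (n * (C.app (Net.gen l r)).M.card) →
    cf (C.app (Net.gen l r)).flat N v ≠ 0 →
    Ht C l r (cf (C.app (Net.gen l r)).flat N v) ≠ 0 ∧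
    (∀ j, l.length ≤ j + 1 → degreeOf j (Ht C l r (cf (C.app (Net.gen l r)).flat N v)) = 0) ∧
    ∃ dH : ℕ, (Ht C l r (cf (C.app (Net.gen l r)).flat N v)).IsHomogeneous dH ∧
      (dH : ℤ) = (r - 1 : ℤ) * (∑ a ∈ Finset.range (l.length - 1), WW C l r n v a) +
        ∑ b ∈ Finset.range (l.length - 1), ∑ a ∈ Finset.range b, (kk C l r n J a b : ℤ)

/-- EPOLY: the contradiction -/
def EpolyStmt : Prop :=
  ∀ (K : Type) [Field K] (m r δ dH : ℕ) (H : MvPolynomial ℕ K) (k : ℕ → ℕ → ℕ) (W : ℕ → ℤ),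
    4 ≤ m → (δ = 0 ∨ (δ = 1 ∧ r + 2 = m)) → H ≠ 0 → (∀ j, m ≤ j + 1 → degreeOf j H = 0) →
    (∀ a b, k a b = k b a) → H.IsHomogeneous dH →
    (dH : ℤ) = (r - 1 : ℤ) * (∑ a ∈ Finset.range (m - 1), W a) +
        ∑ b ∈ Finset.range (m - 1), ∑ a ∈ Finset.range b, (k a b : ℤ) →
    (∀ a b, a < b → b + 1 < m →
      (X b - X a : MvPolynomial ℕ K) ^ (k a b + δ * (W a + W b)).toNat ∣ H) →
    (∀ a, a + 1 < m → (degreeOf a H : ℤ) ≤
      (∑ b ∈ (Finset.range (m - 1)).erase a, (k a b : ℤ)) +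
        (if δ = 0 then (r - 1 : ℤ) * W a
          else (∑ b ∈ Finset.range (m - 1), W b) + (r - 2 : ℤ) * W a) -
        (if a = 0 then 1 else 0)) → False

/-- EGEN -/
def EgenStmt : Prop :=
  ∀ (C : Ctx) (l : List ℕ) (r : ℕ), (C.app (Net.gen l r)).Valid → (C.app (Net.gen l r)).HasE

/-! ## Toric nets -/

/-- TOR: coordinates of toric nets are monomials; facets of toric nets are toric -/
def TorStmt : Prop :=
  (∀ S : Net, S.Valid → S.Toric → ∀ I ∈ S.M, S.Δ I = 1) ∧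
  (∀ S S' : Net, S.Toric → Net.Facet S S' → S'.Toric)

/-- EXIT: a ray from the barycentre leaves the polytope in a proper face -/
def ExitStmt : Prop :=
  ∀ (M : Finset (Finset ℕ)) (w : ℕ → ℝ) (β : Finset ℕ → ℝ), M.Nonempty → (∃ i, w i ≠ 0) →
    ∑ I ∈ M, β I = 0 → (∀ i, w i = ∑ I ∈ M.filter (fun I => i ∈ I), β I) →
    ∃ (ν : ℕ → ℝ) (α : Finset ℕ → ℝ) (τ : ℝ), 0 < τ ∧ (∀ I ∈ M, 0 ≤ α I) ∧ ∑ I ∈ M, α I = 1 ∧
      (∀ i, ∑ I ∈ M.filter (fun I => i ∈ I), α I =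
        ((M.filter fun I => i ∈ I).card : ℝ) / M.card + τ * w i) ∧
      (∀ I ∈ M, α I ≠ 0 → ∀ J ∈ M, ∑ i ∈ I, ν i ≤ ∑ i ∈ J, ν i) ∧
      (∃ I ∈ M, ∃ J ∈ M, ∑ i ∈ I, ν i ≠ ∑ i ∈ J, ν i)

/-- TFACE: a proper face of the polytope of a net with (B) is in a facet (no gap variables used:
all gaps are set to one) -/
def TfaceStmt : Prop :=
  ∀ (S : Net) (ν : ℕ → ℝ), S.Valid → S.HasB → (∃ I ∈ S.M, ∃ J ∈ S.M, ∑ i ∈ I, ν i ≠ ∑ i ∈ J, ν i) →
    ∃ S', Net.Facet S S' ∧ ∀ I ∈ S.M, (∀ J ∈ S.M, ∑ i ∈ I, ν i ≤ ∑ i ∈ J, ν i) → I ∈ S'.M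

/-- TORD: orders in the toric case -/
def TordStmt : Prop :=
  ∀ (S S' : Net) (φ : FacetData S.flat S'.flat) (n : ℕ) (N : MvPolynomial (Finset ℕ) ℂ),
    S.Valid → S.Toric → Net.Facet S S' → φ.Ok → HypE S n N → ∀ v, cf S.flat N v ≠ 0 →
    1 ≤ ∑ i ∈ S.E, φ.lam (Sum.inl i) * ww S.flat n v i

/-- ETOR -/
def EtorStmt : Prop := ∀ S : Net, S.Valid → S.Toric → 1 ≤ S.rk → 2 ≤ S.M.card → S.HasE

end ABCT
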