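import Pool.Agent.Helper64_ABCT.Cvtx
import Pool.Agent.Helper28_ABCT.Lattice
import Pool.Agent.Helper68_ABCT.Lgen
import Pool.Agent.Helper81_ABCT.Asm2
import Pool.Agent.Helper38_ABCT.Lts
import Pool.Agent.Helper38_ABCT.Nfac
import Pool.Agent.Helper14_ABCT.NPure
import Pool.Agent.Helper94_ABCT.Cbw
import Pool.Agent.Helper65_ABCT.Cdsl
import Pool.Agent.Helper59_ABCT.Cg0
import Pool.Agent.Helper68_ABCT.Cg2
import Pool.Agent.Helper74_ABCT.Cg3
import Pool.Agent.Helper94_ABCT.Cg4
import Pool.Agent.Helper85_ABCT.Cg5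
import Pool.Agent.Helper36_ABCT.Csw
import Pool.Agent.Helper47_ABCT.Res
import Pool.Agent.Helper50_ABCT.Hquo
import Pool.Agent.Helper36_ABCT.Dbw
import Pool.Agent.Helper11_ABCT.Dds
import Pool.Agent.Helper31_ABCT.DTB2
import Pool.Agent.Helper11_ABCT.Dtd
import Pool.Agent.Helper31_ABCT.DZ
import Pool.Agent.Helper1_ABCT.Gsum
import Pool.Agent.Helper76_ABCT.Ggen
import Pool.Agent.Helper50_ABCT.Gquo
import Pool.Agent.Helper32_ABCT.NWf
import Pool.Agent.Helper32_ABCT.CtxD
import Pool.Agent.Helper32_ABCT.Hsq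
import Pool.Agent.Helper21_ABCT.Ctxb
import Pool.Agent.Helper72_ABCT.CtxF
import Pool.Agent.Helper32_ABCT.Ctxj
import Pool.Agent.Helper72_ABCT.CtxM
import Pool.Agent.Helper75_ABCT.CtxOk
import Pool.Agent.Helper36_ABCT.Ctxv
import Pool.Agent.Helper20_ABCT.Edeg
import Pool.Agent.Helper28_ABCT.Exp
import Pool.Agent.Helper75_ABCT.Egen
import Pool.Agent.Helper7_ABCT.Ehom
import Pool.Agent.Helper92_ABCT.Elink
import Pool.Agent.Helper20_ABCT.Epair
import Pool.Agent.Helper96_ABCT.Epoly
import Pool.Agent.Helper33_ABCT.Estar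
import Pool.Agent.Helper51_ABCT.Etor
import Pool.Agent.Helper28_ABCT.Vnz
import Pool.Agent.Helper96_ABCT.Exit
import Pool.Agent.Helper9_ABCT.Ord
import Pool.Agent.Helper9_ABCT.Ordw
import Pool.Agent.Helper42_ABCT.Tface
import Pool.Agent.Helper51_ABCT.Tord
import Pool.Agent.Helper7_ABCT.Twc
import Pool.Agent.Helper21_ABCT.Vlam
import Pool.Agent.Helper6_ABCT.VB
import Pool.Agent.Helper41_ABCT.VPos
import Pool.Agent.Helper7_ABCT.Clu
import Pool.Agent.Helper84_ABCT.VD
import Pool.Agent.Helper53_ABCT.Vlc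
import Pool.Agent.Helper13_ABCT.Vlp
import Pool.Agent.Helper91_ABCT.W
import Pool.Agent.Helper33_ABCT.Vmin
import Pool.Agent.Helper60_ABCT.VMoe
import Pool.Agent.Helper6_ABCT.VN
import Pool.Agent.Helper91_ABCT.Plu
import Pool.Agent.Helper13_ABCT.Vrk1
import Pool.Agent.Helper33_ABCT.Vrot
import Pool.Agent.Helper53_ABCT.Vsmo
import Pool.Agent.Helper7_ABCT.Str
import Pool.Agent.Helper41_ABCT.VTriv
import Pool.Agent.Helper74_ABCT.VUni
import Pool.Agent.Helper60_ABCT.VVal
import Pool.Agent.Helper84_ABCT.VZ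
import Pool.Agent.Helper40_ABCT.Vren
import Pool.Agent.Helper40_ABCT.Ciso

/-!
# Part II of the ABCT project, all statements without hypotheses (MP_a17fcb_ag)
-/

namespace ABCT.AllII

open ABCT

theorem vtxG : VtxGStmt := H64.cvtx
theorem facet : FacetStmt := H38.nfac vtxG
theorem lsum : LsumStmt := H81.lsum wfStmt
theorem pure : PureStmt := H14.npure facet H28.lds H38.lts H28.lbw lsum vtxG

theorem wf : WfStmt := wfStmt
theorem ggen : GgenStmt := H76.ggen H50.gquo
theorem lgen : LgenStmt := H68.lgen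
theorem gall : GallStmt := H81.gall (H76.ggen H50.gquo) H1.gts H1.gds

theorem cg0 : Cg0Stmt := H59.cg0 vtxG
theorem cgen : CgenStmt :=
  H81.cgen cg0 H68.cg2 (H74.cg3 facet H50.hquo cg0) (H94.cg4 vtxG cg0 H50.hquo H32.hsq)
    (H85.cg5 H68.lgen H38.lts H28.lbw facet)
theorem cdsumL : CdsumLStmt := H65.cdsumL H28.lds lsum facet
theorem ctsumL : CtsumLStmt := H47.ctsumL H38.lts lsum facet
theorem ctsumB : CtsumBStmt := H47.ctsumB H38.lts lsum facet
theorem ciso : CisoStmt := H40.ciso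
theorem call : CallStmt :=
  H81.call facet pure gall vtxG cgen (H94.cbw H28.lbw H28.lds) cdsumL ctsumL ctsumB ciso H36.cswap

theorem moeb : MoebStmt := H60.vmoe
theorem zvtx : ZvtxStmt := H84.vz moeb vtxG
theorem closedS : ClosedStmt := H41.closedStmt
theorem ztriv : ZtrivStmt := H41.ztrivStmt
theorem plucker : PluckerStmt := H91.plucker
theorem mat : MatStmt := H91.mat
theorem rankOne : RankOneStmt := H13.rankOne mat
theorem decomp : DecompStmt := H13.decomp rankOne H33.vmin H40.ren H33.vrot plucker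
theorem clusterS : ClusterStmt := H7.vclu H60.vval plucker
theorem structS : StructStmt := H7.vstr clusterS plucker
theorem uniform : UniformStmt := H74.vuni (H76.ggen H50.gquo) zvtx
theorem nS : NStmt := H6.vn structS decomp H53.smooth H53.loopColoop uniform ztriv H33.vmin
theorem dgen : DgenStmt :=
  H84.vd nS decomp closedS zvtx H31.znet vtxG H53.loopColoop facet plucker
theorem bgen : BgenStmt := H6.vb dgen vtxG structS uniform zvtx closedS
theorem ball : BDallStmt :=
  H81.dall (H31.btsum facet) (dtsum wfStmt H31.znet facet) (ddsum wfStmt H31.znet facet) H36.dbw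
    (fun l r h => ⟨bgen l r h, dgen l r h⟩)

theorem eexp : EexpStmt := H28.eexp
theorem ordS : OrdStmt := H9.ord
theorem ctxM : CtxMStmt := H72.ctxM
theorem ctxB : CtxBStmt := H21.ctxb
theorem ctxF : CtxFStmt := H72.ctxF facet wfStmt vtxG
theorem ctxJ : CtxJStmt := H32J.ctxJ ctxM
theorem ctxV : CtxVStmt := H36.ctxv ctxB
theorem ctxOk : CtxOkStmt := H75.ctxOk ctxF cdsumL ctsumL ciso H36.cswap gall facet
theorem vlam : VlamStmt := H21.vlam ctxJ ctxM
theorem twc : TwcStmt := H7.twc ctxM ctxJ vlam nfin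
theorem estar : EstarStmt := H33.estar ordS (H9.ordw ordS) eexp
theorem ehom : EhomStmt := H7.ehom eexp
theorem epair : EpairStmt :=
  H20.epair estar ehom H92.elink H28.evnz ordS ctxV ctxOk ctxF ctxB cgen vtxG twc
theorem edeg : EdegStmt :=
  H20.edeg estar ehom H92.elink H28.evnz ordS ctxV ctxOk ctxF ctxB cgen vtxG twc
theorem egen : EgenStmt := H75.egen epair edeg ehom H96.epoly eexp ctxJ
theorem tord : TordStmt := H51.tord estar ordS tor
theorem etor : EtorStmt :=
  H51.etor tord (H42.tface facet) H96.exit tor call ball eexp facet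
theorem eallS : EallStmt := eall etor egen

end ABCT.AllII
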