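import Pool.Agent.Helper32_ABCT.NWf

/-!
# API for flat cells, monomials, positivity, scaling automorphisms (MP_a17fcb_ag)
-/

open MvPolynomial

namespace ABCT

open FlatCell

/-! ### degree zero Laurent monomials -/

section Mon

variable {K : Type*} [Field K] {M M' : Finset (Finset ℕ)} {p p' : Finset ℕ → K}

theorem mon_one : (1 : K) ∈ Mon M p := ⟨fun _ => 0, by simp, by simp⟩

theorem mon_mul (hp : ∀ I ∈ M, p I ≠ 0) {f g : K} (hf : f ∈ Mon M p) (hg : g ∈ Mon M p) :
    f * g ∈ Mon M p := by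
  obtain ⟨n, hn, rfl⟩ := hf
  obtain ⟨m, hm, rfl⟩ := hg
  refine ⟨fun I => n I + m I, by rw [Finset.sum_add_distrib, hn, hm, add_zero], ?_⟩
  rw [← Finset.prod_mul_distrib]
  exact Finset.prod_congr rfl fun I hI => (zpow_add₀ (hp I hI) _ _).symm

theorem mon_inv {f : K} (hf : f ∈ Mon M p) : f⁻¹ ∈ Mon M p := by
  obtain ⟨n, hn, rfl⟩ := hf
  refine ⟨fun I => - n I, by rw [Finset.sum_neg_distrib, hn, neg_zero], ?_⟩
  rw [← Finset.prod_inv_distrib]
  exact Finset.prod_congr rfl fun I hI => (zpow_neg _ _).symm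

theorem mon_div (hp : ∀ I ∈ M, p I ≠ 0) {f g : K} (hf : f ∈ Mon M p) (hg : g ∈ Mon M p) :
    f / g ∈ Mon M p := by
  rw [div_eq_mul_inv]; exact mon_mul hp hf (mon_inv hg)

theorem mon_pow (hp : ∀ I ∈ M, p I ≠ 0) {f : K} (hf : f ∈ Mon M p) (n : ℕ) :
    f ^ n ∈ Mon M p := by
  induction n with
  | zero => simpa using mon_one
  | succ n ih => rw [pow_succ]; exact mon_mul hp ih hf

theorem mon_zpow (hp : ∀ I ∈ M, p I ≠ 0) {f : K} (hf : f ∈ Mon M p) (n : ℤ) :
    f ^ n ∈ Mon M p := by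
  cases n with
  | ofNat n => simpa using mon_pow hp hf n
  | negSucc n => rw [zpow_negSucc]; exact mon_inv (mon_pow hp hf _)

theorem mon_prod (hp : ∀ I ∈ M, p I ≠ 0) {ι : Type*} (s : Finset ι) (f : ι → K)
    (hf : ∀ i ∈ s, f i ∈ Mon M p) : ∏ i ∈ s, f i ∈ Mon M p := by
  classical
  induction s using Finset.induction_on with
  | empty => simpa using mon_one
  | insert a s ha ih =>
    rw [Finset.prod_insert ha]
    exact mon_mul hp (hf a (Finset.mem_insert_self _ _))
      (ih fun i hi => hf i (Finset.mem_insert_of_mem hi))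

theorem mon_quot (hp : ∀ I ∈ M, p I ≠ 0) {I J : Finset ℕ} (hI : I ∈ M) (hJ : J ∈ M) :
    p I / p J ∈ Mon M p := by
  classical
  refine ⟨fun K => (if K = I then 1 else 0) - (if K = J then 1 else 0), ?_, ?_⟩
  · rw [Finset.sum_sub_distrib]; simp [hI, hJ]
  · have : ∀ K ∈ M, p K ^ ((if K = I then (1:ℤ) else 0) - (if K = J then 1 else 0)) =
        (if K = I then p K else 1) / (if K = J then p K else 1) := by
      intro K hK
      rw [zpow_sub₀ (hp K hK)]
      split_ifs <;> simp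
    rw [Finset.prod_congr rfl this, Finset.prod_div_distrib]
    simp [hI, hJ]

theorem mon_ne_zero (hp : ∀ I ∈ M, p I ≠ 0) {f : K} (hf : f ∈ Mon M p) : f ≠ 0 := by
  obtain ⟨n, hn, rfl⟩ := hf
  exact Finset.prod_ne_zero_iff.mpr fun I hI => zpow_ne_zero _ (hp I hI)

theorem mon_subset (h : M ⊆ M') : Mon M p ⊆ Mon M' p := by
  classical
  rintro f ⟨n, hn, rfl⟩
  refine ⟨fun I => if I ∈ M then n I else 0, ?_, ?_⟩
  · show ∑ I ∈ M', (if I ∈ M then n I else 0) = 0
    rw [← Finset.sum_filter, Finset.filter_mem_eq_inter, Finset.inter_eq_right.mpr h, hn]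
  · have : ∀ I ∈ M', p I ^ (if I ∈ M then n I else 0) = if I ∈ M then p I ^ n I else 1 := by
      intro I _; split_ifs <;> simp
    rw [Finset.prod_congr rfl this, ← Finset.prod_filter, Finset.filter_mem_eq_inter,
      Finset.inter_eq_right.mpr h]

theorem mon_congr (h : ∀ I ∈ M, p I = p' I) : Mon M p = Mon M p' := by
  ext f
  constructor
  · rintro ⟨n, hn, rfl⟩
    exact ⟨n, hn, Finset.prod_congr rfl fun I hI => by rw [h I hI]⟩
  · rintro ⟨n, hn, rfl⟩
    exact ⟨n, hn, Finset.prod_congr rfl fun I hI => by rw [h I hI]⟩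

theorem mon_map {L : Type*} [Field L] (σ : K →+* L) {f : K} (hf : f ∈ Mon M p) :
    σ f ∈ Mon M (fun I => σ (p I)) := by
  obtain ⟨n, hn, rfl⟩ := hf
  exact ⟨n, hn, by rw [map_prod]; exact Finset.prod_congr rfl fun I _ => map_zpow₀ _ _ _⟩

theorem zpow_sum₀ {K : Type*} [Field K] {a : K} (ha : a ≠ 0) {ι : Type*} (s : Finset ι)
    (f : ι → ℤ) : a ^ (∑ i ∈ s, f i) = ∏ i ∈ s, a ^ f i := by
  classical
  induction s using Finset.induction_on with
  | empty => simp
  | insert i s hi ih => rw [Finset.sum_insert hi, Finset.prod_insert hi, zpow_add₀ ha, ih]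

/-- If `σ (p I) = 2 p I` for the `I` containing `q`, and `σ (p I) = p I` for the others, then the
exponents of an element on which `σ` is the multiplication by `2 ^ k` add up to `k` over the `I`
containing `q`. -/
theorem mon_deg [CharZero K] (σ : K →+* K) (q : ℕ) (hp : ∀ I ∈ M, p I ≠ 0)
    (hσ : ∀ I ∈ M, σ (p I) = (if q ∈ I then 2 else 1) * p I) (n : Finset ℕ → ℤ) (k : ℤ)
    (hk : σ (∏ I ∈ M, p I ^ n I) = 2 ^ k * ∏ I ∈ M, p I ^ n I) :
    ∑ I ∈ M.filter (fun I => q ∈ I), n I = k := by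
  have h0 : ∏ I ∈ M, p I ^ n I ≠ 0 :=
    Finset.prod_ne_zero_iff.mpr fun I hI => zpow_ne_zero _ (hp I hI)
  have h1 : σ (∏ I ∈ M, p I ^ n I) =
      (2:K) ^ (∑ I ∈ M.filter (fun I => q ∈ I), n I) * ∏ I ∈ M, p I ^ n I := by
    rw [map_prod, Finset.sum_filter, zpow_sum₀ (two_ne_zero), ← Finset.prod_mul_distrib]
    apply Finset.prod_congr rfl
    intro I hI
    rw [map_zpow₀, hσ I hI, mul_zpow]
    split_ifs <;> simp
  rw [h1] at hk
  have h2 := mul_right_cancel₀ h0 hk
  have h3 : ((2:ℚ) ^ (∑ I ∈ M.filter (fun I => q ∈ I), n I)) = (2:ℚ) ^ k := by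
    have := h2
    have c : (((2:ℚ) ^ (∑ I ∈ M.filter (fun I => q ∈ I), n I) : ℚ) : K) = (((2:ℚ) ^ k : ℚ) : K) := by
      push_cast; exact this
    exact_mod_cast c
  exact zpow_right_injective₀ (by norm_num) (by norm_num) h3

end Mon

/-! ### rational function fields -/

section Field

/-- a variable -/
noncomputable def xx {V : Type} (v : V) : Fr V := algebraMap (MvPolynomial V ℂ) (Fr V) (X v)

theorem flat_x (S : FlatCell) (v : S.V) : S.x v = xx v := rfl

variable {V W : Type}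

theorem liftF_algebraMap' (ι : V ↪ W) (f : MvPolynomial V ℂ) :
    liftF ι (algebraMap (MvPolynomial V ℂ) (Fr V) f) =
      algebraMap (MvPolynomial W ℂ) (Fr W) (rename ι f) := by
  rw [liftF, IsFractionRing.map, IsLocalization.map_eq]
  rfl

@[simp] theorem liftF_x (ι : V ↪ W) (v : V) : liftF ι (xx v) = xx (ι v) := by
  rw [xx, liftF_algebraMap', rename_X]; rfl

@[simp] theorem liftF_C (ι : V ↪ W) (a : ℂ) :
    liftF ι (algebraMap ℂ (Fr V) a) = algebraMap ℂ (Fr W) a := by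
  rw [IsScalarTower.algebraMap_apply ℂ (MvPolynomial V ℂ) (Fr V), liftF_algebraMap',
    IsScalarTower.algebraMap_apply ℂ (MvPolynomial W ℂ) (Fr W), algebraMap_eq, rename_C,
    algebraMap_eq]

theorem liftF_injective (ι : V ↪ W) : Function.Injective (liftF ι) := (liftF ι).injective

/-- subtraction-free elements -/
def PosF (f : Fr V) : Prop :=
  ∃ N D : MvPolynomial V ℕ, N ≠ 0 ∧ D ≠ 0 ∧
    f = eval₂ (Nat.castRingHom (Fr V)) xx N / eval₂ (Nat.castRingHom (Fr V)) xx D

theorem flat_Pos (S : FlatCell) (f : S.F) : S.Pos f ↔ PosF f := Iff.rfl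

theorem eval₂_xx (N : MvPolynomial V ℕ) : eval₂ (Nat.castRingHom (Fr V)) xx N =
    algebraMap (MvPolynomial V ℂ) (Fr V) (MvPolynomial.map (Nat.castRingHom ℂ) N) := by
  conv_rhs => rw [← eval₂_eta (MvPolynomial.map (Nat.castRingHom ℂ) N), hom_eval₂, eval₂_map]
  congr 1
  exact Subsingleton.elim _ _

theorem evN_ne_zero {N : MvPolynomial V ℕ} (h : N ≠ 0) :
    eval₂ (Nat.castRingHom (Fr V)) xx N ≠ 0 := by
  rw [eval₂_xx]
  intro h'
  apply h
  have := (IsFractionRing.injective (MvPolynomial V ℂ) (Fr V)) (h'.trans (map_zero _).symm)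
  exact MvPolynomial.map_injective _ Nat.cast_injective (this.trans (map_zero _).symm)

theorem PosF.ne_zero {f : Fr V} (h : PosF f) : f ≠ 0 := by
  obtain ⟨N, D, hN, hD, rfl⟩ := h
  exact div_ne_zero (evN_ne_zero hN) (evN_ne_zero hD)

theorem PosF.evN {N : MvPolynomial V ℕ} (h : N ≠ 0) :
    PosF (eval₂ (Nat.castRingHom (Fr V)) xx N) :=
  ⟨N, 1, h, one_ne_zero, by simp⟩

theorem PosF.one : PosF (1 : Fr V) := ⟨1, 1, one_ne_zero, one_ne_zero, by simp⟩

theorem PosF.natCast {n : ℕ} (hn : n ≠ 0) : PosF (n : Fr V) := by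
  refine ⟨C n, 1, ?_, one_ne_zero, by simp⟩
  rwa [Ne, C_eq_zero]

theorem PosF.x (v : V) : PosF (xx v) := ⟨X v, 1, X_ne_zero v, one_ne_zero, by simp⟩

theorem PosF.mul {f g : Fr V} (hf : PosF f) (hg : PosF g) : PosF (f * g) := by
  obtain ⟨N, D, hN, hD, rfl⟩ := hf
  obtain ⟨N', D', hN', hD', rfl⟩ := hg
  refine ⟨N * N', D * D', (natpoly_mul_ne_zero_iff _ _).mpr ⟨hN, hN'⟩,
    (natpoly_mul_ne_zero_iff _ _).mpr ⟨hD, hD'⟩, ?_⟩
  rw [eval₂_mul, eval₂_mul, div_mul_div_comm]

theorem PosF.inv {f : Fr V} (hf : PosF f) : PosF f⁻¹ := by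
  obtain ⟨N, D, hN, hD, rfl⟩ := hf
  exact ⟨D, N, hD, hN, inv_div _ _⟩

theorem PosF.div {f g : Fr V} (hf : PosF f) (hg : PosF g) : PosF (f / g) := by
  rw [div_eq_mul_inv]; exact hf.mul hg.inv

theorem PosF.add {f g : Fr V} (hf : PosF f) (hg : PosF g) : PosF (f + g) := by
  obtain ⟨N, D, hN, hD, rfl⟩ := hf
  obtain ⟨N', D', hN', hD', rfl⟩ := hg
  refine ⟨N * D' + D * N', D * D', ?_, (natpoly_mul_ne_zero_iff _ _).mpr ⟨hD, hD'⟩, ?_⟩
  · rw [natpoly_add_ne_zero_iff, natpoly_mul_ne_zero_iff]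
    exact Or.inl ⟨hN, hD'⟩
  · rw [eval₂_add, eval₂_mul, eval₂_mul, eval₂_mul, div_add_div _ _ (evN_ne_zero hD)
      (evN_ne_zero hD')]

theorem PosF.pow {f : Fr V} (hf : PosF f) (n : ℕ) : PosF (f ^ n) := by
  induction n with
  | zero => simpa using PosF.one
  | succ n ih => rw [pow_succ]; exact ih.mul hf

theorem PosF.zpow {f : Fr V} (hf : PosF f) (n : ℤ) : PosF (f ^ n) := by
  cases n with
  | ofNat n => simpa using hf.pow n
  | negSucc n => rw [zpow_negSucc]; exact (hf.pow _).inv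

theorem PosF.prod {ι : Type*} (s : Finset ι) (f : ι → Fr V) (h : ∀ i ∈ s, PosF (f i)) :
    PosF (∏ i ∈ s, f i) := by
  classical
  induction s using Finset.induction_on with
  | empty => simpa using PosF.one
  | insert a s ha ih =>
    rw [Finset.prod_insert ha]
    exact (h a (Finset.mem_insert_self _ _)).mul
      (ih fun i hi => h i (Finset.mem_insert_of_mem hi))

theorem PosF.sum {ι : Type*} (s : Finset ι) (hs : s.Nonempty) (f : ι → Fr V)
    (h : ∀ i ∈ s, PosF (f i)) : PosF (∑ i ∈ s, f i) := by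
  classical
  induction hs using Finset.Nonempty.cons_induction with
  | singleton a => simpa using h a (by simp)
  | cons a s ha hs ih =>
    rw [Finset.sum_cons]
    exact (h a (by simp)).add (ih fun i hi => h i (by simp [hi]))

/-- the value of a nonzero polynomial with natural coefficients at subtraction-free elements is
subtraction-free -/
theorem PosF.eval₂ {U : Type*} (y : U → Fr V) (hy : ∀ u, PosF (y u)) (N : MvPolynomial U ℕ)
    (hN : N ≠ 0) : PosF (MvPolynomial.eval₂ (Nat.castRingHom (Fr V)) y N) := by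
  rw [eval₂_eq]
  apply PosF.sum
  · exact support_nonempty.mpr hN
  · intro m hm
    refine PosF.mul (PosF.natCast (mem_support_iff.mp hm)) (PosF.prod _ _ fun i _ => ?_)
    exact (hy i).pow _

theorem PosF.liftF (ι : V ↪ W) {f : Fr V} (hf : PosF f) : PosF (liftF ι f) := by
  obtain ⟨N, D, hN, hD, rfl⟩ := hf
  have key : ∀ N : MvPolynomial V ℕ, ABCT.liftF ι (MvPolynomial.eval₂ (Nat.castRingHom (Fr V)) xx N) =
      MvPolynomial.eval₂ (Nat.castRingHom (Fr W)) (fun v => xx (ι v)) N := by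
    intro N
    rw [hom_eval₂]
    congr 1
    · exact Subsingleton.elim _ _
    · funext v; exact liftF_x ι v
  rw [map_div₀, key, key]
  exact (PosF.eval₂ _ (fun v => PosF.x _) _ hN).div (PosF.eval₂ _ (fun v => PosF.x _) _ hD)

/-- the scaling automorphism `x_v ↦ t_v x_v` -/
noncomputable def scal (t : V → ℂ) (ht : ∀ v, t v ≠ 0) : Fr V →+* Fr V :=
  IsFractionRing.map (A := MvPolynomial V ℂ) (B := MvPolynomial V ℂ)
    (j := (aeval (fun v => C (t v) * X v) : MvPolynomial V ℂ →ₐ[ℂ] MvPolynomial V ℂ).toRingHom)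
    (by
      apply Function.LeftInverse.injective
        (g := (aeval (fun v => C (t v)⁻¹ * X v) : MvPolynomial V ℂ →ₐ[ℂ] MvPolynomial V ℂ))
      intro f
      have : ((aeval (fun v => C (t v)⁻¹ * X v) : MvPolynomial V ℂ →ₐ[ℂ] MvPolynomial V ℂ).comp
          (aeval (fun v => C (t v) * X v) : MvPolynomial V ℂ →ₐ[ℂ] MvPolynomial V ℂ)) =
          AlgHom.id ℂ _ := by
        apply algHom_ext
        intro v
        simp only [AlgHom.comp_apply, aeval_X, map_mul, algHom_C, AlgHom.id_apply]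
        rw [algebraMap_eq, ← mul_assoc, ← C_mul, mul_inv_cancel₀ (ht v), C_1, one_mul]
      exact congrArg (fun g => g f) this)

@[simp] theorem scal_x (t : V → ℂ) (ht : ∀ v, t v ≠ 0) (v : V) :
    scal t ht (xx v) = algebraMap ℂ (Fr V) (t v) * xx v := by
  rw [scal, xx, IsFractionRing.map, IsLocalization.map_eq]
  show algebraMap _ _ (aeval (fun v => C (t v) * X v) (X v)) = _
  rw [aeval_X, map_mul, IsScalarTower.algebraMap_apply ℂ (MvPolynomial V ℂ) (Fr V), algebraMap_eq]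

@[simp] theorem scal_C (t : V → ℂ) (ht : ∀ v, t v ≠ 0) (a : ℂ) :
    scal t ht (algebraMap ℂ (Fr V) a) = algebraMap ℂ (Fr V) a := by
  rw [IsScalarTower.algebraMap_apply ℂ (MvPolynomial V ℂ) (Fr V), scal, IsFractionRing.map,
    IsLocalization.map_eq]
  show algebraMap _ _ (aeval (fun v => C (t v) * X v) (algebraMap ℂ _ a)) = _
  rw [AlgHom.commutes]

end Field

end ABCT
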