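import Mathlib

/-!
# ABCT varieties: flat cells and nets (MP_a17fcb_ag)

A flat cell is a family of vectors `z I = c^I * Δ I (u)` indexed by a finite set `M` of subsets of the
label set `ℕ`, where the `Δ I` are polynomials with natural coefficients.
-/

open MvPolynomial

namespace ABCT

/-- the rational function field over `ℂ` in the variables `V` -/
def Fr (V : Type) : Type := FractionRing (MvPolynomial V ℂ)

noncomputable instance (V : Type) : Field (Fr V) :=
  inferInstanceAs (Field (FractionRing (MvPolynomial V ℂ)))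

noncomputable instance (V : Type) : Algebra (MvPolynomial V ℂ) (Fr V) :=
  inferInstanceAs (Algebra (MvPolynomial V ℂ) (FractionRing (MvPolynomial V ℂ)))

noncomputable instance (V : Type) : Algebra ℂ (Fr V) :=
  inferInstanceAs (Algebra ℂ (FractionRing (MvPolynomial V ℂ)))

instance (V : Type) : IsFractionRing (MvPolynomial V ℂ) (Fr V) :=
  inferInstanceAs (IsFractionRing (MvPolynomial V ℂ) (FractionRing (MvPolynomial V ℂ)))

instance (V : Type) : IsScalarTower ℂ (MvPolynomial V ℂ) (Fr V) :=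
  inferInstanceAs (IsScalarTower ℂ (MvPolynomial V ℂ) (FractionRing (MvPolynomial V ℂ)))

instance (V : Type) : CharZero (Fr V) :=
  charZero_of_injective_algebraMap (algebraMap ℂ (Fr V)).injective

/-- Flat cell data: gap variables `G`, support `M`, polynomials `Δ I`. -/
structure FlatCell where
  G : Type
  M : Finset (Finset ℕ)
  Δ : Finset ℕ → MvPolynomial G ℕ

namespace FlatCell

variable (S : FlatCell)

/-- all variables: label variables `c i` (`Sum.inl i`) and gap variables `u h` (`Sum.inr h`). -/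
abbrev V : Type := ℕ ⊕ S.G

/-- the coordinate `p_S(I) = c^I Δ_I(u)`. -/
noncomputable def pol (I : Finset ℕ) : MvPolynomial S.V ℕ :=
  (∏ i ∈ I, X (Sum.inl i)) * rename Sum.inr (S.Δ I)

/-- evaluation of `p_S(I)` in a commutative semiring. -/
noncomputable def ev {R : Type*} [CommSemiring R] (x : S.V → R) (I : Finset ℕ) : R :=
  eval₂ (Nat.castRingHom R) x (S.pol I)

/-- well-formedness of a flat cell. -/
structure Wf : Prop where
  ne : ∀ I, S.Δ I ≠ 0 ↔ I ∈ S.M
  nonempty : S.M.Nonempty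
  card : ∀ I ∈ S.M, ∀ J ∈ S.M, I.card = J.card

/-- the positive points (a cone in `Finset ℕ → ℝ`). -/
def Z : Set (Finset ℕ → ℝ) :=
  {z | ∃ x : S.V → ℝ, (∀ v, 0 < x v) ∧ z = S.ev x}

/-- the function field of all variables, over `ℂ`. -/
abbrev F : Type := Fr S.V

/-- a variable as an element of `F`. -/
noncomputable def x (v : S.V) : S.F := algebraMap (MvPolynomial S.V ℂ) S.F (X v)

/-- the coordinate `p_S(I)` as an element of `F`. -/
noncomputable def P (I : Finset ℕ) : S.F := S.ev S.x I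

/-- Laurent monomial. -/
noncomputable def mono (m : S.V →₀ ℤ) : S.F := m.prod fun v n => S.x v ^ n

/-- cast of an exponent vector to an integer vector. -/
noncomputable def zexp {W : Type*} (μ : W →₀ ℕ) : W →₀ ℤ :=
  Finsupp.mapRange (fun n : ℕ => (n : ℤ)) (by simp) μ

/-- the degree zero Laurent monomials in the `P I`, `I ∈ M'`. -/
def Mon (M' : Finset (Finset ℕ)) {K : Type*} [Field K] (p : Finset ℕ → K) : Set K :=
  {f | ∃ n : Finset ℕ → ℤ, ∑ I ∈ M', n I = 0 ∧ f = ∏ I ∈ M', p I ^ n I}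

/-- the chart lattice. -/
noncomputable def Lam : AddSubgroup (S.V →₀ ℤ) :=
  AddSubgroup.closure {m | ∃ I ∈ S.M, ∃ J ∈ S.M, ∃ μ ∈ (S.pol I).support, ∃ ν ∈ (S.pol J).support,
    m = zexp μ - zexp ν}

/-- condition (G). -/
def HasG : Prop :=
  ∀ I ∈ S.M, ∀ μ ∈ (S.pol I).support, S.P I / S.mono (zexp μ) ∈ Mon S.M S.P

/-- subtraction-free elements. -/
def Pos (f : S.F) : Prop :=
  ∃ N D : MvPolynomial S.V ℕ, N ≠ 0 ∧ D ≠ 0 ∧
    f = eval₂ (Nat.castRingHom S.F) S.x N / eval₂ (Nat.castRingHom S.F) S.x D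

/-- the subfield generated by the gap variables. -/
noncomputable def gapField : IntermediateField ℂ S.F :=
  IntermediateField.adjoin ℂ (Set.range fun h : S.G => S.x (Sum.inr h))

/-- the subfield generated by the chart monomials without label variables. -/
noncomputable def gapLamField : IntermediateField ℂ S.F :=
  IntermediateField.adjoin ℂ {f | ∃ m ∈ S.Lam, (∀ i : ℕ, m (Sum.inl i) = 0) ∧ f = S.mono m}

end FlatCell

open FlatCell

/-- the parameter of a facet degeneration. -/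
noncomputable abbrev sVar (K : Type*) [Field K] : RatFunc K := RatFunc.X

/-- Facet data: the degeneration of `S` to `S'` (see PLAN_ABCT, section 0). -/
structure FacetData (S S' : FlatCell) where
  lam : S.V → ℤ
  w : S.V → S'.F
  e : ℤ
  κ : S'.F

namespace FacetData

variable {S S' : FlatCell} (φ : FacetData S S')

/-- the substitution `ψ(x_v) = s^{λ_v} w_v`. -/
noncomputable def psi (v : S.V) : RatFunc S'.F := sVar S'.F ^ φ.lam v * RatFunc.C (φ.w v)

/-- `ψ(p_S(I))`. -/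
noncomputable def P (I : Finset ℕ) : RatFunc S'.F := S.ev φ.psi I

/-- `w^m`. -/
noncomputable def wmono (m : S.V →₀ ℤ) : S'.F := m.prod fun v n => φ.w v ^ n

/-- `⟨λ, m⟩`. -/
noncomputable def pair (m : S.V →₀ ℤ) : ℤ := m.sum fun v n => φ.lam v * n

/-- condition (Res) -/
def Res : Prop :=
  ∃ θ : {m : S.V →₀ ℤ // m ∈ S.Lam ∧ φ.pair m = 0} ≃ S'.Lam,
    (∀ a b c : {m : S.V →₀ ℤ // m ∈ S.Lam ∧ φ.pair m = 0}, c.1 = a.1 + b.1 →
      (θ c : S'.V →₀ ℤ) = θ a + θ b) ∧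
    (∀ m, φ.wmono m.1 / S'.mono (θ m : S'.V →₀ ℤ) ∈ S'.gapLamField) ∧
    (∀ m, (∀ i : ℕ, m.1 (Sum.inl i) = 0) ↔ ∀ i : ℕ, (θ m : S'.V →₀ ℤ) (Sum.inl i) = 0) ∧
    (∀ m, (∀ i : ℕ, m.1 (Sum.inl i) = 0) → φ.wmono m.1 = S'.mono (θ m : S'.V →₀ ℤ))

/-- validity of facet data, conditions (R1), (R2), (R3), (R3s), (Res). -/
structure Ok : Prop where
  wpos : ∀ v, S'.Pos (φ.w v)
  wlab : ∀ i : ℕ, φ.w (Sum.inl i) / S'.x (Sum.inl i) ∈ S'.gapField
  wgap : ∀ h : S.G, φ.w (Sum.inr h) ∈ S'.gapField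
  kpos : S'.Pos φ.κ
  kgap : φ.κ ∈ S'.gapField
  sub : S'.M ⊂ S.M
  r2 : ∀ I ∈ S.M, ∃ R : Polynomial S'.F,
    φ.P I = sVar S'.F ^ φ.e * RatFunc.C φ.κ *
      (RatFunc.C (S'.P I) + sVar S'.F * algebraMap (Polynomial S'.F) (RatFunc S'.F) R)
  r3 : ∀ I ∈ S'.M, ∀ μ ∈ (S'.pol I).support,
    RatFunc.C (S'.mono (zexp μ)) * (sVar S'.F ^ φ.e * RatFunc.C φ.κ) / φ.P I ∈ Mon S'.M φ.P
  r3s : ∃ I₁ ∈ S.M, I₁ ∉ S'.M ∧ ∃ I₀ ∈ S'.M, ∃ h ∈ Mon S'.M φ.P, ∃ y : S'.F, y ≠ 0 ∧
    h * φ.P I₁ / φ.P I₀ = sVar S'.F * RatFunc.C y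
  res : φ.Res
  one : ∃ m ∈ S.Lam, φ.pair m = 1

end FacetData

/-! ## Nets -/

/-- expressions for the cells of `V(k,n)_{≥0}`. -/
inductive Net : Type
  | black (l : Finset ℕ)
  | white (l : Finset ℕ)
  | gen (l : List ℕ) (r : ℕ)
  | dsum (S T : Net)
  | tsum (S T : Net) (q : ℕ)

namespace Net

/-- labels -/
def E : Net → Finset ℕ
  | black l => l
  | white l => l
  | gen l _ => l.toFinset
  | dsum S T => S.E ∪ T.E
  | tsum S T q => S.E.erase q ∪ T.E.erase q

/-- rank -/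
def rk : Net → ℕ
  | black _ => 1
  | white l => l.card - 1
  | gen _ r => r
  | dsum S T => S.rk + T.rk
  | tsum S T _ => S.rk + T.rk - 1

/-- gap variables -/
@[reducible] def G : Net → Type
  | black _ => Empty
  | white _ => Empty
  | gen l _ => Fin (l.length - 2)
  | dsum S T => S.G ⊕ T.G
  | tsum S T _ => S.G ⊕ T.G

/-- bases -/
def M : Net → Finset (Finset ℕ)
  | black l => l.image fun x => {x}
  | white l => l.image fun x => l.erase x
  | gen l r => l.toFinset.powersetCard r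
  | dsum S T => (S.M ×ˢ T.M).image fun p => p.1 ∪ p.2
  | tsum S T q => ((S.M ×ˢ T.M).filter fun p => (q ∈ p.1 ∧ q ∉ p.2) ∨ (q ∉ p.1 ∧ q ∈ p.2)).image
      fun p => (p.1 ∪ p.2).erase q

/-- `D a b = u_a + ... + u_{b-1}`. -/
noncomputable def D (n a b : ℕ) : MvPolynomial (Fin n) ℕ :=
  ∑ h ∈ Finset.univ.filter (fun h : Fin n => a ≤ h.1 ∧ h.1 < b), X h

/-- the pairs of nonroot positions `a < b` of the list whose labels lie in `I`. -/
def prs (l : List ℕ) (I : Finset ℕ) : Finset (ℕ × ℕ) :=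
  ((Finset.range (l.length - 1)) ×ˢ (Finset.range (l.length - 1))).filter
    fun p => p.1 < p.2 ∧ l.getD p.1 0 ∈ I ∧ l.getD p.2 0 ∈ I

/-- the polynomials `Δ` -/
noncomputable def Δ : (S : Net) → Finset ℕ → MvPolynomial S.G ℕ
  | black l, I => if I ∈ (black l).M then 1 else 0
  | white l, I => if I ∈ (white l).M then 1 else 0
  | gen l r, I => if I ∈ (gen l r).M then ∏ p ∈ prs l I, D (l.length - 2) p.1 p.2 else 0
  | dsum S T, I => if I ⊆ S.E ∪ T.E then
      rename Sum.inl (S.Δ (I ∩ S.E)) * rename Sum.inr (T.Δ (I ∩ T.E)) else 0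
  | tsum S T q, I => if I ⊆ S.E.erase q ∪ T.E.erase q then
      rename Sum.inl (S.Δ (I ∩ S.E.erase q)) * rename Sum.inr (T.Δ (insert q (I ∩ T.E.erase q))) +
      rename Sum.inl (S.Δ (insert q (I ∩ S.E.erase q))) * rename Sum.inr (T.Δ (I ∩ T.E.erase q))
      else 0

/-- the flat cell of a net -/
@[reducible] noncomputable def flat (S : Net) : FlatCell := ⟨S.G, S.M, S.Δ⟩

/-- `q` is alive: in some bases and not in some bases -/
def Alive (S : Net) (q : ℕ) : Prop := (∃ I ∈ S.M, q ∈ I) ∧ (∃ I ∈ S.M, q ∉ I)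

/-- loop -/
def Loop (S : Net) (q : ℕ) : Prop := ∀ I ∈ S.M, q ∉ I

/-- coloop -/
def Coloop (S : Net) (q : ℕ) : Prop := ∀ I ∈ S.M, q ∈ I

/-- validity of nets -/
def Valid : Net → Prop
  | black l => l.Nonempty
  | white l => l.Nonempty
  | gen l r => l.Nodup ∧ 2 ≤ r ∧ r + 2 ≤ l.length
  | dsum S T => S.Valid ∧ T.Valid ∧ Disjoint S.E T.E
  | tsum S T q => S.Valid ∧ T.Valid ∧ 1 ≤ S.rk ∧ 1 ≤ T.rk ∧ q ∈ S.E ∧ q ∈ T.E ∧
      Disjoint (S.E.erase q) (T.E.erase q) ∧ ((S.Alive q ∧ T.Alive q) ∨ (S.Loop q ∧ T.Coloop q) ∨ (S.Coloop q ∧ T.Loop q))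

/-- one-vertex nets: generic, or with three labels -/
inductive IsVtx : List ℕ → ℕ → Net → Prop
  | gen (l : List ℕ) (r : ℕ) (h₁ : 2 ≤ r) (h₂ : r + 2 ≤ l.length) : IsVtx l r (gen l r)
  | black (l : List ℕ) (h : l.length = 3) : IsVtx l 1 (black l.toFinset)
  | white (l : List ℕ) (h : l.length = 3) : IsVtx l 2 (white l.toFinset)

/-- facets -/
inductive Facet : Net → Net → Prop
  | black (l : Finset ℕ) (x : ℕ) (hx : x ∈ l) (hl : 2 ≤ l.card) :
      Facet (black l) (dsum (white {x}) (black (l.erase x)))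
  | white (l : Finset ℕ) (x : ℕ) (hx : x ∈ l) (hl : 2 ≤ l.card) :
      Facet (white l) (dsum (black {x}) (white (l.erase x)))
  | gen (L A R : List ℕ) (ρ q d r : ℕ) (SA SB : Net) (hq : q ∉ L ++ A ++ R ++ [ρ])
      (hA : IsVtx (A ++ [q]) (d + 1) SA) (hB : IsVtx (L ++ [q] ++ R ++ [ρ]) r SB) :
      Facet (gen (L ++ A ++ R ++ [ρ]) (d + r)) (tsum SA SB q)
  | dsumL (S T S' : Net) (h : Facet S S') : Facet (dsum S T) (dsum S' T)
  | dsumR (S T T' : Net) (h : Facet T T') : Facet (dsum S T) (dsum S T')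
  | tsumL (S T S' : Net) (q : ℕ) (hq : S.Alive q → S'.Alive q) (h : Facet S S') :
      Facet (tsum S T q) (tsum S' T q)
  | tsumR (S T T' : Net) (q : ℕ) (hq : T.Alive q → T'.Alive q) (h : Facet T T') :
      Facet (tsum S T q) (tsum S T' q)
  | tsumB (S T S' T' : Net) (q : ℕ) (hS : S.Alive q) (hT : T.Alive q)
      (hq : (S'.Loop q ∧ T'.Coloop q) ∨ (S'.Coloop q ∧ T'.Loop q))
      (h : Facet S S') (h' : Facet T T') : Facet (tsum S T q) (tsum S' T' q)

end Net

end ABCT
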