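import Pool.Agent.Helper32_ABCT.Stmts2

/-!
# Contexts (MP_a17fcb_ag, part E)
-/

open MvPolynomial

namespace ABCT

open FlatCell

/-- contexts: nets with a hole -/
inductive Ctx : Type
  | hole
  | dsumL (C : Ctx) (T : Net)
  | dsumR (T : Net) (C : Ctx)
  | tsumL (C : Ctx) (T : Net) (q : ℕ)
  | tsumR (T : Net) (C : Ctx) (q : ℕ)

namespace Ctx

/-- filling the hole -/
def app : Ctx → Net → Net
  | hole, N => N
  | dsumL C T, N => Net.dsum (C.app N) T
  | dsumR T C, N => Net.dsum T (C.app N)
  | tsumL C T q, N => Net.tsum (C.app N) T q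
  | tsumR T C q, N => Net.tsum T (C.app N) q

/-- the gap variables outside the hole -/
@[reducible] def R : Ctx → Type
  | hole => Empty
  | dsumL C T => C.R ⊕ T.G
  | dsumR T C => T.G ⊕ C.R
  | tsumL C T _ => C.R ⊕ T.G
  | tsumR T C _ => T.G ⊕ C.R

/-- the gap variables of `C.app N` -/
def ge : (C : Ctx) → (N : Net) → (C.app N).G ≃ N.G ⊕ C.R
  | hole, N => (Equiv.sumEmpty N.G Empty).symm
  | dsumL C T, N => (Equiv.sumCongr (C.ge N) (Equiv.refl T.G)).trans
      (Equiv.sumAssoc N.G C.R T.G)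
  | dsumR T C, N => ((Equiv.sumCongr (Equiv.refl T.G) (C.ge N)).trans
      (Equiv.sumAssoc T.G N.G C.R).symm).trans
      ((Equiv.sumCongr (Equiv.sumComm T.G N.G) (Equiv.refl C.R)).trans
        (Equiv.sumAssoc N.G T.G C.R))
  | tsumL C T _, N => (Equiv.sumCongr (C.ge N) (Equiv.refl T.G)).trans
      (Equiv.sumAssoc N.G C.R T.G)
  | tsumR T C _, N => ((Equiv.sumCongr (Equiv.refl T.G) (C.ge N)).trans
      (Equiv.sumAssoc T.G N.G C.R).symm).trans
      ((Equiv.sumCongr (Equiv.sumComm T.G N.G) (Equiv.refl C.R)).trans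
        (Equiv.sumAssoc N.G T.G C.R))

/-- the block of labels of `C.app N` at the label `x` of `N` -/
def blk : Ctx → ℕ → Finset ℕ
  | hole, x => {x}
  | dsumL C _, x => C.blk x
  | dsumR _ C, x => C.blk x
  | tsumL C T q, x => if q ∈ C.blk x then (C.blk x).erase q ∪ T.E.erase q else C.blk x
  | tsumR T C q, x => if q ∈ C.blk x then (C.blk x).erase q ∪ T.E.erase q else C.blk x

/-- gap of the hole as a gap of `C.app N` -/
def gi (C : Ctx) (N : Net) (h : N.G) : (C.app N).G := (C.ge N).symm (Sum.inl h)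

/-- outer gap as a gap of `C.app N` -/
def go (C : Ctx) (N : Net) (h : C.R) : (C.app N).G := (C.ge N).symm (Sum.inr h)

/-- the injection of the variables of `N` into those of `C.app N` -/
def vi (C : Ctx) (N : Net) : N.flat.V ↪ (C.app N).flat.V :=
  ⟨Sum.map id (C.gi N), Function.Injective.sumMap Function.injective_id (by
    intro a b h
    exact Sum.inl_injective ((C.ge N).symm.injective h))⟩

/-- the injection of the outer gap variables into the variables of `C.app N` -/
def vo (C : Ctx) (N : Net) : C.R ↪ (C.app N).flat.V :=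
  ⟨fun h => Sum.inr (C.go N h), fun a b h =>
    Sum.inr_injective ((C.ge N).symm.injective (Sum.inr_injective h))⟩

/-- facet data in context -/
noncomputable def fd : (C : Ctx) → {N N' : Net} → FacetData N.flat N'.flat →
    FacetData (C.app N).flat (C.app N').flat
  | hole, _, _, φ => φ
  | dsumL C T, _, _, φ => dsumLFD T (C.fd φ)
  | dsumR T C, _, _, φ => isoFD (Equiv.sumComm _ _) (Equiv.sumComm _ _) (dsumLFD T (C.fd φ))
  | tsumL C T q, _, _, φ => tsumLFD T q (C.fd φ)
  | tsumR T C q, _, _, φ =>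
      isoFD (Equiv.sumComm _ _) (Equiv.sumComm _ _) (tsumLFD T q (C.fd φ))

end Ctx

end ABCT
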