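import Pool.Agent.Helper32_ABCT.Slice

/-!
# Orders of values of homogeneous polynomials (MP_a17fcb_ag, EDEG, EPAIR)
-/

open MvPolynomial

namespace ABCT

open FlatCell

theorem ordge_exact {K : Type*} [Field K] (A : Polynomial K) (hA : A.coeff 0 ≠ 0) (N n : ℤ)
    (h : OrdGe (sVar K ^ N * algebraMap (Polynomial K) (RatFunc K) A) n) : n ≤ N := by
  by_contra hlt
  push Not at hlt
  obtain ⟨A', B', hB', e⟩ := h
  obtain ⟨j, hj⟩ : ∃ j : ℕ, n = N + (j + 1) := ⟨(n - N - 1).toNat, by omega⟩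
  have hs : sVar K ≠ 0 := s_ne_zero
  have hB0 : B' ≠ 0 := by rintro rfl; simp at hB'
  have hBne : algebraMap (Polynomial K) (RatFunc K) B' ≠ 0 := RatFunc.algebraMap_ne_zero hB0
  rw [hj, zpow_add₀ hs, mul_assoc] at e
  have e2 := mul_left_cancel₀ (zpow_ne_zero N hs) e
  have e3 : algebraMap (Polynomial K) (RatFunc K) (A * B') =
      algebraMap (Polynomial K) (RatFunc K) (Polynomial.X ^ (j + 1) * A') := by
    rw [map_mul, e2, map_mul, map_pow, RatFunc.algebraMap_X]
    have : sVar K ^ ((j : ℤ) + 1) = sVar K ^ (j + 1) := by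
      rw [← zpow_natCast]; congr 1
    rw [this]
    field_simp
  have e4 := RatFunc.algebraMap_injective K e3
  have e5 := congrArg (fun p => Polynomial.coeff p 0) e4
  simp only [Polynomial.mul_coeff_zero, Polynomial.coeff_X_pow] at e5
  rw [if_neg (by omega), zero_mul] at e5
  exact (mul_ne_zero hA hB') e5

theorem shf_prod_eval {K₀ K : Type*} [CommRing K₀] [Field K] (H : MvPolynomial ℕ K₀)
    (y : ℕ → RatFunc K) (g : ℕ → K) (a : RatFunc K)
    (hy : ∀ k, degreeOf (k + 1) H ≠ 0 → y (k + 1) = a * RatFunc.C (g k)) (β : ℕ →₀ ℕ)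
    (hβ : β ∈ H.support) :
    ((shf β).prod fun k n => y (k + 1) ^ n) = a ^ ((shf β).sum fun _ n => n) *
      RatFunc.C ((shf β).prod fun k n => g k ^ n) := by
  rw [Finsupp.prod, Finsupp.sum, Finsupp.prod, ← Finset.prod_pow_eq_pow_sum, map_prod,
    ← Finset.prod_mul_distrib]
  apply Finset.prod_congr rfl
  intro k hk
  rw [hy k, mul_pow, map_pow]
  intro h
  have := monomial_le_degreeOf (k + 1) hβ
  rw [h] at this
  rw [Finsupp.mem_support_iff, shf_apply] at hk
  omega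

theorem homog_shf {K₀ : Type*} [CommRing K₀] {H : MvPolynomial ℕ K₀} {dH : ℕ}
    (hH : H.IsHomogeneous dH) {β : ℕ →₀ ℕ} (hβ : β ∈ H.support) :
    β 0 + ((shf β).sum fun _ n => n) = dH := by
  have h1 := hH (mem_support_iff.mp hβ)
  rw [Finsupp.weight_apply] at h1
  simp only [Pi.one_apply, smul_eq_mul, mul_one] at h1
  rw [← deg_shf β, h1]

/-- values at `y 0 = 1`, `y (k+1) = s g_k` -/
theorem degx {K₀ K : Type*} [Field K₀] [Field K] (κ : K₀ →+* K) (H : MvPolynomial ℕ K₀) (dH : ℕ)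
    (hH : H.IsHomogeneous dH) (y : ℕ → RatFunc K) (g : ℕ → K) (hy0 : y 0 = 1)
    (hy : ∀ k, degreeOf (k + 1) H ≠ 0 → y (k + 1) = sVar K * RatFunc.C (g k))
    (hnz : eval₂ κ g (slice H (degreeOf 0 H)) ≠ 0) (n : ℤ)
    (ho : OrdGe (eval₂ (RatFunc.C.comp κ) y H) n) : n ≤ dH - degreeOf 0 H := by
  have hterm : ∀ β ∈ H.support, (RatFunc.C.comp κ) (coeff β H) * ∏ i ∈ β.support, y i ^ β i =
      sVar K ^ ((dH : ℤ) - degreeOf 0 H) * algebraMap (Polynomial K) (RatFunc K)
        (Polynomial.C (κ (coeff β H) * (shf β).prod fun k n => g k ^ n) *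
          Polynomial.X ^ (degreeOf 0 H - β 0)) := by
    intro β hβ
    have e1 : ∏ i ∈ β.support, y i ^ β i = β.prod fun i n => y i ^ n := rfl
    have e2 := homog_shf hH hβ
    have e3 := monomial_le_degreeOf 0 hβ
    rw [e1, prod_shf, hy0, one_pow, one_mul, shf_prod_eval H y g _ hy β hβ, map_mul, map_pow,
      RatFunc.algebraMap_X, RatFunc.algebraMap_C, RingHom.comp_apply, map_mul]
    obtain ⟨m, hm⟩ : ∃ m, ((shf β).sum fun _ n => n) = m := ⟨_, rfl⟩
    rw [hm] at e2 ⊢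
    have e4 : sVar K ^ m =
        sVar K ^ ((dH : ℤ) - degreeOf 0 H) * sVar K ^ (degreeOf 0 H - β 0) := by
      rw [← zpow_natCast, ← zpow_natCast, ← zpow_add₀ s_ne_zero]
      congr 1
      push_cast [e3]
      omega
    rw [e4]
    ring
  have hX : eval₂ (RatFunc.C.comp κ) y H = sVar K ^ ((dH : ℤ) - degreeOf 0 H) *
      algebraMap (Polynomial K) (RatFunc K) (∑ β ∈ H.support,
        Polynomial.C (κ (coeff β H) * (shf β).prod fun k n => g k ^ n) *
          Polynomial.X ^ (degreeOf 0 H - β 0)) := by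
    rw [eval₂_eq, Finset.sum_congr rfl hterm, map_sum, Finset.mul_sum]
  rw [hX] at ho
  refine ordge_exact _ ?_ _ _ ho
  rw [Polynomial.finsetSum_coeff]
  rw [eval_slice, Finset.sum_filter] at hnz
  convert hnz using 1
  apply Finset.sum_congr rfl
  intro β hβ
  have e3 := monomial_le_degreeOf 0 hβ
  rw [Polynomial.coeff_C_mul, Polynomial.coeff_X_pow]
  by_cases h : β 0 = degreeOf 0 H
  · rw [if_pos h, if_pos (by omega), mul_one]
  · rw [if_neg h, if_neg (by omega), mul_zero]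

/-- values at `y 0 = s`, `y (k+1) = g_k`: here `e` is the minimal exponent of `X 0` -/
theorem minx {K₀ K : Type*} [Field K₀] [Field K] (κ : K₀ →+* K) (H : MvPolynomial ℕ K₀)
    (y : ℕ → RatFunc K) (g : ℕ → K) (e : ℕ) (hy0 : y 0 = sVar K)
    (hy : ∀ k, degreeOf (k + 1) H ≠ 0 → y (k + 1) = RatFunc.C (g k))
    (he : ∀ β ∈ H.support, e ≤ β 0) (hnz : eval₂ κ g (slice H e) ≠ 0) (n : ℤ)
    (ho : OrdGe (eval₂ (RatFunc.C.comp κ) y H) n) : n ≤ e := by
  have hterm : ∀ β ∈ H.support, (RatFunc.C.comp κ) (coeff β H) * ∏ i ∈ β.support, y i ^ β i =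
      sVar K ^ (e : ℤ) * algebraMap (Polynomial K) (RatFunc K)
        (Polynomial.C (κ (coeff β H) * (shf β).prod fun k n => g k ^ n) *
          Polynomial.X ^ (β 0 - e)) := by
    intro β hβ
    have e1 : ∏ i ∈ β.support, y i ^ β i = β.prod fun i n => y i ^ n := rfl
    have e3 := he β hβ
    rw [e1, prod_shf, hy0, shf_prod_eval H y g 1 (by simpa using hy) β hβ, map_mul, map_pow,
      RatFunc.algebraMap_X, RatFunc.algebraMap_C, RingHom.comp_apply, map_mul, one_pow, one_mul]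
    have e4 : sVar K ^ β 0 = sVar K ^ (e : ℤ) * sVar K ^ (β 0 - e) := by
      rw [← zpow_natCast, ← zpow_natCast, ← zpow_add₀ s_ne_zero]
      congr 1
      push_cast [e3]
      omega
    rw [e4]
    ring
  have hX : eval₂ (RatFunc.C.comp κ) y H = sVar K ^ (e : ℤ) *
      algebraMap (Polynomial K) (RatFunc K) (∑ β ∈ H.support,
        Polynomial.C (κ (coeff β H) * (shf β).prod fun k n => g k ^ n) *
          Polynomial.X ^ (β 0 - e)) := by
    rw [eval₂_eq, Finset.sum_congr rfl hterm, map_sum, Finset.mul_sum]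
  rw [hX] at ho
  refine ordge_exact _ ?_ _ _ ho
  rw [Polynomial.finsetSum_coeff]
  rw [eval_slice, Finset.sum_filter] at hnz
  convert hnz using 1
  apply Finset.sum_congr rfl
  intro β hβ
  have e3 := he β hβ
  rw [Polynomial.coeff_C_mul, Polynomial.coeff_X_pow]
  by_cases h : β 0 = e
  · rw [if_pos h, if_pos (by omega), mul_one]
  · rw [if_neg h, if_neg (by omega), mul_zero]

end ABCT
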