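import Pool.Agent.Helper32_ABCT.EStmts

/-!
# Tools for EPAIR and EDEG (MP_a17fcb_ag)
-/

open MvPolynomial

namespace ABCT

open FlatCell

theorem netG_finite (S : Net) : Finite S.G := by
  induction S with
  | black l => exact (inferInstance : Finite Empty)
  | white l => exact (inferInstance : Finite Empty)
  | gen l r => exact (inferInstance : Finite (Fin (l.length - 2)))
  | dsum S T hS hT => exact (@Finite.instSum S.G T.G hS hT)
  | tsum S T q hS hT => exact (@Finite.instSum S.G T.G hS hT)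

section

variable (C : Ctx) (l l' : List ℕ) (ρ r : ℕ) (ε : Finset ℕ → ℤ) {N' : Net}
  (φ : FacetData (Net.gen (l' ++ [ρ]) r).flat N'.flat)

/-- the value of the inner gap `k` of the twist -/
noncomputable def psk (k : ℕ) : RatFunc (C.app N').flat.F :=
  if hk : k < (l' ++ [ρ]).length - 2 then
    (C.fd φ).psi (Sum.inr (C.gi (Net.gen (l' ++ [ρ]) r) (⟨k, hk⟩ :
      Fin ((l' ++ [ρ]).length - 2)))) else 0

/-- the value of `t_x` in the twist -/
noncomputable def tt (x : ℕ) : RatFunc (C.app N').flat.F :=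
  ∑ k ∈ Finset.range ((l' ++ [ρ]).idxOf x), psk C l' ρ r φ k

theorem aeval_tv (x : ℕ) (hx : (l' ++ [ρ]).idxOf x ≤ (l' ++ [ρ]).length - 2) :
    aeval (fun k : Fin ((l' ++ [ρ]).length - 2) =>
      (C.fd φ).psi (Sum.inr (C.gi (Net.gen (l' ++ [ρ]) r) k))) (tv (l' ++ [ρ]) x) =
      tt C l' ρ r φ x := by
  rw [tv, map_sum, tt]
  simp only [aeval_X]
  have h1 : ∑ k ∈ Finset.range ((l' ++ [ρ]).idxOf x), psk C l' ρ r φ k =
      ∑ k ∈ (Finset.range ((l' ++ [ρ]).length - 2)).filter (fun k => k < (l' ++ [ρ]).idxOf x),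
        psk C l' ρ r φ k := by
    apply Finset.sum_congr _ fun _ _ => rfl
    ext k
    simp only [Finset.mem_range, Finset.mem_filter]
    omega
  rw [h1, Finset.sum_filter, Finset.sum_filter, Finset.sum_range]
  apply Finset.sum_congr rfl
  intro k _
  rw [psk, dif_pos k.2]

theorem gap_gi (h : Fin ((l ++ [ρ]).length - 2))
    (h1 : (l' ++ [ρ]).idxOf ((l ++ [ρ]).getD (h.1 + 1) 0) ≤ (l' ++ [ρ]).length - 2)
    (h2 : (l' ++ [ρ]).idxOf ((l ++ [ρ]).getD h.1 0) ≤ (l' ++ [ρ]).length - 2) :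
    (twist C (l ++ [ρ]) (l' ++ [ρ]) r ε).gap (C.fd φ) (C.gi (Net.gen (l ++ [ρ]) r) h) =
      tt C l' ρ r φ ((l ++ [ρ]).getD (h.1 + 1) 0) - tt C l' ρ r φ ((l ++ [ρ]).getD h.1 0) := by
  have e1 : twL C (l' ++ [ρ]) (l ++ [ρ]) r (C.gi (Net.gen (l ++ [ρ]) r) h) =
      rename (C.gi (Net.gen (l' ++ [ρ]) r)) (tv (l' ++ [ρ]) ((l ++ [ρ]).getD (h.1 + 1) 0) -
        tv (l' ++ [ρ]) ((l ++ [ρ]).getD h.1 0)) := by
    simp only [twL, Ctx.gi, Equiv.apply_symm_apply]
  rw [Twist.gap]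
  show aeval _ (twL C (l' ++ [ρ]) (l ++ [ρ]) r (C.gi (Net.gen (l ++ [ρ]) r) h)) = _
  rw [e1, aeval_rename, map_sub]
  congr 1
  · exact aeval_tv C l' ρ r φ _ h1
  · exact aeval_tv C l' ρ r φ _ h2

theorem gap_go (h : C.R) :
    (twist C (l ++ [ρ]) (l' ++ [ρ]) r ε).gap (C.fd φ) (C.go (Net.gen (l ++ [ρ]) r) h) =
      (C.fd φ).psi (Sum.inr (C.go (Net.gen (l' ++ [ρ]) r) h)) := by
  have e1 : twL C (l' ++ [ρ]) (l ++ [ρ]) r (C.go (Net.gen (l ++ [ρ]) r) h) =
      X (C.go (Net.gen (l' ++ [ρ]) r) h) := by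
    simp only [twL, Ctx.go, Equiv.apply_symm_apply]
  rw [Twist.gap]
  show aeval _ (twL C (l' ++ [ρ]) (l ++ [ρ]) r (C.go (Net.gen (l ++ [ρ]) r) h)) = _
  rw [e1, aeval_X]

theorem idx_lt (hl : l.Perm l') (a : ℕ) (ha : a < l.length) :
    (l' ++ [ρ]).idxOf ((l ++ [ρ]).getD a 0) ≤ (l' ++ [ρ]).length - 2 := by
  have h1 : (l ++ [ρ]).getD a 0 = l[a] := by
    rw [List.getD_eq_getElem _ _ (by simp; omega), List.getElem_append_left ha]
  have h2 : l[a] ∈ l' := hl.mem_iff.mp (List.getElem_mem ha)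
  rw [h1, List.idxOf_append_of_mem h2]
  have := List.idxOf_lt_length_of_mem h2
  simp only [List.length_append, List.length_singleton]
  omega

/-- values of the `D` -/
theorem eval_D (hl : l.Perm l') (a b : ℕ) (hab : a ≤ b) (hb : b < l.length) :
    eval₂ (Nat.castRingHom _) (fun h => (twist C (l ++ [ρ]) (l' ++ [ρ]) r ε).gap (C.fd φ)
      (C.gi (Net.gen (l ++ [ρ]) r) h)) (Net.D ((l ++ [ρ]).length - 2) a b) =
      tt C l' ρ r φ ((l ++ [ρ]).getD b 0) - tt C l' ρ r φ ((l ++ [ρ]).getD a 0) := by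
  rw [Net.D, ← coe_eval₂Hom, map_sum]
  simp only [coe_eval₂Hom, eval₂_X]
  have hlen : (l ++ [ρ]).length - 2 = l.length - 1 := by simp
  have h1 : ∀ h : Fin ((l ++ [ρ]).length - 2),
      (twist C (l ++ [ρ]) (l' ++ [ρ]) r ε).gap (C.fd φ) (C.gi (Net.gen (l ++ [ρ]) r) h) =
      tt C l' ρ r φ ((l ++ [ρ]).getD (h.1 + 1) 0) - tt C l' ρ r φ ((l ++ [ρ]).getD h.1 0) := by
    intro h
    have := h.2
    exact gap_gi C l l' ρ r ε φ h (idx_lt l l' ρ hl _ (by omega)) (idx_lt l l' ρ hl _ (by omega))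
  rw [Finset.sum_congr rfl fun h _ => h1 h, Finset.sum_filter]
  have h2 := Finset.sum_range (n := (l ++ [ρ]).length - 2) (fun k => if a ≤ k ∧ k < b then
    (tt C l' ρ r φ ((l ++ [ρ]).getD (k + 1) 0) - tt C l' ρ r φ ((l ++ [ρ]).getD k 0)) else 0)
  refine Eq.trans h2.symm ?_
  rw [← Finset.sum_filter]
  have h3 : (Finset.range ((l ++ [ρ]).length - 2)).filter (fun k => a ≤ k ∧ k < b) =
      Finset.Ico a b := by
    ext k
    simp only [Finset.mem_filter, Finset.mem_range, Finset.mem_Ico]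
    omega
  rw [h3]
  exact Finset.sum_Ico_sub (fun k => tt C l' ρ r φ ((l ++ [ρ]).getD k 0)) hab

/-- TOOL B: the values of the polynomials `Δ I` of `C.app (gen (l ++ [ρ]) r)` -/
theorem eval_Delta (hl : l.Perm l') (J : Finset ℕ → Finset ℕ)
    (Rp : Finset ℕ → MvPolynomial C.R ℕ) (k : ℕ → ℕ)
    (hJ : CtxJ C (Net.gen (l ++ [ρ]) r) J Rp k) (I : Finset ℕ)
    (hI : I ∈ (C.app (Net.gen (l ++ [ρ]) r)).M) :
    eval₂ (Nat.castRingHom _) (fun h => (twist C (l ++ [ρ]) (l' ++ [ρ]) r ε).gap (C.fd φ) h)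
      ((C.app (Net.gen (l ++ [ρ]) r)).Δ I) =
    (∏ p ∈ Net.prs (l ++ [ρ]) (J I), (tt C l' ρ r φ ((l ++ [ρ]).getD p.2 0) -
      tt C l' ρ r φ ((l ++ [ρ]).getD p.1 0))) *
    eval₂ (Nat.castRingHom _) (fun h => (C.fd φ).psi (Sum.inr (C.go (Net.gen (l' ++ [ρ]) r) h)))
      (Rp I) := by
  obtain ⟨h1, h2, h3, -⟩ := hJ I hI
  rw [h3, eval₂_mul, eval₂_rename, eval₂_rename]
  congr 1
  · rw [Net.Δ, if_pos h1, ← coe_eval₂Hom, map_prod]
    apply Finset.prod_congr rfl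
    intro p hp
    rw [Net.prs, Finset.mem_filter, Finset.mem_product, Finset.mem_range, Finset.mem_range] at hp
    simp only [List.length_append, List.length_singleton] at hp
    rw [coe_eval₂Hom]
    exact eval_D C l l' ρ r ε φ hl p.1 p.2 (by omega) (by omega)
  · congr 1
    funext h
    exact gap_go C l l' ρ r ε φ h

/-- products over the gaps -/
theorem finprod_gaps {K : Type*} [CommMonoid K] (N : Net) (hf : Finite N.G) (hR : Finite C.R)
    (F : (C.app N).G → K) :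
    ∏ᶠ g, F g = (∏ᶠ k : N.G, F (C.gi N k)) * ∏ᶠ h : C.R, F (C.go N h) := by
  have := Fintype.ofFinite N.G
  have := Fintype.ofFinite C.R
  have : Finite (C.app N).G := Finite.of_equiv _ (C.ge N).symm
  have := Fintype.ofFinite (C.app N).G
  rw [finprod_eq_prod_of_fintype, finprod_eq_prod_of_fintype, finprod_eq_prod_of_fintype,
    ← Equiv.prod_comp (C.ge N).symm, Fintype.prod_sum_type]
  rfl

theorem ctxR_finite (C : Ctx) : Finite C.R := by
  induction C with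
  | hole => exact (inferInstance : Finite Empty)
  | dsumL C T ih => exact @Finite.instSum _ _ ih (netG_finite T)
  | dsumR T C ih => exact @Finite.instSum _ _ (netG_finite T) ih
  | tsumL C T q ih => exact @Finite.instSum _ _ ih (netG_finite T)
  | tsumR T C q ih => exact @Finite.instSum _ _ (netG_finite T) ih

/-- TOOL C: the factor `g` -/
theorem g_eq (hl : l.Perm l') (h0 : ∏ᶠ h : C.R,
    (C.fd φ).psi (Sum.inr (C.go (Net.gen (l' ++ [ρ]) r) h)) ≠ 0) :
    ((∏ᶠ k : (C.app (Net.gen (l' ++ [ρ]) r)).G, (C.fd φ).psi (Sum.inr k)) /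
      (∏ᶠ h : (C.app (Net.gen (l ++ [ρ]) r)).G,
        (twist C (l ++ [ρ]) (l' ++ [ρ]) r ε).gap (C.fd φ) h)) =
    (∏ k ∈ Finset.range (l'.length - 1), psk C l' ρ r φ k) /
      ∏ k ∈ Finset.range (l.length - 1), (tt C l' ρ r φ ((l ++ [ρ]).getD (k + 1) 0) -
        tt C l' ρ r φ ((l ++ [ρ]).getD k 0)) := by
  have e1 := finprod_gaps C (Net.gen (l' ++ [ρ]) r)
    (inferInstanceAs (Finite (Fin ((l' ++ [ρ]).length - 2)))) (ctxR_finite C)
    (fun k => (C.fd φ).psi (Sum.inr k))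
  have e2 := finprod_gaps C (Net.gen (l ++ [ρ]) r)
    (inferInstanceAs (Finite (Fin ((l ++ [ρ]).length - 2)))) (ctxR_finite C)
    (fun h => (twist C (l ++ [ρ]) (l' ++ [ρ]) r ε).gap (C.fd φ) h)
  rw [e1, e2]
  have e3 : ∏ᶠ h : C.R, (twist C (l ++ [ρ]) (l' ++ [ρ]) r ε).gap (C.fd φ)
      (C.go (Net.gen (l ++ [ρ]) r) h) = ∏ᶠ h : C.R,
      (C.fd φ).psi (Sum.inr (C.go (Net.gen (l' ++ [ρ]) r) h)) := by
    apply finprod_congr
    intro h
    exact gap_go C l l' ρ r ε φ h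
  rw [e3, mul_div_mul_right _ _ h0]
  congr 1
  · have : l'.length - 1 = (l' ++ [ρ]).length - 2 := by simp
    rw [this, Finset.prod_range]
    refine Eq.trans (finprod_eq_prod_of_fintype (α := Fin ((l' ++ [ρ]).length - 2)) _) ?_
    apply Finset.prod_congr rfl
    intro k _
    rw [psk, dif_pos k.2]
  · have : l.length - 1 = (l ++ [ρ]).length - 2 := by simp
    rw [this, Finset.prod_range]
    refine Eq.trans (finprod_eq_prod_of_fintype (α := Fin ((l ++ [ρ]).length - 2)) _) ?_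
    apply Finset.prod_congr rfl
    intro k _
    have := k.2
    have hlen : (l ++ [ρ]).length - 2 = l.length - 1 := by simp
    exact gap_gi C l l' ρ r ε φ k (idx_lt l l' ρ hl _ (by omega)) (idx_lt l l' ρ hl _ (by omega))

end

end ABCT
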