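import Pool.Agent.Helper32_ABCT.Vand

/-!
# Explicit facet data (MP_a17fcb_ag)
-/

open MvPolynomial

namespace ABCT

open FlatCell

/-- the field embedding induced by an injection of the variables -/
noncomputable def liftF {V W : Type} (ι : V ↪ W) :
    Fr V →+* Fr W :=
  IsFractionRing.map (A := MvPolynomial V ℂ) (B := MvPolynomial W ℂ) (j := (rename ι : MvPolynomial V ℂ →ₐ[ℂ] MvPolynomial W ℂ).toRingHom)
    (rename_injective ι ι.injective)

/-- black facet: the label `x` becomes a loop -/
noncomputable def blackFD (l : Finset ℕ) (x : ℕ) :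
    FacetData (Net.black l).flat (Net.dsum (Net.white {x}) (Net.black (l.erase x))).flat where
  lam := fun v => match v with
    | Sum.inl i => if i = x then 1 else 0
    | Sum.inr _ => 0
  w := fun v => match v with
    | Sum.inl i => FlatCell.x _ (Sum.inl i)
    | Sum.inr _ => 1
  e := 0
  κ := 1

/-- white facet: the label `x` becomes a coloop -/
noncomputable def whiteFD (l : Finset ℕ) (x : ℕ) :
    FacetData (Net.white l).flat (Net.dsum (Net.black {x}) (Net.white (l.erase x))).flat where
  lam := fun v => match v with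
    | Sum.inl i => if i = x then -1 else 0
    | Sum.inr _ => 0
  w := fun v => match v with
    | Sum.inl i => FlatCell.x _ (Sum.inl i)
    | Sum.inr _ => 1
  e := -1
  κ := 1

/-- the value of a polynomial in the gaps of `SA` in the field of `tsum SA SB q` -/
noncomputable def gvL (SA SB : Net) (q : ℕ) (f : MvPolynomial SA.G ℕ) : (Net.tsum SA SB q).flat.F :=
  eval₂ (Nat.castRingHom _)
    (fun h => (Net.tsum SA SB q).flat.x (Sum.inr (show (Net.tsum SA SB q).flat.G from Sum.inl h))) f

/-- the value of a polynomial in the gaps of `SB` in the field of `tsum SA SB q` -/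
noncomputable def gvR (SA SB : Net) (q : ℕ) (f : MvPolynomial SB.G ℕ) : (Net.tsum SA SB q).flat.F :=
  eval₂ (Nat.castRingHom _)
    (fun h => (Net.tsum SA SB q).flat.x (Sum.inr (show (Net.tsum SA SB q).flat.G from Sum.inr h))) f

/-- facet data of `gen` for the split `A | L q R ρ`; `gA`, `gB` are the gap values of the two
vertices (`a₀ = |L|`). -/
noncomputable def genFD (L A R : List ℕ) (ρ q d r : ℕ) (SA SB : Net)
    (gA : ℕ → MvPolynomial SA.G ℕ) (gB : ℕ → MvPolynomial SB.G ℕ) :
    FacetData (Net.gen (L ++ A ++ R ++ [ρ]) (d + r)).flat (Net.tsum SA SB q).flat where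
  lam := fun v => match v with
    | Sum.inl i => if i ∈ A then -(d : ℤ) else 0
    | Sum.inr h => if L.length ≤ (show Fin ((L ++ A ++ R ++ [ρ]).length - 2) from h).1 ∧
        (show Fin ((L ++ A ++ R ++ [ρ]).length - 2) from h).1 + 1 < L.length + A.length then 1 else 0
  w := fun v => match v with
    | Sum.inl i => FlatCell.x _ (Sum.inl i) *
        (if i ∈ L then
            (gvR SA SB q (∑ h ∈ Finset.Ico (L.idxOf i) L.length, gB h) ^ d)⁻¹
         else if i ∈ R then
            (gvR SA SB q (∑ h ∈ Finset.Ico L.length (L.length + 1 + R.idxOf i), gB h) ^ d)⁻¹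
         else 1)
    | Sum.inr h =>
        let k := (show Fin ((L ++ A ++ R ++ [ρ]).length - 2) from h).1
        if k < L.length then gvR SA SB q (gB k)
        else if k + 1 < L.length + A.length then gvL SA SB q (gA (k - L.length))
        else gvR SA SB q (gB (k + 1 - A.length))
  e := -((d * (d + 1) / 2 : ℕ) : ℤ)
  κ := 1

/-- injection of the variables of `S` into those of `dsum S T` -/
def vdL (S T : Net) : S.flat.V ↪ (Net.dsum S T).flat.V :=
  ⟨Sum.map id (fun h => (show (Net.dsum S T).flat.G from Sum.inl h)), by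
    apply Function.Injective.sumMap Function.injective_id
    intro a b h; exact Sum.inl_injective h⟩

/-- injection of the variables of `S` into those of `tsum S T q` -/
def vtL (S T : Net) (q : ℕ) : S.flat.V ↪ (Net.tsum S T q).flat.V :=
  ⟨Sum.map id (fun h => (show (Net.tsum S T q).flat.G from Sum.inl h)), by
    apply Function.Injective.sumMap Function.injective_id
    intro a b h; exact Sum.inl_injective h⟩

/-- facet data of `dsum` from the left summand -/
noncomputable def dsumLFD {S S' : Net} (T : Net) (φ : FacetData S.flat S'.flat) :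
    FacetData (Net.dsum S T).flat (Net.dsum S' T).flat where
  lam := fun v => match v with
    | Sum.inl i => if i ∈ T.E then 0 else φ.lam (Sum.inl i)
    | Sum.inr h => match (show S.G ⊕ T.G from h) with
      | Sum.inl h => φ.lam (Sum.inr h)
      | Sum.inr _ => 0
  w := fun v => match v with
    | Sum.inl i => if i ∈ T.E then FlatCell.x _ (Sum.inl i) else
        liftF (vdL S' T) (φ.w (Sum.inl i))
    | Sum.inr h => match (show S.G ⊕ T.G from h) with
      | Sum.inl h => liftF (vdL S' T) (φ.w (Sum.inr h))
      | Sum.inr h => FlatCell.x _ (Sum.inr (show (Net.dsum S' T).flat.G from Sum.inr h))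
  e := φ.e
  κ := liftF (vdL S' T) φ.κ

/-- facet data of `tsum` from the left summand -/
noncomputable def tsumLFD {S S' : Net} (T : Net) (q : ℕ) (φ : FacetData S.flat S'.flat) :
    FacetData (Net.tsum S T q).flat (Net.tsum S' T q).flat where
  lam := fun v => match v with
    | Sum.inl i => if i ∈ T.E.erase q then φ.lam (Sum.inl q) else φ.lam (Sum.inl i)
    | Sum.inr h => match (show S.G ⊕ T.G from h) with
      | Sum.inl h => φ.lam (Sum.inr h)
      | Sum.inr _ => 0
  w := fun v => match v with
    | Sum.inl i => if i ∈ T.E.erase q then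
          FlatCell.x _ (Sum.inl i) *
            liftF (vtL S' T q) (φ.w (Sum.inl q) / S'.flat.x (Sum.inl q))
        else liftF (vtL S' T q) (φ.w (Sum.inl i))
    | Sum.inr h => match (show S.G ⊕ T.G from h) with
      | Sum.inl h => liftF (vtL S' T q) (φ.w (Sum.inr h))
      | Sum.inr h => FlatCell.x _ (Sum.inr (show (Net.tsum S' T q).flat.G from Sum.inr h))
  e := φ.e + φ.lam (Sum.inl q) * (T.rk - 1 : ℕ)
  κ := liftF (vtL S' T q) (φ.κ * (φ.w (Sum.inl q) / S'.flat.x (Sum.inl q)) ^ (T.rk - 1))

/-- facet data of `tsum` when `q` dies on both sides; `e` identifies the gaps of `T'` and `T`. -/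
noncomputable def tsumBFD {S S' : Net} (T T' : Net) (q : ℕ) (e : T'.G ≃ T.G)
    (φ : FacetData S.flat S'.flat) :
    FacetData (Net.tsum S T q).flat (Net.tsum S' T' q).flat where
  lam := fun v => match v with
    | Sum.inl i => if i ∈ T.E.erase q then φ.lam (Sum.inl q) else φ.lam (Sum.inl i)
    | Sum.inr h => match (show S.G ⊕ T.G from h) with
      | Sum.inl h => φ.lam (Sum.inr h)
      | Sum.inr _ => 0
  w := fun v => match v with
    | Sum.inl i => if i ∈ T.E.erase q then
          FlatCell.x _ (Sum.inl i) *
            liftF (vtL S' T' q) (φ.w (Sum.inl q) / S'.flat.x (Sum.inl q))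
        else liftF (vtL S' T' q) (φ.w (Sum.inl i))
    | Sum.inr h => match (show S.G ⊕ T.G from h) with
      | Sum.inl h => liftF (vtL S' T' q) (φ.w (Sum.inr h))
      | Sum.inr h => FlatCell.x _ (Sum.inr
          (show (Net.tsum S' T' q).flat.G from Sum.inr (e.symm h)))
  e := φ.e + φ.lam (Sum.inl q) * (T.rk - 1 : ℕ)
  κ := liftF (vtL S' T' q) (φ.κ * (φ.w (Sum.inl q) / S'.flat.x (Sum.inl q)) ^ (T.rk - 1))

/-- isomorphism of flat cells: a bijection of the gap variables -/
def FlatIso (S S' : FlatCell) (e : S.G ≃ S'.G) : Prop :=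
  S.M = S'.M ∧ ∀ I, rename e (S.Δ I) = S'.Δ I

/-- transport of facet data along isomorphisms -/
noncomputable def isoFD {S S' T T' : FlatCell} (e : S.G ≃ S'.G) (f : T.G ≃ T'.G)
    (φ : FacetData S T) : FacetData S' T' where
  lam := fun v => φ.lam (Sum.map id e.symm v)
  w := fun v => liftF ⟨Sum.map id f, Function.Injective.sumMap Function.injective_id f.injective⟩
    (φ.w (Sum.map id e.symm v))
  e := φ.e
  κ := liftF ⟨Sum.map id f, Function.Injective.sumMap Function.injective_id f.injective⟩ φ.κ

end ABCT
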