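import Pool.Agent.Helper93_ABCT.StmtK

/-!
# Public form of the definitions of positive geometries (MP_a17fcb_ag)

The same definitions as in `Helper93_ABCT/Defs.lean`, with short names for the function field of a
variety and its structure.

Projective space has homogeneous coordinates indexed by a finite type `ι`. Subsets of the real
projective space are written as cones: subsets of `ι → ℝ` without the origin, closed under
multiplication by nonzero reals. Closure and interior in projective space correspond to closure and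
interior of the cones.
-/

open MvPolynomial Topology

namespace PG

open PosGeom (PVar Form dW RegularAt)

variable {ι : Type}

/-! ## The function field of a variety -/

/-- the homogeneous coordinate ring of `V` -/
def HCR (V : PVar ι) : Type := MvPolynomial ι ℂ ⧸ V.I

/-- the ring structure -/
noncomputable def hcrRing (V : PVar ι) : CommRing (MvPolynomial ι ℂ ⧸ V.I) := inferInstance

noncomputable instance (V : PVar ι) : CommRing (HCR V) := hcrRing V

/-- the algebra structure -/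
noncomputable def hcrAlg (V : PVar ι) : Algebra ℂ (MvPolynomial ι ℂ ⧸ V.I) := inferInstance

noncomputable instance (V : PVar ι) : Algebra ℂ (HCR V) := hcrAlg V

instance (V : PVar ι) : IsDomain (HCR V) :=
  inferInstanceAs (IsDomain (MvPolynomial ι ℂ ⧸ V.I))

/-- the coordinates in the homogeneous coordinate ring -/
noncomputable def hX (V : PVar ι) (i : ι) : HCR V := Ideal.Quotient.mk V.I (X i)

/-- the fraction field of the homogeneous coordinate ring of `V` -/
def Frac (V : PVar ι) : Type := FractionRing (HCR V)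

/-- the field structure -/
noncomputable def fracField (V : PVar ι) : Field (FractionRing (HCR V)) := inferInstance

noncomputable instance (V : PVar ι) : Field (Frac V) := fracField V

/-- the algebra structure over the homogeneous coordinate ring -/
noncomputable def fracAlgH (V : PVar ι) : Algebra (HCR V) (FractionRing (HCR V)) := inferInstance

noncomputable instance (V : PVar ι) : Algebra (HCR V) (Frac V) := fracAlgH V

/-- the algebra structure over the complex numbers -/
noncomputable def fracAlg (V : PVar ι) : Algebra ℂ (FractionRing (HCR V)) := inferInstance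

noncomputable instance (V : PVar ι) : Algebra ℂ (Frac V) := fracAlg V

/-- the homogeneous coordinates of the generic point -/
noncomputable def gen (V : PVar ι) (i : ι) : Frac V := algebraMap (HCR V) (Frac V) (hX V i)

/-- the field of rational functions of the variety: generated by the quotients of coordinates -/
noncomputable def FFs (V : PVar ι) : IntermediateField ℂ (Frac V) :=
  IntermediateField.adjoin ℂ {f | ∃ i j, f = gen V i / gen V j}

/-- the field of rational functions of the variety, as a type -/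
def FF (V : PVar ι) : Type := FFs V

/-- the field structure -/
noncomputable def ffField (V : PVar ι) : Field (FFs V) := inferInstance

noncomputable instance (V : PVar ι) : Field (FF V) := ffField V

/-- the algebra structure -/
noncomputable def ffAlg (V : PVar ι) : Algebra ℂ (FFs V) := inferInstance

noncomputable instance (V : PVar ι) : Algebra ℂ (FF V) := ffAlg V

/-- a rational function as an element of the fraction field -/
def FF.val {V : PVar ι} (f : FF V) : Frac V := Subtype.val (p := fun x => x ∈ FFs V) f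

/-- the cone of real points -/
def RP (V : PVar ι) : Set (ι → ℝ) :=
  {x | x ≠ 0 ∧ ∀ F ∈ V.I, aeval (fun i => ((x i : ℝ) : ℂ)) F = 0}

/-- `SpecTo V ξ f a`: the rational function `f` is regular at the point with homogeneous
coordinates `ξ` (in a field `L` over `ℂ`) and has the value `a` there: `f = F/G` with forms `F`,
`G` of the same degree and `G(ξ) ≠ 0`, and `a = F(ξ)/G(ξ)`. -/
def SpecTo (V : PVar ι) {L : Type} [Field L] [Algebra ℂ L] (ξ : ι → L) (f : FF V) (a : L) : Prop :=
  ∃ (n : ℕ) (F G : MvPolynomial ι ℂ), F.IsHomogeneous n ∧ G.IsHomogeneous n ∧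
    aeval ξ G ≠ 0 ∧ f.val * aeval (gen V) G = aeval (gen V) F ∧ a * aeval ξ G = aeval ξ F

/-- `Val V x f a`: the rational function `f` is regular at the real point `x`, with value `a`. -/
def Val (V : PVar ι) (x : ι → ℝ) (f : FF V) (a : ℂ) : Prop :=
  SpecTo V (fun i => ((x i : ℝ) : ℂ)) f a

/-- `RVal V x f a`: the rational function `f` is real (a quotient of real forms), regular at the
real point `x`, with real value `a`. -/
def RVal (V : PVar ι) (x : ι → ℝ) (f : FF V) (a : ℝ) : Prop :=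
  ∃ (n : ℕ) (F G : MvPolynomial ι ℝ), F.IsHomogeneous n ∧ G.IsHomogeneous n ∧
    eval x G ≠ 0 ∧ f.val * aeval (gen V) (map Complex.ofRealHom G) =
      aeval (gen V) (map Complex.ofRealHom F) ∧ a * eval x G = eval x F

variable [Fintype ι]

/-! ## Local structure along divisors -/

/-- the local ring of `V` along `C` is a discrete valuation ring. -/
def IsDVRAlong (V C : PVar ι) : Prop :=
  ∃ O : ValuationSubring (FF V), IsDiscreteValuationRing O ∧
    ∀ f : FF V, f ∈ O ↔ ∃ a : Frac C, SpecTo V (gen C) f a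

/-- the valuation ring `O` dominates the local ring of `V` along `D`. -/
def Dominates (V D : PVar ι) (O : ValuationSubring (FF V)) : Prop :=
  ∀ (f : FF V) (a : Frac D), SpecTo V (gen D) f a → f ∈ O ∧ (a = 0 → O.valuation f < 1)

/-- `ω` has no pole along `D`: it is regular at all discrete valuation rings dominating the local
ring along `D` (there is only this local ring itself, if it is a discrete valuation ring). -/
def NoPole {d : ℕ} (V D : PVar ι) (ω : Form (FF V) d) : Prop :=
  ∀ O : ValuationSubring (FF V), IsDiscreteValuationRing O → Dominates V D O → RegularAt O ω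

/-- `τ` generates the maximal ideal of the local ring of `V` along `C`. -/
def IsLocalEq (V C : PVar ι) (τ : FF V) : Prop :=
  τ ≠ 0 ∧ SpecTo V (gen C) τ 0 ∧
    ∀ f : FF V, SpecTo V (gen C) f 0 → ∃ (h : FF V) (a : Frac C), SpecTo V (gen C) h a ∧ f = h * τ

/-- `ω` has at most a simple pole along `C`, with residue `ρ`:
`ω = ∑ f_k (dτ/τ) ∧ dg_{k1} ∧ ... ∧ dg_{kd}` and `ρ = ∑ f_k|_C dg_{k1}|_C ∧ ... ∧ dg_{kd}|_C`. -/
def HasRes {d : ℕ} (V C : PVar ι) (ω : Form (FF V) (d + 1)) (ρ : Form (FF C) d) : Prop :=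
  ∃ (τ : FF V), IsLocalEq V C τ ∧
    ∃ (m : ℕ) (f : Fin m → FF V) (g : Fin m → Fin d → FF V) (f' : Fin m → FF C)
      (g' : Fin m → Fin d → FF C),
      (∀ k, SpecTo V (gen C) (f k) (f' k).val) ∧
      (∀ k i, SpecTo V (gen C) (g k i) (g' k i).val) ∧
      ω = ∑ k, (f k * τ⁻¹) • dW (Fin.cons τ (g k) : Fin (d + 1) → FF V) ∧
      ρ = ∑ k, f' k • dW (g' k)

/-! ## Real geometry -/

/-- semialgebraic subsets of `ι → ℝ` -/
def Semialg (P : Set (ι → ℝ)) : Prop :=
  ∃ (m : ℕ) (E N : Fin m → Finset (MvPolynomial ι ℝ)),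
    P = {x | ∃ j, (∀ F ∈ E j, eval x F = 0) ∧ (∀ G ∈ N j, 0 < eval x G)}

/-- the interior of `P` in the real points of `V` -/
def pos (V : PVar ι) (P : Set (ι → ℝ)) : Set (ι → ℝ) :=
  {x | x ∈ RP V ∧ ∀ᶠ y in 𝓝[RP V] x, y ∈ P}

/-- closure (of cones without the origin) -/
def clo (P : Set (ι → ℝ)) : Set (ι → ℝ) := {x | x ≠ 0 ∧ x ∈ closure P}

/-- `g` is a system of real local coordinates of `V` at the real point `x`; in particular `x` is a
smooth point if `d` is the dimension of `V`. -/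
def IsFrame (V : PVar ι) (d : ℕ) (x : ι → ℝ) (g : Fin d → FF V) : Prop :=
  ∃ a : Fin d → ℝ, (∀ i, RVal V x (g i) (a i)) ∧
    ∀ f : FF V, Val V x f 0 → ∃ h : Fin d → FF V, (∀ i, ∃ b, Val V x (h i) b) ∧
      f = ∑ i, h i * (g i - algebraMap ℂ (FF V) ((a i : ℝ) : ℂ))

/-- `ω` is a real form that is regular and nonzero at `x` (a local volume form). -/
def IsVol (V : PVar ι) (d : ℕ) (x : ι → ℝ) (ω : Form (FF V) d) : Prop :=
  ∃ (g : Fin d → FF V) (f : FF V) (a : ℝ), IsFrame V d x g ∧ RVal V x f a ∧ a ≠ 0 ∧ ω = f • dW g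

/-- `σ` is an orientation of the interior of `P`: it gives a sign to each real form which is
regular and nonzero at a point of the interior, compatible with multiplication with real functions,
locally constant, and the same at all representatives of a projective point. -/
structure IsOrient (V : PVar ι) (d : ℕ) (P : Set (ι → ℝ))
    (σ : (ι → ℝ) → Form (FF V) d → ℤ) : Prop where
  o_val : ∀ x ∈ pos V P, ∀ ω, IsVol V d x ω → σ x ω = 1 ∨ σ x ω = -1
  o_mul : ∀ x ∈ pos V P, ∀ ω, IsVol V d x ω → ∀ (f : FF V) (a : ℝ), RVal V x f a → a ≠ 0 →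
    σ x (f • ω) = (SignType.sign a : ℤ) * σ x ω
  o_loc : ∀ x ∈ pos V P, ∀ ω, IsVol V d x ω → ∀ᶠ y in 𝓝[pos V P] x, σ y ω = σ x ω
  o_proj : ∀ x ∈ pos V P, ∀ ω, IsVol V d x ω → ∀ c : ℝ, c ≠ 0 → σ (c • x) ω = σ x ω

/-- `V` has dimension `d`, `P` is a nonempty closed semialgebraic subset of the real points of
`V`, the closure of its interior, the interior consists of smooth points, and `σ` is an
orientation of the interior. -/
structure Basic (V : PVar ι) (d : ℕ) (P : Set (ι → ℝ))
    (σ : (ι → ℝ) → Form (FF V) d → ℤ) : Prop where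
  dim : Algebra.trdeg ℂ (FF V) = d
  nonempty : P.Nonempty
  sub : P ⊆ RP V
  cone : ∀ x ∈ P, ∀ c : ℝ, c ≠ 0 → c • x ∈ P
  semialg : Semialg P
  clo : clo (pos V P) = P
  smooth : ∀ x ∈ pos V P, ∃ g, IsFrame V d x g
  orient : IsOrient V d P σ

/-- `C` is an irreducible component of the Zariski closure of the boundary of `P`. -/
def IsBd (V : PVar ι) (P : Set (ι → ℝ)) (C : PVar ι) : Prop :=
  C.I ∈ (PosGeom.vIdeal (P \ pos V P)).minimalPrimes

/-- the nonnegative part of the boundary component `C`: the closure of the interior of `C ∩ P` in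
the real points of `C`. -/
def bd (P : Set (ι → ℝ)) (C : PVar ι) : Set (ι → ℝ) := clo (pos C (RP C ∩ P))

/-- `σ'` is the orientation of the boundary component `C` induced by `σ`. -/
def Induced {d : ℕ} (V : PVar ι) (P : Set (ι → ℝ)) (C : PVar ι)
    (σ : (ι → ℝ) → Form (FF V) (d + 1) → ℤ) (σ' : (ι → ℝ) → Form (FF C) d → ℤ) : Prop :=
  ∀ y ∈ pos C (bd P C), ∀ (τ : FF V) (g : Fin d → FF V) (g' : Fin d → FF C),
    SpecTo V (gen C) τ 0 → (∀ i, SpecTo V (gen C) (g i) (g' i).val) →
    IsFrame V (d + 1) y (Fin.cons τ g : Fin (d + 1) → FF V) → IsFrame C d y g' →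
    ∀ᶠ x in 𝓝[pos V P] y, ∀ b : ℝ, RVal V x τ b →
      (0 < b → σ x (dW (Fin.cons τ g : Fin (d + 1) → FF V)) = σ' y (dW g')) ∧
      (b < 0 → σ x (dW (Fin.cons τ g : Fin (d + 1) → FF V)) = - σ' y (dW g'))

/-- `ω` is the canonical form of the positive geometry `(V, P)` with orientation `σ`. -/
def IsCanon : (d : ℕ) → (V : PVar ι) → (P : Set (ι → ℝ)) →
    (σ : (ι → ℝ) → Form (FF V) d → ℤ) → Form (FF V) d → Prop
  | 0, V, P, σ, ω => Basic V 0 P σ ∧
      (ω = dW (Fin.elim0 : Fin 0 → FF V) ∨ ω = - dW (Fin.elim0 : Fin 0 → FF V)) ∧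
      ∀ x ∈ P, σ x ω = 1
  | d + 1, V, P, σ, ω => Basic V (d + 1) P σ ∧
      (ω ≠ 0 ∧
        (∀ C : PVar ι, IsBd V P C → IsDVRAlong V C ∧
          ∃ (σ' : (ι → ℝ) → Form (FF C) d → ℤ) (ρ : Form (FF C) d), Induced V P C σ σ' ∧
            HasRes V C ω ρ ∧ IsCanon d C (bd P C) σ' ρ) ∧
        (∀ D : PVar ι, V.I ≤ D.I → Algebra.trdeg ℂ (FF D) = d → ¬ IsBd V P D → NoPole V D ω)) ∧
      ∀ ω' : Form (FF V) (d + 1), (ω' ≠ 0 ∧
        (∀ C : PVar ι, IsBd V P C → IsDVRAlong V C ∧
          ∃ (σ' : (ι → ℝ) → Form (FF C) d → ℤ) (ρ : Form (FF C) d), Induced V P C σ σ' ∧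
            HasRes V C ω' ρ ∧ IsCanon d C (bd P C) σ' ρ) ∧
        (∀ D : PVar ι, V.I ≤ D.I → Algebra.trdeg ℂ (FF D) = d → ¬ IsBd V P D → NoPole V D ω')) →
        ω' = ω

/-- `(V, P)` with the orientation `σ` is a positive geometry of dimension `d`. -/
def IsPositiveGeometry (d : ℕ) (V : PVar ι) (P : Set (ι → ℝ))
    (σ : (ι → ℝ) → Form (FF V) d → ℤ) : Prop :=
  ∃ ω : Form (FF V) d, IsCanon d V P σ ω

/-! ## Comparison -/

theorem isOrient_iff (V : PVar ι) (d : ℕ) (P : Set (ι → ℝ))
    (σ : (ι → ℝ) → Form (FF V) d → ℤ) : IsOrient V d P σ ↔ PosGeom.IsOrient V d P σ :=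
  ⟨fun h => ⟨h.o_val, h.o_mul, h.o_loc, h.o_proj⟩, fun h => ⟨h.o_val, h.o_mul, h.o_loc, h.o_proj⟩⟩

theorem basic_iff (V : PVar ι) (d : ℕ) (P : Set (ι → ℝ))
    (σ : (ι → ℝ) → Form (FF V) d → ℤ) : Basic V d P σ ↔ PosGeom.Basic V d P σ :=
  ⟨fun h => ⟨h.dim, h.nonempty, h.sub, h.cone, h.semialg, h.clo, h.smooth, h.orient.o_val,
    h.orient.o_mul, h.orient.o_loc, h.orient.o_proj⟩,
    fun h => ⟨h.dim, h.nonempty, h.sub, h.cone, h.semialg, h.clo, h.smooth,
      ⟨h.o_val, h.o_mul, h.o_loc, h.o_proj⟩⟩⟩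

theorem isCanon_iff (d : ℕ) : ∀ (V : PVar ι) (P : Set (ι → ℝ))
    (σ : (ι → ℝ) → Form (FF V) d → ℤ) (ω : Form (FF V) d),
    IsCanon d V P σ ω ↔ PosGeom.IsCanon d V P σ ω := by
  induction d with
  | zero =>
    intro V P σ ω
    constructor
    · intro h
      exact ⟨(basic_iff V 0 P σ).mp h.1, h.2.1, h.2.2⟩
    · intro h
      exact ⟨(basic_iff V 0 P σ).mpr h.1, h.2.1, h.2.2⟩
  | succ d ih =>
    intro V P σ ω
    constructor
    · intro h
      refine ⟨(basic_iff V (d + 1) P σ).mp h.1, ⟨h.2.1.1, ?_, h.2.1.2.2⟩, ?_⟩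
      · intro C hC
        obtain ⟨h1, σ', ρ, h2, h3, h4⟩ := h.2.1.2.1 C hC
        exact ⟨h1, σ', ρ, h2, h3, (ih C (bd P C) σ' ρ).mp h4⟩
      · intro ω' h'
        refine h.2.2 ω' ⟨h'.1, ?_, h'.2.2⟩
        intro C hC
        obtain ⟨h1, σ', ρ, h2, h3, h4⟩ := h'.2.1 C hC
        exact ⟨h1, σ', ρ, h2, h3, (ih C (bd P C) σ' ρ).mpr h4⟩
    · intro h
      refine ⟨(basic_iff V (d + 1) P σ).mpr h.1, ⟨h.2.1.1, ?_, h.2.1.2.2⟩, ?_⟩
      · intro C hC
        obtain ⟨h1, σ', ρ, h2, h3, h4⟩ := h.2.1.2.1 C hC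
        exact ⟨h1, σ', ρ, h2, h3, (ih C (bd P C) σ' ρ).mpr h4⟩
      · intro ω' h'
        refine h.2.2 ω' ⟨h'.1, ?_, h'.2.2⟩
        intro C hC
        obtain ⟨h1, σ', ρ, h2, h3, h4⟩ := h'.2.1 C hC
        exact ⟨h1, σ', ρ, h2, h3, (ih C (bd P C) σ' ρ).mp h4⟩

/-- the final theorem -/
def FinalStmt : Prop :=
  ∀ (k n : ℕ) (hk : 2 ≤ k) (hkn : k + 2 ≤ n),
    (∃ σ, IsOrient (PosGeom.ABCT k n hk (Nat.le_of_add_right_le hkn)) (2 * n - 4)
      (PosGeom.ABCTnonneg k n hk (Nat.le_of_add_right_le hkn)) σ) ∧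
    ∀ σ, IsOrient (PosGeom.ABCT k n hk (Nat.le_of_add_right_le hkn)) (2 * n - 4)
        (PosGeom.ABCTnonneg k n hk (Nat.le_of_add_right_le hkn)) σ →
      IsPositiveGeometry (2 * n - 4) (PosGeom.ABCT k n hk (Nat.le_of_add_right_le hkn))
        (PosGeom.ABCTnonneg k n hk (Nat.le_of_add_right_le hkn)) σ

theorem pub (h : PosGeom.FinalStmt) : FinalStmt := by
  intro k n hk hkn
  obtain ⟨⟨σ, hσ⟩, h2⟩ := h k n hk hkn
  refine ⟨⟨σ, (isOrient_iff _ _ _ _).mpr hσ⟩, fun σ hσ => ?_⟩
  obtain ⟨ω, hω⟩ := h2 σ ((isOrient_iff _ _ _ _).mp hσ)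
  exact ⟨ω, (isCanon_iff _ _ _ _ _).mpr hω⟩

end PG
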