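import Pool.Agent.Helper32_ABCT.AllI
import Pool.Agent.Helper32_ABCT.Pub

/-!
# The final theorem of the ABCT project (MP_a17fcb_ag)
-/

namespace PosGeom

open ABCT

theorem finalAsm : FinalStmt := by
  intro k n hk hkn
  have hinj : Function.Injective (emb0 k n) := by
    intro I J h
    exact Subtype.ext (Finset.map_injective _ h)
  have hS : (Net.gen (List.range n) k).Valid :=
    ⟨List.nodup_range, hk, by rw [List.length_range]; exact hkn⟩
  have hrk : 1 ≤ (Net.gen (List.range n) k).rk := by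
    show 1 ≤ k
    omega
  have hsub : ∀ I ∈ (Net.gen (List.range n) k).M, ∃ i, emb0 k n i = I := by
    intro I hI
    have hI' : I ∈ (List.range n).toFinset.powersetCard k := hI
    rw [Finset.mem_powersetCard] at hI'
    have hlt : ∀ m ∈ I, m < n := by
      intro m hm
      have := hI'.1 hm
      rw [List.mem_toFinset, List.mem_range] at this
      exact this
    refine ⟨⟨I.attachFin hlt, ?_⟩, ?_⟩
    · rw [Finset.card_attachFin]
      exact hI'.2
    · exact Finset.map_valEmbedding_attachFin hlt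
  have hok := H93.fok_net AllII.wf AllII.gall hinj hS hrk hsub
  obtain ⟨d, N, b, a, hN⟩ := H81.knrm _ (emb0 k n) _ hok
  have hd := AllI.wdim k n hk hkn d N b a hN
  subst hd
  obtain ⟨h1, h2⟩ := AllI.wvar k n hk hkn _ N b a hN
  have hsem : Semialg N.P := by
    rw [h2]
    exact AllI.wsem k n hk _
  suffices H : ∀ (V : PVar (PIdx k n)) (P : Set (PIdx k n → ℝ)), N.var = V → N.P = P →
      (∃ σ, IsOrient V (2 * n - 4) P σ) ∧
        ∀ σ, IsOrient V (2 * n - 4) P σ → IsPositiveGeometry (2 * n - 4) V P σ from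
    H _ _ h1 h2
  rintro V P rfl rfl
  have hC : netC (emb0 k n) (2 * n - 4) N := ⟨_, b, a, hS, hrk, hsub, hN⟩
  have hF := AllI.kfam _ (emb0 k n) hinj
  have hgood := hF.good _ N hC
  obtain ⟨e, he⟩ := (AllI.cfld _ _ N hgood).1
  have hpos := ((AllI.rint _ _ _ hF).1 _ N hC).1
  have hU : ∀ d N, netC (emb0 k n) (d + 1) N → Uniq N := by
    intro d N hC
    obtain ⟨S, b, a, hS, hrk, hsub, hN⟩ := hC
    exact AllI.uall _ _ hinj S hS hrk hsub d N b a hN
  constructor
  · obtain ⟨σ, hσ, _⟩ := AllI.ostd _ _ N e hgood he hpos 1 (Or.inl rfl)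
    exact ⟨σ, hσ⟩
  · intro σ hσ
    obtain ⟨_, ε, hε, h⟩ := AllI.osgn _ _ N e hgood he hpos σ hσ
    exact ⟨_, AllI.main _ _ _ hF hU _ N hC hsem e he σ hσ ε hε h⟩

end PosGeom
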