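import Pool.Agent.Helper50_ABCT.Hquo

/-!
# HSQ (MP_a17fcb_ag): the parameter of a square
-/

namespace ABCT.H32

open FlatCell ABCT ABCT.H50

/-- HSQ -/
theorem hsq : HsquoStmt := by
  intro K _ l r d a₀ a₁ c u hl hr hn h01 h1n hAB hdA hdr hrA hA2 hB2 hc hu
  -- the outside position
  obtain ⟨e, he, hen⟩ : ∃ e, (e < a₀ ∨ a₁ ≤ e) ∧ e + 1 < l.length := by
    by_cases h : 0 < a₀
    · exact ⟨0, Or.inl h, by omega⟩
    · exact ⟨a₁, Or.inr le_rfl, by omega⟩
  -- the number `k`
  obtain ⟨k, hkd, hkA, hkr, hkB⟩ : ∃ k, (k + 1 = d ∨ k = d) ∧ k + 2 ≤ a₁ - a₀ ∧ k + 2 ≤ r ∧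
      r + (a₁ - a₀) ≤ k + l.length := by
    by_cases h : 1 ≤ d ∧ r + (a₁ - a₀) + 1 ≤ d + l.length
    · exact ⟨d - 1, by omega, by omega, by omega, by omega⟩
    · exact ⟨d, by omega, by omega, by omega, by omega⟩
  set A := Finset.Ico a₀ a₁ with hAdef
  have hiA : a₀ ∈ A := Finset.mem_Ico.mpr ⟨le_rfl, by omega⟩
  have hjA : a₀ + 1 ∈ A := Finset.mem_Ico.mpr ⟨by omega, by omega⟩
  have heA : e ∉ A := by rw [hAdef, Finset.mem_Ico]; omega
  have hnA : l.length - 1 ∉ A := by rw [hAdef, Finset.mem_Ico]; omega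
  have hAr : A ⊆ Finset.range l.length := by
    intro x hx
    rw [hAdef, Finset.mem_Ico] at hx
    rw [Finset.mem_range]; omega
  have c1 : k ≤ (A \ {a₀, a₀ + 1}).card := by
    rw [Finset.card_sdiff_of_subset (by
      intro x hx
      rw [Finset.mem_insert, Finset.mem_singleton] at hx
      rcases hx with rfl | rfl
      · exact hiA
      · exact hjA), hAdef, Nat.card_Ico, Finset.card_pair (by omega)]
    omega
  have c2 : r - 2 - k ≤ ((Finset.range l.length \ A) \ {e, l.length - 1}).card := by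
    rw [Finset.card_sdiff_of_subset (by
      intro x hx
      rw [Finset.mem_insert, Finset.mem_singleton] at hx
      rw [Finset.mem_sdiff, Finset.mem_range]
      rcases hx with rfl | rfl
      · exact ⟨by omega, heA⟩
      · exact ⟨by omega, hnA⟩), Finset.card_sdiff_of_subset hAr, Finset.card_range, hAdef,
      Nat.card_Ico, Finset.card_pair (by omega)]
    omega
  obtain ⟨P, hP, hPA, hPc⟩ := exists_parts _ _ k (r - 2 - k) c1 c2 (by
    rw [Finset.disjoint_left]
    intro x hx hx'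
    rw [Finset.mem_sdiff] at hx hx'
    rw [Finset.mem_sdiff] at hx'
    exact hx'.1.2 hx.1)
  have hm : ∀ x ∈ P, x < l.length ∧ x ≠ a₀ ∧ x ≠ a₀ + 1 ∧ x ≠ e ∧ x ≠ l.length - 1 := by
    intro x hx
    have := hP hx
    simp only [Finset.mem_union, Finset.mem_sdiff, Finset.mem_range, Finset.mem_insert,
      Finset.mem_singleton, not_or, hAdef, Finset.mem_Ico] at this
    omega
  have hi : a₀ ∉ P := fun h => (hm _ h).2.1 rfl
  have hj : a₀ + 1 ∉ P := fun h => (hm _ h).2.2.1 rfl
  have he' : e ∉ P := fun h => (hm _ h).2.2.2.1 rfl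
  have hnn : l.length - 1 ∉ P := fun h => (hm _ h).2.2.2.2 rfl
  have hPr : P ⊆ Finset.range l.length := fun x hx => Finset.mem_range.mpr (hm x hx).1
  have hPA' : (P ∩ A).card = k := by
    rw [← hPA]
    congr 1
    ext x
    simp only [Finset.mem_inter, Finset.mem_sdiff, Finset.mem_insert, Finset.mem_singleton, not_or]
    constructor
    · rintro ⟨hx, hx'⟩
      exact ⟨hx, hx', (hm x hx).2.1, (hm x hx).2.2.1⟩
    · rintro ⟨hx, hx', _⟩
      exact ⟨hx, hx'⟩
  have sub : ∀ x y, x < l.length → y < l.length →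
      insert x (insert y P) ⊆ Finset.range l.length := by
    intro x y hx hy z hz
    rw [Finset.mem_insert, Finset.mem_insert] at hz
    rw [Finset.mem_range]
    rcases hz with rfl | rfl | h
    · exact hx
    · exact hy
    · exact Finset.mem_range.mp (hPr h)
  have crd : ∀ x y, x ≠ y → x ∉ P → y ∉ P → (insert x (insert y P)).card = r := by
    intro x y hxy hx hy
    rw [Finset.card_insert_of_notMem (by simp [hxy, hx]), Finset.card_insert_of_notMem hy]
    omega
  have mem : ∀ x y, x ≠ y → x ∉ P → y ∉ P → x < l.length → y < l.length →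
      lab l (insert x (insert y P)) ∈ l.toFinset.powersetCard r ∧
      (lab l (insert x (insert y P)) ∩ ((l.drop a₀).take (a₁ - a₀)).toFinset).card =
        k + ((if x ∈ A then 1 else 0) + (if y ∈ A then 1 else 0)) := by
    intro x y hxy hx hy hxn hyn
    have hs := sub x y hxn hyn
    refine ⟨Finset.mem_powersetCard.mpr ⟨lab_sub hs, ?_⟩, ?_⟩
    · rw [lab_card hl hs, crd x y hxy hx hy]
    · rw [← lab_Ico l a₀ a₁ (by omega), lab_inter hl hs hAr,
        lab_card hl (fun z hz => hs (Finset.mem_inter.mp hz).1)]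
      by_cases hxA : x ∈ A
      · by_cases hyA : y ∈ A
        · rw [Finset.insert_inter_of_mem hxA, Finset.insert_inter_of_mem hyA,
            Finset.card_insert_of_notMem, Finset.card_insert_of_notMem, hPA',
            if_pos hxA, if_pos hyA]
          · simp [hy]
          · simp [hx, hxy]
        · rw [Finset.insert_inter_of_mem hxA, Finset.insert_inter_of_notMem hyA,
            Finset.card_insert_of_notMem, hPA', if_pos hxA, if_neg hyA]
          simp [hx]
      · by_cases hyA : y ∈ A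
        · rw [Finset.insert_inter_of_notMem hxA, Finset.insert_inter_of_mem hyA,
            Finset.card_insert_of_notMem, hPA', if_neg hxA, if_pos hyA]
          simp [hy]
        · rw [Finset.insert_inter_of_notMem hxA, Finset.insert_inter_of_notMem hyA,
            hPA', if_neg hxA, if_neg hyA]
          simp
  have hp : ∀ I ∈ MAd l ((l.drop a₀).take (a₁ - a₀)).toFinset r d, Pg l r c u I ≠ 0 :=
    fun I hI => Pg_ne r c u hc hu ((Finset.filter_subset _ _) hI)
  obtain ⟨m1, n1⟩ := mem a₀ (a₀ + 1) (by omega) hi hj (by omega) (by omega)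
  obtain ⟨m2, n2⟩ := mem a₀ e (by omega) hi he' (by omega) (by omega)
  obtain ⟨m3, n3⟩ := mem e (l.length - 1) (by omega) he' hnn (by omega) (by omega)
  obtain ⟨m4, n4⟩ := mem (a₀ + 1) (l.length - 1) (by omega) hj hnn (by omega) (by omega)
  rw [if_pos hiA, if_pos hjA] at n1
  rw [if_pos hiA, if_neg heA] at n2
  rw [if_neg heA, if_neg hnA] at n3
  rw [if_pos hjA, if_neg hnA] at n4
  have e4 := tri_eq l.length (fun a => c (l.getD a 0)) u (fun a => hc _) hu P a₀ (a₀ + 1) e hi hj
    he' hnn (by omega) (by omega) (by omega) (by omega) hen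
  rw [← Pg_lab hl r c u (sub a₀ (a₀ + 1) (by omega) (by omega)) (crd a₀ (a₀ + 1) (by omega) hi hj),
    ← Pg_lab hl r c u (sub a₀ e (by omega) (by omega)) (crd a₀ e (by omega) hi he'),
    ← Pg_lab hl r c u (sub e _ (by omega) (by omega)) (crd e _ (by omega) he' hnn),
    ← Pg_lab hl r c u (sub (a₀ + 1) _ (by omega) (by omega)) (crd (a₀ + 1) _ (by omega) hj hnn)]
    at e4
  have inM : ∀ I ∈ l.toFinset.powersetCard r,
      ((I ∩ ((l.drop a₀).take (a₁ - a₀)).toFinset).card = d ∨
        (I ∩ ((l.drop a₀).take (a₁ - a₀)).toFinset).card = d + 1) →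
      I ∈ MAd l ((l.drop a₀).take (a₁ - a₀)).toFinset r d := fun I h1 h2 =>
    Finset.mem_filter.mpr ⟨h1, h2⟩
  have notM : ∀ I, ¬ ((I ∩ ((l.drop a₀).take (a₁ - a₀)).toFinset).card = d ∨
        (I ∩ ((l.drop a₀).take (a₁ - a₀)).toFinset).card = d + 1) →
      I ∉ MAd l ((l.drop a₀).take (a₁ - a₀)).toFinset r d := fun I h2 h =>
    h2 (Finset.mem_filter.mp h).2
  refine ⟨a₀, a₀ + 1, min a₀ e, max a₀ e, le_rfl, by omega, by omega, by omega, by omega, by omega,
    ?_⟩
  have eL : (∑ h ∈ Finset.Ico a₀ (a₀ + 1), u h) / (∑ h ∈ Finset.Ico (min a₀ e) (max a₀ e), u h) =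
      ds u a₀ (a₀ + 1) / ds u a₀ e := by
    rw [ds_lt u (by omega : a₀ < a₀ + 1)]
    rfl
  rw [eL, e4]
  rcases hkd with hkd | hkd
  · refine ⟨_, m3, notM _ (by rw [n3]; omega), _, inM _ m4 (by rw [n4]; omega), _,
      mon_quot hp (inM _ m1 (by rw [n1]; omega)) (inM _ m2 (by rw [n2]; omega)), ?_⟩
    ring
  · refine ⟨_, m1, notM _ (by rw [n1]; omega), _, inM _ m2 (by rw [n2]; omega), _,
      mon_quot hp (inM _ m3 (by rw [n3]; omega)) (inM _ m4 (by rw [n4]; omega)), ?_⟩
    ring

end ABCT.H32
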