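import Pool.Agent.Helper32_ABCT.EStmts

/-!
# Slices of homogeneous polynomials, values at `s = 0` (MP_a17fcb_ag, EPAIR, EDEG)
-/

open MvPolynomial

namespace ABCT

open FlatCell

/-- the exponents other than that of `X 0`, shifted -/
noncomputable def shf (β : ℕ →₀ ℕ) : ℕ →₀ ℕ :=
  β.comapDomain (fun k => k + 1) (fun _ _ _ _ h => Nat.succ_injective h)

theorem shf_apply (β : ℕ →₀ ℕ) (k : ℕ) : shf β k = β (k + 1) := rfl

theorem eq_shf (β : ℕ →₀ ℕ) :
    β = Finsupp.single 0 (β 0) + (shf β).mapDomain (fun k => k + 1) := by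
  ext k
  rw [Finsupp.add_apply]
  cases k with
  | zero =>
    rw [Finsupp.single_eq_same, Finsupp.mapDomain_of_notMem_range]
    · simp
    · rintro ⟨j, hj⟩; exact absurd hj (Nat.succ_ne_zero j)
  | succ k =>
    rw [Finsupp.single_eq_of_ne (by omega), zero_add,
      Finsupp.mapDomain_apply (fun a b h => Nat.succ_injective h)]
    rfl

theorem prod_shf {K : Type*} [CommMonoid K] (β : ℕ →₀ ℕ) (y : ℕ → K) :
    (β.prod fun i n => y i ^ n) = y 0 ^ β 0 * (shf β).prod fun k n => y (k + 1) ^ n := by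
  conv_lhs => rw [eq_shf β]
  rw [Finsupp.prod_add_index (by simp) (by intro i _ a b; exact pow_add _ _ _),
    Finsupp.prod_single_index (by simp), Finsupp.prod_mapDomain_index (by simp)
      (by intro i a b; exact pow_add _ _ _)]

theorem deg_shf (β : ℕ →₀ ℕ) : (β.sum fun _ n => n) = β 0 + (shf β).sum fun _ n => n := by
  conv_lhs => rw [eq_shf β]
  rw [Finsupp.sum_add_index (by simp) (by intro i _ a b; rfl),
    Finsupp.sum_single_index rfl, Finsupp.sum_mapDomain_index (by simp) (by intro i a b; rfl)]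

theorem shf_inj {β γ : ℕ →₀ ℕ} (h0 : β 0 = γ 0) (h : shf β = shf γ) : β = γ := by
  rw [eq_shf β, eq_shf γ, h0, h]

variable {K₀ : Type*} [CommRing K₀]

/-- the coefficient of `X 0 ^ j`, variables shifted -/
noncomputable def slice (H : MvPolynomial ℕ K₀) (j : ℕ) : MvPolynomial ℕ K₀ :=
  ∑ β ∈ H.support.filter (fun β => β 0 = j), monomial (shf β) (coeff β H)

theorem coeff_slice (H : MvPolynomial ℕ K₀) (j : ℕ) (β : ℕ →₀ ℕ) (hβ : β 0 = j) :
    coeff (shf β) (slice H j) = coeff β H := by
  classical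
  rw [slice, coeff_sum]
  by_cases h : β ∈ H.support
  · rw [Finset.sum_eq_single β]
    · rw [coeff_monomial, if_pos rfl]
    · intro γ hγ hne
      rw [coeff_monomial, if_neg]
      intro h'
      rw [Finset.mem_filter] at hγ
      exact hne (shf_inj (hγ.2.trans hβ.symm) h')
    · intro h'
      exact absurd (Finset.mem_filter.mpr ⟨h, hβ⟩) h'
  · rw [notMem_support_iff.mp h]
    apply Finset.sum_eq_zero
    intro γ hγ
    rw [coeff_monomial, if_neg]
    intro h'
    rw [Finset.mem_filter] at hγ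
    rw [shf_inj (hγ.2.trans hβ.symm) h'] at hγ
    exact h hγ.1

theorem slice_ne {H : MvPolynomial ℕ K₀} {β : ℕ →₀ ℕ} (h : β ∈ H.support) :
    slice H (β 0) ≠ 0 := by
  intro h'
  have := coeff_slice H (β 0) β rfl
  rw [h', coeff_zero] at this
  exact (mem_support_iff.mp h) this.symm

theorem slice_hom {H : MvPolynomial ℕ K₀} {d j : ℕ} (hH : H.IsHomogeneous d) :
    (slice H j).IsHomogeneous (d - j) := by
  rw [slice]
  apply IsHomogeneous.sum
  intro β hβ
  rw [Finset.mem_filter] at hβ
  apply isHomogeneous_monomial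
  have h1 := hH (mem_support_iff.mp hβ.1)
  rw [Finsupp.weight_apply] at h1
  simp only [Pi.one_apply, smul_eq_mul, mul_one] at h1
  have h2 := deg_shf β
  rw [h1, hβ.2] at h2
  have h3 : (shf β).degree = (shf β).sum fun _ n => n := rfl
  rw [h3]
  omega

theorem slice_deg {H : MvPolynomial ℕ K₀} {j k : ℕ} (h : degreeOf (k + 1) H = 0) :
    degreeOf k (slice H j) = 0 := by
  rw [slice]
  have := degreeOf_sum_le k (H.support.filter (fun β => β 0 = j))
    (fun β => monomial (shf β) (coeff β H))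
  apply Nat.le_zero.mp
  refine this.trans ?_
  apply Finset.sup_le
  intro β hβ
  rw [Finset.mem_filter] at hβ
  by_cases hc : coeff β H = 0
  · rw [hc, monomial_zero, degreeOf_zero]
  · rw [degreeOf_monomial_eq _ _ hc, shf_apply]
    have := monomial_le_degreeOf (k + 1) hβ.1
    omega

theorem eval_slice {K : Type*} [CommRing K] (κ : K₀ →+* K) (g : ℕ → K) (H : MvPolynomial ℕ K₀)
    (j : ℕ) : eval₂ κ g (slice H j) = ∑ β ∈ H.support.filter (fun β => β 0 = j),
      κ (coeff β H) * (shf β).prod fun k n => g k ^ n := by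
  rw [slice, ← coe_eval₂Hom, map_sum]
  simp only [coe_eval₂Hom, eval₂_monomial]

end ABCT
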