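import Pool.Agent.Helper32_ABCT.FD

/-!
# Statements of the part II modules (MP_a17fcb_ag), see PLAN_ABCT.md
-/

open MvPolynomial

namespace ABCT

open FlatCell

/-! ## A. Nets -/

/-- NWF -/
def WfStmt : Prop :=
  ∀ S : Net, S.Valid → S.flat.Wf ∧ (∀ I ∈ S.M, I ⊆ S.E ∧ I.card = S.rk)

/-- NFAC -/
def FacetStmt : Prop :=
  ∀ S S' : Net, S.Valid → Net.Facet S S' →
    S'.Valid ∧ S'.E = S.E ∧ S'.rk = S.rk ∧ S'.M ⊂ S.M

/-- `S'` is the restriction of `S` to the bases without (resp. with) the label `i`; `e` identifies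
the gaps. -/
def PureEq (S S' : Net) (i : ℕ) (e : S'.G ≃ S.G) : Prop :=
  (∀ I ∈ S'.M, rename e (S'.Δ I) = S.Δ I) ∧
  ((S'.M = S.M.filter fun I => i ∉ I) ∨ (S'.M = S.M.filter fun I => i ∈ I)) ∧
  (∀ m : S'.flat.V →₀ ℤ, m ∈ S'.flat.Lam ↔
    (m.mapDomain (Sum.map id e) : S.flat.V →₀ ℤ) ∈ S.flat.Lam ∧
    (m.mapDomain (Sum.map id e) : S.flat.V →₀ ℤ) (Sum.inl i) = 0)

/-- NPURE: facets in which a label dies -/
def PureStmt : Prop :=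
  ∀ (S S' : Net) (i : ℕ), S.Valid → Net.Facet S S' → S.Alive i → ¬ S'.Alive i →
    ∃ e : S'.G ≃ S.G, PureEq S S' i e

/-! ## G. Condition (G) -/

/-- the value of `gen l r` at label values `c` and gap values `u` (by position). -/
def Pg {K : Type*} [CommSemiring K] (l : List ℕ) (r : ℕ) (c u : ℕ → K) (I : Finset ℕ) : K :=
  if I ∈ l.toFinset.powersetCard r then
    (∏ i ∈ I, c i) * ∏ p ∈ Net.prs l I, ∑ h ∈ Finset.Ico p.1 p.2, u h else 0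

/-- GQUO: quotients of differences are Laurent monomials. -/
def GquoStmt : Prop :=
  ∀ (K : Type) [Field K] (l : List ℕ) (r : ℕ) (c u : ℕ → K), l.Nodup → 2 ≤ r → r + 2 ≤ l.length →
    (∀ i, c i ≠ 0) → (∀ a b, a < b → b + 1 < l.length → ∑ h ∈ Finset.Ico a b, u h ≠ 0) →
    ∀ a b a' b', a < b → b + 1 < l.length → a' < b' → b' + 1 < l.length →
      (∑ h ∈ Finset.Ico a b, u h) / (∑ h ∈ Finset.Ico a' b', u h) ∈
        Mon (l.toFinset.powersetCard r) (Pg l r c u)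

/-- GGEN -/
def GgenStmt : Prop := ∀ (l : List ℕ) (r : ℕ), (Net.gen l r).Valid → (Net.gen l r).flat.HasG

/-- GTS -/
def GtsumStmt : Prop :=
  ∀ (S T : Net) (q : ℕ), (Net.tsum S T q).Valid → S.flat.HasG → T.flat.HasG →
    (Net.tsum S T q).flat.HasG

/-- GDS -/
def GdsumStmt : Prop :=
  ∀ (S T : Net), (Net.dsum S T).Valid → S.flat.HasG → T.flat.HasG → (Net.dsum S T).flat.HasG

/-- GALL -/
def GallStmt : Prop := ∀ S : Net, S.Valid → S.flat.HasG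

/-! ## C. Facet data -/

/-- the bases of a split `(A, d)` -/
def MAd (l : List ℕ) (A : Finset ℕ) (r d : ℕ) : Finset (Finset ℕ) :=
  (l.toFinset.powersetCard r).filter fun I => (I ∩ A).card = d ∨ (I ∩ A).card = d + 1

/-- HQUO: quotients of differences as Laurent monomials in the bases of `(A, d)`, where `A` are the
positions `a₀ ≤ a < a₁` of the list. -/
def HquoStmt : Prop :=
  ∀ (K : Type) [Field K] (l : List ℕ) (r d a₀ a₁ : ℕ) (c u : ℕ → K), l.Nodup →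
    2 ≤ r → r + 2 ≤ l.length → a₀ + 2 ≤ a₁ → a₁ + 1 ≤ l.length → a₁ - a₀ + 2 ≤ l.length →
    d + 1 ≤ a₁ - a₀ → d + 1 ≤ r → r + (a₁ - a₀) ≤ d + l.length →
    ((a₁ - a₀ = 2) ∨ (1 ≤ d ∧ d + 2 ≤ a₁ - a₀)) →
    ((a₁ - a₀ + 2 = l.length) ∨ (d + 2 ≤ r ∧ r + (a₁ - a₀) + 1 ≤ d + l.length)) →
    (∀ i, c i ≠ 0) → (∀ a b, a < b → b + 1 < l.length → ∑ h ∈ Finset.Ico a b, u h ≠ 0) →
    ((∀ a b a' b', a₀ ≤ a → a < b → b < a₁ → a₀ ≤ a' → a' < b' → b' < a₁ →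
      (∑ h ∈ Finset.Ico a b, u h) / (∑ h ∈ Finset.Ico a' b', u h) ∈
        Mon (MAd l ((l.drop a₀).take (a₁ - a₀)).toFinset r d) (Pg l r c u)) ∧
     (∀ a b a' b', a < b → b + 1 < l.length → a' < b' → b' + 1 < l.length →
      (a < a₀ ∨ a₁ ≤ b) → (a' < a₀ ∨ a₁ ≤ b') →
      (∑ h ∈ Finset.Ico a b, u h) / (∑ h ∈ Finset.Ico a' b', u h) ∈
        Mon (MAd l ((l.drop a₀).take (a₁ - a₀)).toFinset r d) (Pg l r c u)))

/-- HSQ: the parameter: one factor outside `(A, d)`. -/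
def HsquoStmt : Prop :=
  ∀ (K : Type) [Field K] (l : List ℕ) (r d a₀ a₁ : ℕ) (c u : ℕ → K), l.Nodup →
    2 ≤ r → r + 2 ≤ l.length → a₀ + 2 ≤ a₁ → a₁ + 1 ≤ l.length → a₁ - a₀ + 2 ≤ l.length →
    d + 1 ≤ a₁ - a₀ → d + 1 ≤ r → r + (a₁ - a₀) ≤ d + l.length →
    ((a₁ - a₀ = 2) ∨ (1 ≤ d ∧ d + 2 ≤ a₁ - a₀)) →
    ((a₁ - a₀ + 2 = l.length) ∨ (d + 2 ≤ r ∧ r + (a₁ - a₀) + 1 ≤ d + l.length)) →
    (∀ i, c i ≠ 0) → (∀ a b, a < b → b + 1 < l.length → ∑ h ∈ Finset.Ico a b, u h ≠ 0) →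
    ∃ (a b a' b' : ℕ), a₀ ≤ a ∧ a < b ∧ b < a₁ ∧ a' < b' ∧ b' + 1 < l.length ∧
      (a' < a₀ ∨ a₁ ≤ b') ∧ ∃ I₁ ∈ l.toFinset.powersetCard r,
      I₁ ∉ MAd l ((l.drop a₀).take (a₁ - a₀)).toFinset r d ∧
      ∃ I₀ ∈ MAd l ((l.drop a₀).take (a₁ - a₀)).toFinset r d,
      ∃ h ∈ Mon (MAd l ((l.drop a₀).take (a₁ - a₀)).toFinset r d) (Pg l r c u),
      h * Pg l r c u I₁ / Pg l r c u I₀ =
        (∑ h ∈ Finset.Ico a b, u h) / (∑ h ∈ Finset.Ico a' b', u h)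

/-- gap values of a one-vertex net: either variables, or (three labels) the single gap has value 1 -/
def VtxG (l : List ℕ) (r : ℕ) (S : Net) (g : ℕ → MvPolynomial S.G ℕ) : Prop :=
  (∀ I, S.Δ I = if I ∈ l.toFinset.powersetCard r then
      ∏ p ∈ Net.prs l I, ∑ h ∈ Finset.Ico p.1 p.2, g h else 0) ∧
  S.M = l.toFinset.powersetCard r ∧ S.E = l.toFinset ∧ S.rk = r ∧
  ((∃ e : Fin (l.length - 2) ≃ S.G, ∀ h : Fin (l.length - 2), g h = X (e h)) ∨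
    (l.length = 3 ∧ IsEmpty S.G ∧ g 0 = 1))

/-- CVTX -/
def VtxGStmt : Prop :=
  ∀ (l : List ℕ) (r : ℕ) (S : Net), Net.IsVtx l r S → l.Nodup →
    (∃ g, VtxG l r S g) ∧ S.Valid ∧ 1 ≤ r ∧ r < l.length ∧ 3 ≤ l.length ∧
      (l.length = 3 ∨ (2 ≤ r ∧ r + 2 ≤ l.length))

/-- the hypotheses on a facet of `gen` -/
structure GenFac (L A R : List ℕ) (ρ q d r : ℕ) (SA SB : Net)
    (gA : ℕ → MvPolynomial SA.G ℕ) (gB : ℕ → MvPolynomial SB.G ℕ) : Prop where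
  valid : (Net.gen (L ++ A ++ R ++ [ρ]) (d + r)).Valid
  hq : q ∉ L ++ A ++ R ++ [ρ]
  hA : Net.IsVtx (A ++ [q]) (d + 1) SA
  hB : Net.IsVtx (L ++ [q] ++ R ++ [ρ]) r SB
  vA : VtxG (A ++ [q]) (d + 1) SA gA
  vB : VtxG (L ++ [q] ++ R ++ [ρ]) r SB gB

/-- CG0 -/
def Cg0Stmt : Prop :=
  ∀ (L A R : List ℕ) (ρ q d r : ℕ) (SA SB : Net)
    (gA : ℕ → MvPolynomial SA.G ℕ) (gB : ℕ → MvPolynomial SB.G ℕ),
    GenFac L A R ρ q d r SA SB gA gB →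
    (∀ v, (Net.tsum SA SB q).flat.Pos ((genFD L A R ρ q d r SA SB gA gB).w v)) ∧
    (∀ i : ℕ, (genFD L A R ρ q d r SA SB gA gB).w (Sum.inl i) /
      (Net.tsum SA SB q).flat.x (Sum.inl i) ∈ (Net.tsum SA SB q).flat.gapField) ∧
    (∀ h, (genFD L A R ρ q d r SA SB gA gB).w (Sum.inr h) ∈ (Net.tsum SA SB q).flat.gapField) ∧
    (Net.tsum SA SB q).M ⊂ (Net.gen (L ++ A ++ R ++ [ρ]) (d + r)).M

/-- CG2: (R2) for `gen` -/
def Cg2Stmt : Prop :=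
  ∀ (L A R : List ℕ) (ρ q d r : ℕ) (SA SB : Net)
    (gA : ℕ → MvPolynomial SA.G ℕ) (gB : ℕ → MvPolynomial SB.G ℕ),
    GenFac L A R ρ q d r SA SB gA gB →
    ∀ I ∈ (Net.gen (L ++ A ++ R ++ [ρ]) (d + r)).M, ∃ P : Polynomial (Net.tsum SA SB q).flat.F,
      (genFD L A R ρ q d r SA SB gA gB).P I =
        sVar (Net.tsum SA SB q).flat.F ^ (-((d * (d + 1) / 2 : ℕ) : ℤ)) *
        (RatFunc.C ((Net.tsum SA SB q).flat.P I) + sVar (Net.tsum SA SB q).flat.F *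
          algebraMap (Polynomial (Net.tsum SA SB q).flat.F) (RatFunc (Net.tsum SA SB q).flat.F) P)

/-- CG3: (R3) for `gen` (from HQUO) -/
def Cg3Stmt : Prop :=
  ∀ (L A R : List ℕ) (ρ q d r : ℕ) (SA SB : Net)
    (gA : ℕ → MvPolynomial SA.G ℕ) (gB : ℕ → MvPolynomial SB.G ℕ),
    GenFac L A R ρ q d r SA SB gA gB →
    ∀ I ∈ (Net.tsum SA SB q).M, ∀ μ ∈ ((Net.tsum SA SB q).flat.pol I).support,
      RatFunc.C ((Net.tsum SA SB q).flat.mono (zexp μ)) *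
        sVar (Net.tsum SA SB q).flat.F ^ (-((d * (d + 1) / 2 : ℕ) : ℤ)) /
        (genFD L A R ρ q d r SA SB gA gB).P I ∈
        Mon (Net.tsum SA SB q).M (genFD L A R ρ q d r SA SB gA gB).P

/-- CG4: (R3s) for `gen` (from HQUO, HSQ) -/
def Cg4Stmt : Prop :=
  ∀ (L A R : List ℕ) (ρ q d r : ℕ) (SA SB : Net)
    (gA : ℕ → MvPolynomial SA.G ℕ) (gB : ℕ → MvPolynomial SB.G ℕ),
    GenFac L A R ρ q d r SA SB gA gB →
    ∃ I₁ ∈ (Net.gen (L ++ A ++ R ++ [ρ]) (d + r)).M, I₁ ∉ (Net.tsum SA SB q).M ∧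
      ∃ I₀ ∈ (Net.tsum SA SB q).M,
      ∃ h ∈ Mon (Net.tsum SA SB q).M (genFD L A R ρ q d r SA SB gA gB).P,
      ∃ y : (Net.tsum SA SB q).flat.F, y ≠ 0 ∧
      h * (genFD L A R ρ q d r SA SB gA gB).P I₁ / (genFD L A R ρ q d r SA SB gA gB).P I₀ =
        sVar (Net.tsum SA SB q).flat.F * RatFunc.C y

/-- CG5: (Res) and (one) for `gen` -/
def Cg5Stmt : Prop :=
  ∀ (L A R : List ℕ) (ρ q d r : ℕ) (SA SB : Net)
    (gA : ℕ → MvPolynomial SA.G ℕ) (gB : ℕ → MvPolynomial SB.G ℕ),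
    GenFac L A R ρ q d r SA SB gA gB →
    (genFD L A R ρ q d r SA SB gA gB).Res ∧
    ∃ m ∈ (Net.gen (L ++ A ++ R ++ [ρ]) (d + r)).flat.Lam,
      (genFD L A R ρ q d r SA SB gA gB).pair m = 1

/-- CGEN: facet data for `gen` -/
def CgenStmt : Prop :=
  ∀ (L A R : List ℕ) (ρ q d r : ℕ) (SA SB : Net)
    (gA : ℕ → MvPolynomial SA.G ℕ) (gB : ℕ → MvPolynomial SB.G ℕ),
    GenFac L A R ρ q d r SA SB gA gB → (genFD L A R ρ q d r SA SB gA gB).Ok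

/-- CBW: facet data for `black` and `white` -/
def CbwStmt : Prop :=
  (∀ (l : Finset ℕ) (x : ℕ), x ∈ l → 2 ≤ l.card → (blackFD l x).Ok) ∧
  (∀ (l : Finset ℕ) (x : ℕ), x ∈ l → 2 ≤ l.card → (whiteFD l x).Ok)

/-- CDSL -/
def CdsumLStmt : Prop :=
  ∀ (S T S' : Net) (φ : FacetData S.flat S'.flat), (Net.dsum S T).Valid → Net.Facet S S' →
    T.flat.HasG → φ.Ok → (dsumLFD T φ).Ok

/-- CTSL -/
def CtsumLStmt : Prop :=
  ∀ (S T S' : Net) (q : ℕ) (φ : FacetData S.flat S'.flat), (Net.tsum S T q).Valid →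
    (S.Alive q → S'.Alive q) → Net.Facet S S' → T.flat.HasG → φ.Ok → (tsumLFD T q φ).Ok

/-- CTSB -/
def CtsumBStmt : Prop :=
  ∀ (S T S' T' : Net) (q : ℕ) (e : T'.G ≃ T.G) (φ : FacetData S.flat S'.flat),
    (Net.tsum S T q).Valid → S.Alive q → T.Alive q →
    ((S'.Loop q ∧ T'.Coloop q) ∨ (S'.Coloop q ∧ T'.Loop q)) →
    Net.Facet S S' → Net.Facet T T' → S'.flat.HasG → T'.flat.HasG → PureEq T T' q e →
    φ.Ok → (tsumBFD T T' q e φ).Ok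

/-- CISO: facet data and (G) are invariant under isomorphism -/
def CisoStmt : Prop :=
  ∀ (S S' T T' : FlatCell) (e : S.G ≃ S'.G) (f : T.G ≃ T'.G), FlatIso S S' e → FlatIso T T' f →
    ∀ φ : FacetData S T, φ.Ok → (isoFD e f φ).Ok

/-- CSW: swapping the summands -/
def CswapStmt : Prop :=
  (∀ S T : Net, Disjoint S.E T.E → FlatIso (Net.dsum S T).flat (Net.dsum T S).flat
    (Equiv.sumComm S.G T.G)) ∧
  (∀ (S T : Net) (q : ℕ), (Net.tsum S T q).Valid → FlatIso (Net.tsum S T q).flat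
    (Net.tsum T S q).flat (Equiv.sumComm S.G T.G))

/-- CALL -/
def CallStmt : Prop :=
  ∀ S S' : Net, S.Valid → Net.Facet S S' → ∃ φ : FacetData S.flat S'.flat, φ.Ok

/-! ## D. Closures of nets -/

/-- DZ: the vectors of `tsum` and `dsum` -/
def ZnetStmt : Prop :=
  (∀ (S T : Net) (q : ℕ), (Net.tsum S T q).Valid → (Net.tsum S T q).flat.Z =
    {x | ∃ y ∈ S.flat.Z, ∃ z ∈ T.flat.Z, x = comb (S.E.erase q) q y z}) ∧
  (∀ (S T : Net), (Net.dsum S T).Valid → (Net.dsum S T).flat.Z =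
    {x | ∃ y ∈ S.flat.Z, ∃ z ∈ T.flat.Z, x = prodv S.E y z})

/-- DTB -/
def BtsumStmt : Prop :=
  ∀ (S T : Net) (q : ℕ), (Net.tsum S T q).Valid → S.HasB → T.HasB → (Net.tsum S T q).HasB

/-- DTD -/
def DtsumStmt : Prop :=
  ∀ (S T : Net) (q : ℕ), (Net.tsum S T q).Valid → S.HasD → T.HasD → (Net.tsum S T q).HasD

/-- DDS -/
def BDdsumStmt : Prop :=
  ∀ (S T : Net), (Net.dsum S T).Valid → S.HasB → T.HasB → S.HasD → T.HasD →
    (Net.dsum S T).HasB ∧ (Net.dsum S T).HasD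

/-- DBW -/
def BDbwStmt : Prop :=
  ∀ l : Finset ℕ, l.Nonempty →
    (Net.black l).HasB ∧ (Net.black l).HasD ∧ (Net.white l).HasB ∧ (Net.white l).HasD

/-- DGEN (from section V) -/
def BDgenStmt : Prop :=
  ∀ (l : List ℕ) (r : ℕ), (Net.gen l r).Valid → (Net.gen l r).HasB ∧ (Net.gen l r).HasD

/-- DALL -/
def BDallStmt : Prop := ∀ S : Net, S.Valid → S.HasB ∧ S.HasD

/-! ## V. One vertex -/

/-- VMOE: Möbius transformation -/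
def MoebStmt : Prop :=
  (∀ (l : List ℕ) (r : ℕ), l.Nodup → 1 ≤ r → 3 ≤ l.length → ∀ z : Finset ℕ → ℝ,
    z ∈ ZV l r ↔ ∃ c u : ℕ → ℝ, (∀ i, 0 < c i) ∧ (∀ h, 0 < u h) ∧ z = Pg l r c u) ∧
  (∀ (l : List ℕ) (r : ℕ) (f : MvPolynomial (Finset ℕ) ℂ), l.Nodup → 1 ≤ r → 3 ≤ l.length →
    ((∀ (κ : ℂ) (c t : ℕ → ℂ), aeval (Q l r κ c t) f = 0) ↔
      ∀ c u : ℕ → ℂ, aeval (Pg l r c u) f = 0))

/-- VZ: the cells of one-vertex nets are the Vandermonde cells -/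
def ZvtxStmt : Prop :=
  (∀ (l : List ℕ) (r : ℕ) (S : Net), Net.IsVtx l r S → l.Nodup → S.flat.Z = ZV l r) ∧
  (∀ (l : List ℕ) (r : ℕ) (f : MvPolynomial (Finset ℕ) ℂ), (Net.gen l r).Valid →
    ((∀ (κ : ℂ) (c t : ℕ → ℂ), aeval (Q l r κ c t) f = 0) ↔
      ∀ x : (Net.gen l r).flat.V → ℂ, aeval ((Net.gen l r).flat.ev x) f = 0))

/-- VTRI: rank and corank at most one -/
def ZtrivStmt : Prop :=
  ∀ (l : List ℕ) (r : ℕ), l.Nodup → r ≤ l.length → (r ≤ 1 ∨ l.length ≤ r + 1) →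
    ZV l r = {z | (∀ I ∈ l.toFinset.powersetCard r, 0 < z I) ∧
      ∀ I, I ∉ l.toFinset.powersetCard r → z I = 0}

/-- VMIN: minors -/
def MinorStmt : Prop :=
  (∀ (l : List ℕ) (r i : ℕ), l.Nodup → i ∈ l → r < l.length → ∀ z ∈ ZV l r,
    del i z ∈ ZV (l.erase i) r) ∧
  (∀ (l : List ℕ) (r i : ℕ), l.Nodup → i ∈ l → 1 ≤ r → ∀ z ∈ ZV l r,
    con i z ∈ ZV (l.erase i) (r - 1)) ∧
  (∀ (l : List ℕ) (r i : ℕ), l.Nodup → i ∈ l → ∀ z ∈ XV l r, del i z ∈ XV (l.erase i) r) ∧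
  (∀ (l : List ℕ) (r i : ℕ), l.Nodup → i ∈ l → 1 ≤ r → ∀ z ∈ XV l r,
    con i z ∈ XV (l.erase i) (r - 1))

/-- VROT: rotation of the list -/
def RotStmt : Prop :=
  (∀ (l : List ℕ) (r a : ℕ), (a :: l).Nodup → ZV (a :: l) r = ZV (l ++ [a]) r) ∧
  (∀ (l : List ℕ) (r a : ℕ), (a :: l).Nodup → XV (a :: l) r = XV (l ++ [a]) r)

/-- VREN: renaming a label -/
def RenStmt : Prop :=
  ∀ (L R : List ℕ) (b q r : ℕ), (L ++ [b] ++ R).Nodup → q ∉ L ++ [b] ++ R → ∀ z : Finset ℕ → ℝ,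
    (z ∈ ZV (L ++ [b] ++ R) r →
      (fun I => if b ∈ I then 0 else if q ∈ I then z (insert b (I.erase q)) else z I) ∈
        ZV (L ++ [q] ++ R) r) ∧
    (z ∈ XV (L ++ [b] ++ R) r →
      (fun I => if b ∈ I then 0 else if q ∈ I then z (insert b (I.erase q)) else z I) ∈
        XV (L ++ [q] ++ R) r)

/-- VPLU: exchange and three-term relation -/
def PluckerStmt : Prop :=
  (∀ (l : List ℕ) (r : ℕ), ∀ z ∈ XV l r, ∀ I, z I ≠ 0 → I ∈ l.toFinset.powersetCard r) ∧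
  (∀ (l : List ℕ) (r : ℕ), l.Nodup → ∀ z ∈ XV l r, ∀ I I' : Finset ℕ, z I ≠ 0 → z I' ≠ 0 →
    ∀ e ∈ I, e ∉ I' → ∃ f ∈ I', f ∉ I ∧ z (insert f (I.erase e)) ≠ 0 ∧
      z (insert e (I'.erase f)) ≠ 0) ∧
  (∀ (l : List ℕ) (r : ℕ), l.Nodup → ∀ z ∈ XV l r, ∀ (K : Finset ℕ) (a b c d : ℕ),
    a < b → b < c → c < d → d < l.length →
    l.getD a 0 ∉ K → l.getD b 0 ∉ K → l.getD c 0 ∉ K → l.getD d 0 ∉ K →
    z (insert (l.getD a 0) (insert (l.getD c 0) K)) * z (insert (l.getD b 0) (insert (l.getD d 0) K))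
      = z (insert (l.getD a 0) (insert (l.getD b 0) K)) *
          z (insert (l.getD c 0) (insert (l.getD d 0) K)) +
        z (insert (l.getD a 0) (insert (l.getD d 0) K)) *
          z (insert (l.getD b 0) (insert (l.getD c 0) K)))

/-- VRK1: block product formula. If every basis has at most `a` elements in `A` (an interval of the
list), then the bases with exactly `a` elements in `A` form a rank one matrix. -/
def RankOneStmt : Prop :=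
  ∀ (L A R : List ℕ) (r a : ℕ), (L ++ A ++ R).Nodup → ∀ z ∈ XV (L ++ A ++ R) r,
    ((∀ I, z I ≠ 0 → (I ∩ A.toFinset).card ≤ a) ∨ (∀ I, z I ≠ 0 → a ≤ (I ∩ A.toFinset).card)) →
    ∀ I J I' J' : Finset ℕ, I ⊆ A.toFinset → I' ⊆ A.toFinset → I.card = a → I'.card = a →
      Disjoint J A.toFinset → Disjoint J' A.toFinset →
      z (I ∪ J) * z (I' ∪ J') = z (I ∪ J') * z (I' ∪ J)

/-- VLP: decomposition along an interval -/
def DecompStmt : Prop :=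
  ∀ (L A R : List ℕ) (r d q : ℕ), (L ++ A ++ R).Nodup → q ∉ L ++ A ++ R → A ≠ [] → L ++ R ≠ [] →
    ∀ z ∈ XV (L ++ A ++ R) r, Nonneg z → z ≠ 0 →
    (∀ I, z I ≠ 0 → (I ∩ A.toFinset).card = d ∨ (I ∩ A.toFinset).card = d + 1) →
    (∃ y ∈ XV (A ++ [q]) (d + 1), ∃ x ∈ XV (L ++ [q] ++ R) (r - d), Nonneg y ∧ Nonneg x ∧
        AliveV y q ∧ AliveV x q ∧ d + 1 ≤ A.length ∧ 1 ≤ r - d ∧ d < r ∧
        r - d ≤ (L ++ R).length ∧ z = comb A.toFinset q y x) ∨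
    (∃ a, (a = d ∨ a = d + 1) ∧ a ≤ r ∧ ∃ y ∈ XV A a, ∃ x ∈ XV (L ++ R) (r - a),
        Nonneg y ∧ Nonneg x ∧ y ≠ 0 ∧ x ≠ 0 ∧ z = prodv A.toFinset y x)

/-- VSMO: smoothing of a 2-sum -/
def SmoothStmt : Prop :=
  ∀ (L A R : List ℕ) (r d q : ℕ), (L ++ A ++ R).Nodup → q ∉ L ++ A ++ R →
    d + 1 ≤ A.length → 1 ≤ r → r ≤ (L ++ R).length →
    ∀ y ∈ closure (ZV (A ++ [q]) (d + 1)), ∀ x ∈ closure (ZV (L ++ [q] ++ R) r),
      comb A.toFinset q y x ∈ closure (ZV (L ++ A ++ R) (d + r))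

/-- VLC: adding loops and coloops -/
def LoopColoopStmt : Prop :=
  (∀ (l : List ℕ) (r i : ℕ), l.Nodup → i ∈ l → r < l.length →
    ∀ z ∈ closure (ZV (l.erase i) r), z ∈ closure (ZV l r)) ∧
  (∀ (l : List ℕ) (r i : ℕ), l.Nodup → i ∈ l → 1 ≤ r → r ≤ l.length →
    ∀ z ∈ closure (ZV (l.erase i) (r - 1)), addco i z ∈ closure (ZV l r))

/-- VVAL: the valuation ring -/
def ValStmt : Prop :=
  ∀ (l : List ℕ) (r : ℕ), ∀ z ∈ XV l r, z ≠ 0 →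
    ∃ (K : Type) (_ : Field K) (_ : Algebra ℂ K) (v : ValuationSubring K) (c t : ℕ → K)
      (I₀ : Finset ℕ), (∀ i, c i ≠ 0) ∧ (∀ i ∈ l, ∀ j ∈ l, i ≠ j → t i ≠ t j) ∧ z I₀ ≠ 0 ∧
      (∀ a : ℂ, algebraMap ℂ K a ∈ v) ∧
      ∀ I, v.valuation (Q l r 1 c t I / Q l r 1 c t I₀ -
        algebraMap ℂ K (((z I / z I₀ : ℝ) : ℂ))) < 1

/-- VCLU: the minimal cluster. -/
def ClusterStmt : Prop :=
  ∀ (l : List ℕ) (r : ℕ), l.Nodup → 2 ≤ r → r + 2 ≤ l.length → ∀ z ∈ XV l r,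
    (∀ i ∈ l, AliveV z i) → (∃ I ∈ l.toFinset.powersetCard r, z I = 0) →
    ∃ A ⊆ l.toFinset, 2 ≤ A.card ∧ A.card + 2 ≤ l.length ∧
      (∀ I I', z I ≠ 0 → z I' ≠ 0 → (I ∩ A).card ≤ (I' ∩ A).card + 1) ∧
      (∀ I, z I ≠ 0 → ∀ a ∈ A, a ∈ I → ∀ b ∈ A, b ∉ I → z (insert b (I.erase a)) ≠ 0)

/-- VSTR: structure lemma -/
def StructStmt : Prop :=
  ∀ (l : List ℕ) (r : ℕ), l.Nodup → 2 ≤ r → r + 2 ≤ l.length → ∀ z ∈ XV l r, Nonneg z →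
    (∀ i ∈ l, AliveV z i) → (∃ I ∈ l.toFinset.powersetCard r, z I = 0) →
    ∃ (L A R : List ℕ) (d : ℕ), l = L ++ A ++ R ∧ 2 ≤ A.length ∧ A.length + 2 ≤ l.length ∧
      ∀ I, z I ≠ 0 → (I ∩ A.toFinset).card = d ∨ (I ∩ A.toFinset).card = d + 1

/-- VUNI: positive points of the closure are Vandermonde -/
def UniformStmt : Prop :=
  ∀ (l : List ℕ) (r : ℕ), l.Nodup → 2 ≤ r → r + 2 ≤ l.length → ∀ z ∈ XV l r,
    (∀ I ∈ l.toFinset.powersetCard r, 0 < z I) → z ∈ ZV l r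

/-- VN: the nonnegative part is the closure of the positive part -/
def NStmt : Prop :=
  ∀ (l : List ℕ) (r : ℕ), l.Nodup → r ≤ l.length → ∀ z ∈ XV l r, Nonneg z → z ∈ closure (ZV l r)

/-- VCL: closures lie in the nonnegative part -/
def ClosedStmt : Prop :=
  ∀ (l : List ℕ) (r : ℕ), closure (ZV l r) ⊆ {z | z ∈ XV l r ∧ Nonneg z}

/-- VB -/
def BgenStmt : Prop := ∀ (l : List ℕ) (r : ℕ), (Net.gen l r).Valid → (Net.gen l r).HasB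

/-- VD -/
def DgenStmt : Prop := ∀ (l : List ℕ) (r : ℕ), (Net.gen l r).Valid → (Net.gen l r).HasD

end ABCT
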